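import Pool.Agent.H59.L.S8.TH188.QS.Fin

/-!
# Base rings
-/

set_option autoImplicit false
set_option linter.unusedVariables false
set_option linter.unusedSectionVars false

universe u v

namespace Pool.Agent.TH188.QS

open IsLocalRing Pool.Agent.W418.LU2

lemma exists_fin_range {L : Type u} {T : Set L} (hT : T.Finite) :
    ∃ (n : ℕ) (t : Fin n → L), Set.range t = T := by
  classical
  refine ⟨hT.toFinset.card, fun i => (hT.toFinset.equivFin.symm i : L), ?_⟩
  ext z
  constructor
  · rintro ⟨i, rfl⟩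
    exact hT.mem_toFinset.1 (hT.toFinset.equivFin.symm i).2
  · intro hz
    refine ⟨hT.toFinset.equivFin ⟨z, hT.mem_toFinset.2 hz⟩, ?_⟩
    simp

lemma range_eval {R L : Type u} [CommRing R] [Field L] (ρ : R →+* L) {n : ℕ} (t : Fin n → L) :
    (MvPolynomial.eval₂Hom ρ t).range = Subring.closure ((ρ.range : Set L) ∪ Set.range t) := by
  apply le_antisymm
  · rintro _ ⟨p, rfl⟩
    induction p using MvPolynomial.induction_on with
    | C a =>
      rw [MvPolynomial.eval₂Hom_C]
      exact Subring.subset_closure (Or.inl ⟨a, rfl⟩)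
    | add p q hp hq => rw [map_add]; exact Subring.add_mem _ hp hq
    | mul_X p i hp =>
      rw [map_mul, MvPolynomial.eval₂Hom_X']
      exact Subring.mul_mem _ hp (Subring.subset_closure (Or.inr ⟨i, rfl⟩))
  · rw [Subring.closure_le]
    rintro _ (⟨a, rfl⟩ | ⟨i, rfl⟩)
    · exact ⟨MvPolynomial.C a, MvPolynomial.eval₂Hom_C _ _ _⟩
    · exact ⟨MvPolynomial.X i, MvPolynomial.eval₂Hom_X' _ _ _⟩

/-- The weak Jacobian condition for polynomial rings. -/
theorem wj_poly {k₀ : Type v} {R L : Type u} [CommRing k₀] [CommRing R] [IsDomain R]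
    [IsRegularRing R] [Algebra k₀ R] [Algebra.FormallySmooth k₀ R] [Field L] [Algebra k₀ L]
    (hL : Subsingleton (Algebra.H1Cotangent k₀ L)) (ρ : R →+* L)
    (hρ : ∀ a, ρ (algebraMap k₀ R a) = algebraMap k₀ L a) {n : ℕ} (t : Fin n → L)
    (hfr : ∀ z : L, Fr (Subring.closure ((ρ.range : Set L) ∪ Set.range t)) z) :
    WJ (MvPolynomial.eval₂Hom ρ t) := by
  let _ : Algebra (MvPolynomial (Fin n) R) L := (MvPolynomial.eval₂Hom ρ t).toAlgebra
  have halg : ∀ p, algebraMap (MvPolynomial (Fin n) R) L p = MvPolynomial.eval₂Hom ρ t p :=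
    fun p => rfl
  have h1 : IsScalarTower k₀ (MvPolynomial (Fin n) R) L := IsScalarTower.of_algebraMap_eq fun a => by
    rw [halg, IsScalarTower.algebraMap_apply k₀ R (MvPolynomial (Fin n) R),
      MvPolynomial.algebraMap_eq, MvPolynomial.eval₂Hom_C, hρ]
  have h2 : Algebra.FormallySmooth k₀ (MvPolynomial (Fin n) R) :=
    Algebra.FormallySmooth.comp k₀ R (MvPolynomial (Fin n) R)
  have h3 : ∀ z : L, ∃ a b : MvPolynomial (Fin n) R,
      algebraMap (MvPolynomial (Fin n) R) L b ≠ 0 ∧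
      z * algebraMap (MvPolynomial (Fin n) R) L b = algebraMap (MvPolynomial (Fin n) R) L a := by
    intro z
    obtain ⟨a, ha, b, hb, hb0, rfl⟩ := hfr z
    rw [← range_eval] at ha hb
    obtain ⟨a', rfl⟩ := ha
    obtain ⟨b', rfl⟩ := hb
    exact ⟨a', b', hb0, inv_mul_cancel_right₀ hb0 _⟩
  obtain ⟨r, f, D, hf, hgen, hdet⟩ := exists_jac hL h3
  exact ⟨r, f, fun j => (D j).restrictScalars ℤ, hf, hgen, hdet⟩

/-- Formally smooth algebras over perfect fields. -/
theorem hj_smooth {k₀ : Type v} {R : Type u} [Field k₀] [PerfectField k₀] [CommRing R] [IsDomain R]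
    [IsRegularRing R] [Algebra k₀ R] [Algebra.FormallySmooth k₀ R] : HJ R := by
  intro L _ ρ T hT hfr
  obtain ⟨n, t, rfl⟩ := exists_fin_range hT
  let _ : Algebra k₀ L := (ρ.comp (algebraMap k₀ R)).toAlgebra
  exact ⟨MvPolynomial (Fin n) R, inferInstance, inferInstance, inferInstance,
    MvPolynomial.eval₂Hom ρ t, range_eval ρ t,
    wj_poly (k₀ := k₀) h1_perfect ρ (fun a => rfl) t hfr⟩

/-- Fields. -/
theorem hj_field {k : Type u} [Field k] : HJ k := by
  obtain ⟨p, hp⟩ := CharP.exists k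
  rcases Nat.eq_zero_or_pos p with rfl | hpos
  · have h1 : CharZero k := CharP.charP_to_charZero k
    have h2 : Algebra.FormallySmooth ℚ k := ⟨inferInstance, h1_perfect⟩
    exact hj_smooth (k₀ := ℚ)
  · have hpp : p.Prime := (CharP.char_is_prime_or_zero k p).resolve_right hpos.ne'
    have : Fact p.Prime := ⟨hpp⟩
    let _ : Algebra (ZMod p) k := ZMod.algebra k p
    have h2 : Algebra.FormallySmooth (ZMod p) k := ⟨inferInstance, h1_perfect⟩
    exact hj_smooth (k₀ := ZMod p)

/-- Dedekind rings of characteristic zero. -/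
theorem hj_dedekind {R : Type u} [CommRing R] [IsDedekindDomain R] [CharZero R] : HJ R := by
  intro L _ ρ T hT hfr
  by_cases hker : RingHom.ker ρ = ⊥
  · -- generic characteristic zero
    have hinj : Function.Injective ρ := (RingHom.injective_iff_ker_eq_bot ρ).2 hker
    obtain ⟨n, t, rfl⟩ := exists_fin_range hT
    let _ : Algebra R L := ρ.toAlgebra
    let E := FractionRing R
    let ψ : E →+* L := IsLocalization.lift (M := nonZeroDivisors R) (g := ρ) (by
      intro y
      exact isUnit_iff_ne_zero.2 fun h => nonZeroDivisors.ne_zero y.2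
        (hinj (by rw [h, map_zero])))
    let _ : Algebra E L := ψ.toAlgebra
    have h1 : IsScalarTower R E L := IsScalarTower.of_algebraMap_eq fun a =>
      (IsLocalization.lift_eq _ a).symm
    have h2 : CharZero E := charZero_of_injective_algebraMap (IsFractionRing.injective R E)
    have h3 : Algebra.FormallySmooth E L := ⟨inferInstance, h1_perfect⟩
    have h4 : Algebra.FormallySmooth R E := Algebra.FormallySmooth.of_isLocalization
      (nonZeroDivisors R)
    have h5 : Algebra.FormallySmooth R L := Algebra.FormallySmooth.comp R E L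
    exact ⟨MvPolynomial (Fin n) R, inferInstance, inferInstance, inferInstance,
      MvPolynomial.eval₂Hom ρ t, range_eval ρ t,
      wj_poly (k₀ := R) h5.subsingleton_h1Cotangent ρ (fun a => rfl) t hfr⟩
  · -- the residue fields
    have hp : (RingHom.ker ρ).IsPrime := RingHom.ker_isPrime ρ
    have hm : (RingHom.ker ρ).IsMaximal := hp.isMaximal hker
    let _ : Field (R ⧸ RingHom.ker ρ) := Ideal.Quotient.field _
    let ρ' : R ⧸ RingHom.ker ρ →+* L := RingHom.kerLift ρ
    have hr : ρ'.range = ρ.range := by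
      ext z
      constructor
      · rintro ⟨x, rfl⟩
        obtain ⟨y, rfl⟩ := Ideal.Quotient.mk_surjective x
        exact ⟨y, rfl⟩
      · rintro ⟨y, rfl⟩
        exact ⟨Ideal.Quotient.mk _ y, rfl⟩
    have h1 := hj_field (k := R ⧸ RingHom.ker ρ) L ρ' T hT
    rw [hr] at h1
    exact h1 hfr

/-- Localization. -/
theorem GP.loc {K : Type u} [Field K] {V : ValuationSubring K} {A B : Subring K}
    (hA : A ≤ V.toSubring) (h : GP V A) (hAB : A ≤ B) (hB : B ≤ lo V.toSubring A) : GP V B := by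
  have hfr : ∀ z, Fr B z → Fr A z := by
    rintro z ⟨b, hb, c, hc, hc0, rfl⟩
    obtain ⟨a, ha, s, hs, hs0, hsV, rfl⟩ := hB hb
    obtain ⟨a', ha', s', hs', hs'0, hs'V, rfl⟩ := hB hc
    have ha'0 : a' ≠ 0 := left_ne_zero_of_mul hc0
    refine ⟨a * s', A.mul_mem ha hs', s * a', A.mul_mem hs ha', mul_ne_zero hs0 ha'0, ?_⟩
    field_simp
  intro G H hGf hHf hG hH
  obtain ⟨ι, _, x, P, g, h1, ⟨hgA, hg0, T, hTf, hT, hP⟩, h3, h4, h5⟩ := h G H hGf hHf
    (fun z hz => ⟨(hG z hz).1, hfr z (hG z hz).2⟩) (fun z hz => ⟨(hH z hz).1, hfr z (hH z hz).2⟩)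
  have hTV : Subring.closure ((A : Set K) ∪ T) ≤ V.toSubring := cl_le hA fun t ht => (hT t ht).1
  refine ⟨ι, inferInstance, x, P, g, h1, ⟨hAB hgA, hg0, T, hTf, fun t ht => ⟨(hT t ht).1,
    hAB (hT t ht).2⟩, ?_⟩, h3, h4, h5⟩
  rw [hP]
  apply le_antisymm
  · refine lo_mono (Subring.closure_mono ?_)
    rintro z (hz | hz)
    · exact Or.inl (hAB hz)
    · exact Or.inr hz
  · refine lo_le_lo hTV ?_
    rw [Subring.closure_le]
    rintro z (hz | hz)
    · exact lo_mono (fun a ha => Subring.subset_closure (Or.inl ha)) (hB hz)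
    · exact le_lo _ _ (Subring.subset_closure (Or.inr hz))

/-- The main theorem. -/
theorem main {R : Type u} [CommRing R] (hR : HJ R) {K : Type u} [Field K] {V : ValuationSubring K}
    (ρ : R →+* K) {T : Set K} (hT : T.Finite) {B : Subring K} (hBV : B ≤ V.toSubring)
    (hAB : Subring.closure ((ρ.range : Set K) ∪ T) ≤ B)
    (hBA : ∀ b ∈ B, ∃ a ∈ Subring.closure ((ρ.range : Set K) ∪ T),
      ∃ s ∈ Subring.closure ((ρ.range : Set K) ∪ T), s ≠ 0 ∧ s⁻¹ ∈ B ∧ b = a * s⁻¹)
    (hV : (∃ n, DR n V) ∨ Dv V (qseq V B)) : GP V B ∧ IsNoetherianRing B := by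
  set A := Subring.closure ((ρ.range : Set K) ∪ T) with hA
  have hAV : A ≤ V.toSubring := hAB.trans hBV
  have hBA' : B ≤ lo V.toSubring A := by
    intro b hb
    obtain ⟨a, ha, s, hs, hs0, hsB, rfl⟩ := hBA b hb
    exact ⟨a, ha, s, hs, hs0, hBV hsB, rfl⟩
  have hlo : lo V.toSubring B = lo V.toSubring A := le_antisymm (lo_le_lo hAV hBA') (lo_mono hAB)
  have hq : qseq V B = qseq V A := by
    funext n
    induction n with
    | zero => exact hlo
    | succ n ih => exact congrArg (qt V.toSubring) ih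
  -- any divergent sequence gives noetherianity; use the trivial valuation
  have hnoe : IsNoetherianRing A := by
    have h1 : A ≤ (⊤ : ValuationSubring K).toSubring := fun _ _ => trivial
    refine (gp_div hR (V := ⊤) ρ hT h1 ?_).2
    intro x hx
    refine ⟨1, fun z hz hcon => ?_⟩
    obtain ⟨-, h2, h3⟩ := hz 0 Nat.one_pos
    have h4 : (z 0)⁻¹ ∈ (⊤ : ValuationSubring K) := trivial
    exact nu_iff.2 h3 ⟨h2, h4⟩
  have hBlo : B = lo B A := by
    apply le_antisymm
    · intro b hb
      obtain ⟨a, ha, s, hs, hs0, hsB, rfl⟩ := hBA b hb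
      exact ⟨a, ha, s, hs, hs0, hsB, rfl⟩
    · exact lo_le hAB
  refine ⟨?_, ?_⟩
  · rcases hV with ⟨n, hn⟩ | hdv
    · exact (gp_disc hR n V hn ρ T hT hAV).loc hAV hAB hBA'
    · rw [hq] at hdv
      exact (gp_div hR ρ hT hAV hdv).1.loc hAV hAB hBA'
  · rw [hBlo]
    exact noeth_lo hAB

end Pool.Agent.TH188.QS
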