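import Pool.Agent.H59.L.S8.TH188.QS.Bases

/-!
# Composites of divergent valuations
-/

set_option autoImplicit false
set_option linter.unusedVariables false
set_option linter.unusedSectionVars false

universe u v

namespace Pool.Agent.TH188.QS

open IsLocalRing Pool.Agent.W418.LU2

/-- Composites of `n` discrete or divergent valuations. -/
def SD (R : Type u) [CommRing R] : ℕ → ∀ {K : Type u} [Field K], (R →+* K) →
    ValuationSubring K → Prop
  | 0, _, _, _, V => V = ⊤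
  | n + 1, K, _, ρ, V => ∃ (V₁ : ValuationSubring K) (W : ValuationSubring (ResidueField V₁))
      (hρ : ∀ a, ρ a ∈ V₁.toSubring), Cmp V V₁ W ∧ (IsDiscreteValuationRing V₁ ∨
        ∀ T : Set K, T.Finite → Subring.closure ((ρ.range : Set K) ∪ T) ≤ V₁.toSubring →
          Dv V₁ (qseq V₁ (Subring.closure ((ρ.range : Set K) ∪ T)))) ∧
      SD R n ((residue V₁).comp (ρ.codRestrict V₁.toSubring hρ)) W

/-- Uniformization of composites of discrete or divergent valuations. -/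
theorem gp_sd {R : Type u} [CommRing R] (hR : HJ R) (n : ℕ) : ∀ {K : Type u} [Field K]
    (V : ValuationSubring K) (ρ : R →+* K), SD R n ρ V → ∀ (T : Set K), T.Finite →
    Subring.closure ((ρ.range : Set K) ∪ T) ≤ V.toSubring →
    GP V (Subring.closure ((ρ.range : Set K) ∪ T)) := by
  classical
  induction n with
  | zero =>
    intro K _ V ρ hV T hT hAV
    have hV' : V = ⊤ := hV
    refine gp_trivial hAV fun y _ _ => ?_
    rw [hV']
    trivial
  | succ n ih =>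
    intro K _ V ρ hV T hT hAV
    obtain ⟨V₁, W, hρV₁, hVW, hV₁, hW⟩ := hV
    set A := Subring.closure ((ρ.range : Set K) ∪ T) with hA
    have hVV : V ≤ V₁ := fun z hz => ((hVW z).1 hz).1
    have hAV₁ : A ≤ V₁.toSubring := fun a ha => hVV (hAV ha)
    have hdv : Dv V₁ (qseq V₁ A) := by
      rcases hV₁ with hV₁ | hV₁
      · exact dv_of_dvr hV₁ fun n => qseq_le hAV₁ n
      · exact hV₁ T hT hAV₁
    obtain ⟨h₁, hnoe⟩ := gp_div hR (V := V₁) ρ hT hAV₁ hdv
    refine gp_comp hVW hAV h₁ fun T' hT' hT'V => ?_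
    let ρ' : R →+* ResidueField V₁ := (residue V₁).comp (ρ.codRestrict V₁.toSubring hρV₁)
    have hρ' : ∀ x, Pr (residue V₁) (ρ x) (ρ' x) := fun x => res_pr (hρV₁ x)
    have hTV₁ : ∀ t ∈ T ∪ T', t ∈ V₁ := by
      rintro t (ht | ht)
      · exact hAV₁ (Subring.subset_closure (Or.inr ht))
      · exact hVV (hT'V t ht)
    let T₂ : Set (ResidueField V₁) := {w | ∃ t ∈ T ∪ T', Pr (residue V₁) t w}
    have hT₂f : T₂.Finite := by
      have h1 : T₂ ⊆ (fun t : K => if ht : t ∈ V₁ then residue V₁ ⟨t, ht⟩ else 0) ''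
          (T ∪ T') := by
        rintro w ⟨t, ht, htw⟩
        refine ⟨t, ht, ?_⟩
        simp only [dif_pos (hTV₁ t ht)]
        exact (res_pr (hTV₁ t ht)).unique htw
      exact ((hT.union hT').image _).subset h1
    have him : im (residue V₁) (Subring.closure ((A : Set K) ∪ T')) =
        Subring.closure ((ρ'.range : Set (ResidueField V₁)) ∪ T₂) := by
      rw [hA, closure_closure_union, Set.union_assoc]
      refine im_closure ?_ ?_
      · rintro u (⟨x, rfl⟩ | hu)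
        · exact ⟨ρ' x, Or.inl ⟨x, rfl⟩, hρ' x⟩
        · exact ⟨_, Or.inr ⟨u, hu, res_pr (hTV₁ u hu)⟩, res_pr (hTV₁ u hu)⟩
      · rintro w (⟨x, rfl⟩ | ⟨t, ht, h⟩)
        · exact ⟨ρ x, Or.inl ⟨x, rfl⟩, hρ' x⟩
        · exact ⟨t, Or.inr ht, h⟩
    rw [him]
    refine ih W ρ' hW T₂ hT₂f ?_
    rw [← him]
    rintro w ⟨z, hz, hzw⟩
    have hzV : z ∈ V := cl_le hAV hT'V hz
    obtain ⟨h1, h2⟩ := (hVW z).1 hzV
    rw [hzw.unique (res_pr h1)]
    exact h2

/-- Divergence in terms of values. -/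
lemma dv_of_lt {K : Type u} [Field K] {V : ValuationSubring K} {Q : ℕ → Subring K}
    (h : ∀ x : K, x ≠ 0 → ∃ n, ∀ z : ℕ → K,
      (∀ i < n, z i ∈ Q i ∧ z i ≠ 0 ∧ V.valuation (z i) < 1) →
      V.valuation (∏ i ∈ Finset.range n, z i) < V.valuation x) : Dv V Q := by
  intro x hx
  obtain ⟨n, hn⟩ := h x hx
  refine ⟨n, fun z hz hcon => ?_⟩
  have h1 := hn z hz
  have h2 : ∏ i ∈ Finset.range n, z i ≠ 0 :=
    Finset.prod_ne_zero_iff.2 fun i hi => (hz i (Finset.mem_range.1 hi)).2.1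
  rw [← V.valuation_le_one_iff, map_mul, map_inv₀, ← div_eq_mul_inv,
    div_le_one₀ (zero_lt_iff.2 ((map_ne_zero _).2 h2))] at hcon
  exact absurd h1 (not_lt.2 hcon)

/-- The quadratic transform in terms of values. -/
lemma qt_val {K : Type u} [Field K] {V : ValuationSubring K} (B : Subring K) :
    qt V.toSubring B = lo V.toSubring (Subring.closure ((B : Set K) ∪ {t | ∃ y ∈ B, ∃ z ∈ B,
      V.valuation y < 1 ∧ z ≠ 0 ∧ V.valuation z < 1 ∧
      (∀ w ∈ B, V.valuation w < 1 → V.valuation w ≤ V.valuation z) ∧ t = y / z})) := by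
  unfold qt
  congr 2
  ext t
  simp only [Set.mem_union, Set.mem_ofPred_eq]
  constructor
  · rintro (ht | ⟨y, hy, z, hyn, hz, rfl⟩)
    · exact Or.inl ht
    · refine Or.inr ⟨y, hy, z, hz.mem, nu_iff.1 hyn, hz.ne, hz.lt, fun w hw hwv => ?_,
        (div_eq_mul_inv _ _).symm⟩
      have h1 : w * z⁻¹ ∈ V := hz.min w hw (nu_iff.2 hwv)
      rwa [← V.valuation_le_one_iff, map_mul, map_inv₀, ← div_eq_mul_inv,
        div_le_one₀ (zero_lt_iff.2 ((map_ne_zero _).2 hz.ne))] at h1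
  · rintro (ht | ⟨y, hy, z, hz, hyv, hz0, hzv, hmin, rfl⟩)
    · exact Or.inl ht
    · refine Or.inr ⟨y, hy, z, nu_iff.2 hyv, ⟨hz, hz0, ?_, ?_⟩, div_eq_mul_inv _ _⟩
      · intro h
        exact nu_iff.2 hzv ⟨hz0, h⟩
      · intro w hw hwn
        change w * z⁻¹ ∈ V
        rw [← V.valuation_le_one_iff, map_mul, map_inv₀, ← div_eq_mul_inv,
          div_le_one₀ (zero_lt_iff.2 ((map_ne_zero _).2 hz0))]
        exact hmin w hw (nu_iff.1 hwn)

/-- The main theorem. -/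
theorem main_sd {R : Type u} [CommRing R] (hR : HJ R) {K : Type u} [Field K]
    {V : ValuationSubring K} (ρ : R →+* K) {T : Set K} (hT : T.Finite) {B : Subring K}
    (hBV : B ≤ V.toSubring) (hAB : Subring.closure ((ρ.range : Set K) ∪ T) ≤ B)
    (hBA : ∀ b ∈ B, ∃ a ∈ Subring.closure ((ρ.range : Set K) ∪ T),
      ∃ s ∈ Subring.closure ((ρ.range : Set K) ∪ T), s ≠ 0 ∧ s⁻¹ ∈ B ∧ b = a * s⁻¹)
    (hV : (∃ n, SD R n ρ V) ∨ Dv V (qseq V B)) : GP V B ∧ IsNoetherianRing B := by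
  rcases hV with ⟨n, hn⟩ | hdv
  · have hBA' : B ≤ lo V.toSubring (Subring.closure ((ρ.range : Set K) ∪ T)) := by
      intro b hb
      obtain ⟨a, ha, s, hs, hs0, hsB, rfl⟩ := hBA b hb
      exact ⟨a, ha, s, hs, hs0, hBV hsB, rfl⟩
    refine ⟨(gp_sd hR n V ρ hn T hT (hAB.trans hBV)).loc (hAB.trans hBV) hAB hBA', ?_⟩
    refine (main hR (V := ⊤) ρ hT (B := B) (fun _ _ => trivial) hAB hBA (Or.inl ⟨0, rfl⟩)).2
  · exact main hR ρ hT hBV hAB hBA (Or.inr hdv)

end Pool.Agent.TH188.QS
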