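import Pool.Agent.H59.L.S8.TH188.QS.Down3

/-!
# Preparations for composite valuations
-/

set_option autoImplicit false
set_option linter.unusedVariables false
set_option linter.unusedSectionVars false

universe u v

namespace Pool.Agent.TH188.QS

open IsLocalRing Pool.Agent.W418.LU2

section dim

variable {F : Type u} [Field F]

/-- The local ring as a localization. -/
theorem lo_loc {W B : Subring F} (hW : Loc W) (hB : B ≤ W) : ∃ p : Ideal B, ∃ _ : p.IsPrime,
    (∀ b : B, b ∈ p ↔ NU W (b : F)) ∧ ringKrullDim (lo W B) = p.height := by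
  set P := lo W B with hP
  have hRP : B ≤ P := le_lo _ _
  let _ : Algebra B P := (Subring.inclusion hRP).toAlgebra
  have halg : ∀ a : B, ((algebraMap B P a : P) : F) = a := fun a => rfl
  have hloc : IsLocalRing P := isLocalRing_lo hW hB
  let 𝔭 : Ideal B := (maximalIdeal P).comap (algebraMap B P)
  have hu : ∀ a : B, a ∉ 𝔭 ↔ IsUnit (algebraMap B P a) := by
    intro a
    change ¬ (algebraMap B P a ∈ maximalIdeal P) ↔ _
    rw [mem_maximalIdeal, mem_nonunits_iff, not_not]
  have hprime : 𝔭.IsPrime := Ideal.IsPrime.comap _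
  have hL : IsLocalization.AtPrime P 𝔭 :=
    { map_units := fun y => (hu y.1).1 y.2
      surj := by
        rintro ⟨z, a, ha, b, hb, hb0, hbW, rfl⟩
        refine ⟨(⟨a, ha⟩, ⟨⟨b, hb⟩, ?_⟩), ?_⟩
        · change (⟨b, hb⟩ : B) ∉ 𝔭
          rw [hu, isUnit_lo_iff hB]
          exact ⟨hb0, hbW⟩
        · apply Subtype.ext
          change a * b⁻¹ * b = a
          rw [mul_assoc, inv_mul_cancel₀ hb0, mul_one]
      exists_of_eq := by
        intro a b h
        refine ⟨1, ?_⟩
        have h1 : a = b := Subtype.ext (congrArg (Subtype.val : P → F) h)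
        rw [h1] }
  refine ⟨𝔭, hprime, fun b => ?_, IsLocalization.AtPrime.ringKrullDim_eq_height 𝔭 P⟩
  rw [← not_iff_not, hu, isUnit_lo_iff hB]
  unfold NU
  rw [not_not]
  rfl

/-- The dimension inequality. -/
theorem height_add_quot {R : Type u} [CommRing R] (p : Ideal R) [hp : p.IsPrime] :
    (p.height : WithBot ℕ∞) + ringKrullDim (R ⧸ p) ≤ ringKrullDim R := by
  have hne : Nonempty (PrimeSpectrum R) := ⟨⟨p, hp⟩⟩
  let x : PrimeSpectrum R := ⟨p, hp⟩
  have h1 : ringKrullDim (R ⧸ p) = Order.coheight x := by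
    rw [ringKrullDim_quotient, Order.coheight_eq_krullDim_Ici]
    rfl
  have h2 : p.height = Order.height x := PrimeSpectrum.height_eq_orderHeight x
  rw [h1, h2]
  unfold ringKrullDim
  rw [Order.krullDim_eq_iSup_height_add_coheight_of_nonempty]
  have h3 := le_iSup (fun a : PrimeSpectrum R => Order.height a + Order.coheight a) x
  exact_mod_cast h3

end dim

section params

variable {F : Type u} [Field F] {A P : Subring F} {ι : Type} [Fintype ι] {x : ι → F}

/-- Parameters without units. -/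
theorem norm_params (h : RegP A P x) : ∃ (κ : Type) (_ : Fintype κ) (x' : κ → F),
    RegP A P x' ∧ (∀ i, (x' i)⁻¹ ∉ A) ∧
    (∀ y ∈ P, NU A y → ∃ c : κ → F, (∀ i, c i ∈ P) ∧ y = ∑ i, c i * x' i) ∧
    (∀ g, PMon P x g → PMon P x' g) ∧ ((Fintype.card κ : ℕ) : WithBot ℕ∞) ≤ ringKrullDim P := by
  classical
  obtain ⟨m, w, h1, hf⟩ := RegP.full h
  set y : ι ⊕ Fin m → F := Sum.elim x w with hy
  let κ := {i : ι ⊕ Fin m // (y i)⁻¹ ∉ A}
  have hreg := h1.reg
  let x' : κ → F := fun i => y i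
  have hmem : ∀ i : κ, (⟨y i, h1.mem i⟩ : P) ∈ maximalIdeal P := by
    intro i
    rw [h1.mem_max]
    exact fun h => i.2 h.2
  have hI : Ind (fun i : κ => (⟨y i, h1.mem i⟩ : P)) :=
    h1.ind.ind (Subtype.val : κ → ι ⊕ Fin m) Subtype.val_injective hmem
  have hx' : RegP A P x' :=
    { PA := h1.PA
      ne := fun i => h1.ne i
      mem := fun i => h1.mem i
      reg := hreg
      inv := h1.inv
      ind := IndN.of_ind id Function.injective_id (fun i _ => ⟨i, rfl⟩) hI }
  refine ⟨κ, inferInstance, x', hx', fun i => i.2, ?_, ?_, ?_⟩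
  · intro z hz hn
    obtain ⟨c, hc, hc0, rfl⟩ := hf z hz hn
    refine ⟨fun i => c i, fun i => hc i, ?_⟩
    symm
    refine Fintype.sum_of_injective (Subtype.val : κ → ι ⊕ Fin m) Subtype.val_injective _ _ ?_ ?_
    · intro i hi
      by_cases hci : c i = 0
      · rw [hci, zero_mul]
      · exact absurd ⟨⟨i, hc0 i hci⟩, rfl⟩ hi
    · intro i
      rfl
  · intro g hg
    refine PMon.of_gen hx'.ne le_rfl ?_ hg
    have key : ∀ i, PMon P x' (y i) := by
      intro i
      by_cases hi : (y i)⁻¹ ∈ A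
      · exact PMon.unit (h1.ne i) (h1.mem i) (h1.inv _ (h1.mem i) (h1.ne i) hi)
      · exact PMon.self (P := P) (x := x') ⟨i, hi⟩
    exact fun i => key (Sum.inl i)
  · obtain ⟨m', w', _, hd⟩ := hI.extend
    rw [hd]
    exact_mod_cast Nat.le_add_right _ _

/-- Common denominators in local rings. -/
theorem comden {B : Subring F} (hB : B ≤ A) {z : ι → F} (hz : ∀ i, z i ∈ lo A B) :
    ∃ β ∈ B, β ≠ 0 ∧ β⁻¹ ∈ A ∧ ∀ i, z i * β ∈ B := by
  classical
  choose a ha b hb hb0 hbA hab using hz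
  refine ⟨∏ i, b i, B.prod_mem fun i _ => hb i, Finset.prod_ne_zero_iff.2 fun i _ => hb0 i, ?_, ?_⟩
  · rw [← Finset.prod_inv_distrib]
    exact A.prod_mem fun i _ => hbA i
  · intro i
    have h2 : ∏ i, b i = b i * ∏ k ∈ Finset.univ.erase i, b k :=
      (Finset.mul_prod_erase _ _ (Finset.mem_univ i)).symm
    rw [hab i, h2]
    have h3 := hb0 i
    have h4 : a i * (b i)⁻¹ * (b i * ∏ k ∈ Finset.univ.erase i, b k) =
        a i * ∏ k ∈ Finset.univ.erase i, b k := by
      field_simp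
    rw [h4]
    exact B.mul_mem (ha i) (B.prod_mem fun i _ => hb i)

end params

section fe

variable {K : Type u} [Field K] {V : ValuationSubring K}

/-- `B` is a finitely generated algebra over `A` with common denominator `g`. -/
def Fe (V : ValuationSubring K) (A B : Subring K) (g : K) : Prop :=
  g ∈ A ∧ g ≠ 0 ∧ ∃ T : Set K, T.Finite ∧ (∀ t ∈ T, t ∈ V ∧ t * g ∈ A) ∧
    B = Subring.closure ((A : Set K) ∪ T)

lemma Fe.fg {A B : Subring K} {g : K} (h : Fe V A B g) : Fg V A (lo V.toSubring B) g := by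
  obtain ⟨h1, h2, T, h3, h4, rfl⟩ := h
  exact ⟨h1, h2, T, h3, h4, rfl⟩

lemma Fe.le {A B : Subring K} {g : K} (h : Fe V A B g) : A ≤ B := by
  obtain ⟨h1, h2, T, h3, h4, rfl⟩ := h
  exact fun a ha => Subring.subset_closure (Or.inl ha)

lemma Fe.leV {A B : Subring K} {g : K} (hA : A ≤ V.toSubring) (h : Fe V A B g) :
    B ≤ V.toSubring := by
  obtain ⟨h1, h2, T, h3, h4, rfl⟩ := h
  exact cl_le hA fun t ht => (h4 t ht).1

lemma Fe.noeth {A B : Subring K} {g : K} [IsNoetherianRing A] (h : Fe V A B g) :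
    IsNoetherianRing B := by
  obtain ⟨h1, h2, T, h3, h4, rfl⟩ := h
  exact noeth_cl h3

lemma closure_closure_union (S T : Set K) :
    Subring.closure ((Subring.closure S : Set K) ∪ T) = Subring.closure (S ∪ T) := by
  apply le_antisymm
  · rw [Subring.closure_le]
    rintro z (hz | hz)
    · exact Subring.closure_mono Set.subset_union_left hz
    · exact Subring.subset_closure (Or.inr hz)
  · rw [Subring.closure_le]
    rintro z (hz | hz)
    · exact Subring.subset_closure (Or.inl (Subring.subset_closure hz))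
    · exact Subring.subset_closure (Or.inr hz)

theorem Fe.adjoin {A B : Subring K} {g : K} (h : Fe V A B g) {T' : Set K} (hT' : T'.Finite) {β : K}
    (hβ : β ∈ B) (hβ0 : β ≠ 0) (ht : ∀ t ∈ T', t ∈ V ∧ t * β ∈ B) :
    ∃ k : ℕ, Fe V A (Subring.closure ((B : Set K) ∪ T')) (g ^ k * β) := by
  classical
  obtain ⟨h1, h2, T, h3, h4, rfl⟩ := h
  have hch : ∀ t : K, ∃ k : ℕ, t ∈ T' → ∀ l, k ≤ l → g ^ l * (t * β) ∈ A := by
    intro t
    by_cases htT : t ∈ T'
    · obtain ⟨k, hk⟩ := exists_den h1 (fun t ht => (h4 t ht).2) (ht t htT).2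
      exact ⟨k, fun _ => hk⟩
    · exact ⟨0, fun h => absurd h htT⟩
  choose kt hkt using hch
  obtain ⟨kb, hkb⟩ := exists_den h1 (fun t ht => (h4 t ht).2) hβ
  let k := (hT'.toFinset.sup kt) ⊔ kb
  have hk1 : ∀ t ∈ T', g ^ k * (t * β) ∈ A := fun t ht => hkt t ht k
    (le_trans (Finset.le_sup (hT'.mem_toFinset.2 ht)) le_sup_left)
  have hk2 : g ^ k * β ∈ A := hkb k le_sup_right
  refine ⟨k + 1, ?_, mul_ne_zero (pow_ne_zero _ h2) hβ0, T ∪ T', h3.union hT', ?_, ?_⟩
  · have e : g ^ (k + 1) * β = g * (g ^ k * β) := by ring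
    rw [e]
    exact A.mul_mem h1 hk2
  · rintro t (htT | htT)
    · refine ⟨(h4 t htT).1, ?_⟩
      have e : t * (g ^ (k + 1) * β) = (t * g) * (g ^ k * β) := by ring
      rw [e]
      exact A.mul_mem (h4 t htT).2 hk2
    · refine ⟨(ht t htT).1, ?_⟩
      have e : t * (g ^ (k + 1) * β) = g * (g ^ k * (t * β)) := by ring
      rw [e]
      exact A.mul_mem h1 (hk1 t htT)
  · rw [closure_closure_union, Set.union_assoc]

/-- Passing to a smaller valuation ring. -/
theorem Fg.descend {V₁ : ValuationSubring K} (hVV : V ≤ V₁) {A P : Subring K}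
    (hA : A ≤ V.toSubring) {g : K} (h : Fg V₁ A P g) {ι : Type} [Fintype ι] {x : ι → K}
    (hreg : RegP V₁.toSubring P x) (hg : PMon P x g) :
    ∃ (B : Subring K) (g' : K), Fe V A B g' ∧ lo V₁.toSubring B = P ∧ PMon P x g' := by
  classical
  obtain ⟨h1, h2, T, h3, h4, rfl⟩ := h
  have hTV₁ : Subring.closure ((A : Set K) ∪ T) ≤ V₁.toSubring :=
    cl_le (fun a ha => hVV (hA ha)) fun t ht => (h4 t ht).1
  set P := lo V₁.toSubring (Subring.closure ((A : Set K) ∪ T)) with hP
  have hTP : ∀ t ∈ T, t ∈ P := fun t ht => le_lo _ _ (Subring.subset_closure (Or.inr ht))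
  let N : Set K := {t | t ∈ T ∧ t ∉ V}
  have hNf : N.Finite := h3.subset fun t ht => ht.1
  have hN : ∀ t ∈ N, t ≠ 0 ∧ t⁻¹ ∈ V := by
    rintro t ⟨ht, htV⟩
    refine ⟨fun h0 => htV (by rw [h0]; exact V.zero_mem), ?_⟩
    exact (V.mem_or_inv_mem t).resolve_left htV
  let T' : Set K := {t | t ∈ T ∧ t ∈ V} ∪ (fun t => t⁻¹) '' N
  let g' : K := g * ∏ t ∈ hNf.toFinset, (t * g)
  have hgt : ∀ t ∈ N, t * g ∈ A := fun t ht => (h4 t ht.1).2
  have hT'V : ∀ t ∈ T', t ∈ V := by
    rintro t (ht | ⟨s, hs, rfl⟩)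
    · exact ht.2
    · exact (hN s hs).2
  have hBV : Subring.closure ((A : Set K) ∪ T') ≤ V.toSubring := cl_le hA hT'V
  refine ⟨Subring.closure ((A : Set K) ∪ T'), g', ⟨?_, ?_, T', ?_, ?_, rfl⟩, ?_, ?_⟩
  · exact A.mul_mem h1 (A.prod_mem fun t ht => hgt t (hNf.mem_toFinset.1 ht))
  · exact mul_ne_zero h2 (Finset.prod_ne_zero_iff.2 fun t ht =>
      mul_ne_zero (hN t (hNf.mem_toFinset.1 ht)).1 h2)
  · exact (h3.subset fun t ht => ht.1).union (hNf.image _)
  · rintro t (ht | ⟨s, hs, rfl⟩)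
    · refine ⟨ht.2, ?_⟩
      change t * (g * ∏ t ∈ hNf.toFinset, (t * g)) ∈ A
      rw [← mul_assoc]
      exact A.mul_mem (h4 t ht.1).2 (A.prod_mem fun t ht => hgt t (hNf.mem_toFinset.1 ht))
    · refine ⟨(hN s hs).2, ?_⟩
      change s⁻¹ * (g * ∏ t ∈ hNf.toFinset, (t * g)) ∈ A
      rw [← Finset.mul_prod_erase _ _ (hNf.mem_toFinset.2 hs)]
      have hs0 := (hN s hs).1
      have e : s⁻¹ * (g * (s * g * ∏ t ∈ hNf.toFinset.erase s, (t * g))) =
          g * (g * ∏ t ∈ hNf.toFinset.erase s, (t * g)) := by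
        field_simp
      rw [e]
      refine A.mul_mem h1 (A.mul_mem h1 (A.prod_mem fun t ht => hgt t ?_))
      exact hNf.mem_toFinset.1 (Finset.mem_of_mem_erase ht)
  · apply le_antisymm
    · refine lo_le_lo hTV₁ ?_
      rw [← hP, Subring.closure_le]
      rintro z (hz | hz | ⟨s, hs, rfl⟩)
      · exact le_lo _ _ (Subring.subset_closure (Or.inl hz))
      · exact hTP z hz.1
      · exact inv_mem_lo hTV₁ (hTP s hs.1) (hN s hs).1 (hVV (hN s hs).2)
    · refine lo_le_lo (hBV.trans hVV) ?_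
      rw [Subring.closure_le]
      rintro z (hz | hz)
      · exact le_lo _ _ (Subring.subset_closure (Or.inl hz))
      · by_cases hzV : z ∈ V
        · exact le_lo _ _ (Subring.subset_closure (Or.inr (Or.inl ⟨hz, hzV⟩)))
        · have hzN : z ∈ N := ⟨hz, hzV⟩
          have h5 : z⁻¹ ∈ lo V₁.toSubring (Subring.closure ((A : Set K) ∪ T')) :=
            le_lo _ _ (Subring.subset_closure (Or.inr (Or.inr ⟨z, hzN, rfl⟩)))
          have h6 := inv_mem_lo (hBV.trans hVV) h5 (inv_ne_zero (hN z hzN).1) (by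
            rw [inv_inv]
            exact (h4 z hz).1)
          rwa [inv_inv] at h6
  · refine hg.mul hreg.ne (PMon.prod hreg.ne _ fun t ht => ?_)
    have htN := hNf.mem_toFinset.1 ht
    refine PMon.mul hreg.ne (PMon.unit (hN t htN).1 (hTP t htN.1) ?_) hg
    exact hreg.inv t (hTP t htN.1) (hN t htN).1 (hVV (hN t htN).2)

/-- Adjoining elements of the centre. -/
theorem adjoin_centre {B : Subring K} {ι : Type} [Fintype ι] {x : ι → K} {V₁ : ValuationSubring K}
    (hBV : B ≤ V₁.toSubring) (hx : ∀ i, V₁.valuation (x i) < 1)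
    (hgen : ∀ z ∈ B, V₁.valuation z < 1 → ∃ c : ι → K,
      (∀ i, c i ∈ Subring.closure ((B : Set K) ∪ Set.range x)) ∧ z = ∑ i, c i * x i) :
    ∀ z ∈ Subring.closure ((B : Set K) ∪ Set.range x), V₁.valuation z < 1 → ∃ c : ι → K,
      (∀ i, c i ∈ Subring.closure ((B : Set K) ∪ Set.range x)) ∧ z = ∑ i, c i * x i := by
  classical
  set B' := Subring.closure ((B : Set K) ∪ Set.range x) with hB'
  have hBB' : B ≤ B' := fun b hb => Subring.subset_closure (Or.inl hb)
  have hxB' : ∀ i, x i ∈ B' := fun i => Subring.subset_closure (Or.inr ⟨i, rfl⟩)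
  -- all elements are congruent to elements of `B`
  have key : ∀ z ∈ B', ∃ b ∈ B, ∃ c : ι → K, (∀ i, c i ∈ B') ∧ z = b + ∑ i, c i * x i := by
    intro z hz
    rw [hB'] at hz
    induction hz using Subring.closure_induction with
    | mem z hz =>
      rcases hz with hz | ⟨i, rfl⟩
      · exact ⟨z, hz, fun _ => 0, fun _ => B'.zero_mem, by simp⟩
      · refine ⟨0, B.zero_mem, Pi.single i 1, fun j => ?_, ?_⟩
        · by_cases hij : j = i
          · subst hij
            rw [Pi.single_eq_same]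
            exact B'.one_mem
          · rw [Pi.single_eq_of_ne hij]
            exact B'.zero_mem
        · rw [zero_add, Finset.sum_eq_single i]
          · rw [Pi.single_eq_same, one_mul]
          · intro j _ hj
            rw [Pi.single_eq_of_ne hj, zero_mul]
          · intro h; exact absurd (Finset.mem_univ _) h
    | zero => exact ⟨0, B.zero_mem, fun _ => 0, fun _ => B'.zero_mem, by simp⟩
    | one => exact ⟨1, B.one_mem, fun _ => 0, fun _ => B'.zero_mem, by simp⟩
    | add z z' _ _ ih ih' =>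
      obtain ⟨b, hb, c, hc, rfl⟩ := ih
      obtain ⟨b', hb', c', hc', rfl⟩ := ih'
      refine ⟨b + b', B.add_mem hb hb', fun i => c i + c' i, fun i => B'.add_mem (hc i) (hc' i), ?_⟩
      simp_rw [add_mul]
      rw [Finset.sum_add_distrib]
      ring
    | neg z _ ih =>
      obtain ⟨b, hb, c, hc, rfl⟩ := ih
      refine ⟨-b, B.neg_mem hb, fun i => -c i, fun i => B'.neg_mem (hc i), ?_⟩
      simp_rw [neg_mul]
      rw [Finset.sum_neg_distrib]
      ring
    | mul z z' hz hz' ih ih' =>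
      obtain ⟨b, hb, c, hc, hzc⟩ := ih
      obtain ⟨b', hb', c', hc', hzc'⟩ := ih'
      refine ⟨b * b', B.mul_mem hb hb', fun i => b * c' i + c i * z', fun i => ?_, ?_⟩
      · exact B'.add_mem (B'.mul_mem (hBB' hb) (hc' i)) (B'.mul_mem (hc i) hz')
      · have h1 : ∑ i, (b * c' i + c i * z') * x i = b * ∑ i, c' i * x i + z' * ∑ i, c i * x i := by
          rw [Finset.mul_sum, Finset.mul_sum, ← Finset.sum_add_distrib]
          exact Finset.sum_congr rfl fun i _ => by ring
        rw [h1]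
        have h2 : ∑ i, c' i * x i = z' - b' := by rw [hzc']; ring
        have h3 : ∑ i, c i * x i = z - b := by rw [hzc]; ring
        rw [h2, h3]
        ring
  intro z hz hv
  obtain ⟨b, hb, c, hc, hzc⟩ := key z hz
  have hsum : V₁.valuation (∑ i, c i * x i) < 1 := by
    have hB'V : B' ≤ V₁.toSubring := cl_le hBV fun t ht => by
      obtain ⟨i, rfl⟩ := ht
      exact (V₁.valuation_le_one_iff _).1 (hx i).le
    refine V₁.valuation.map_sum_lt one_ne_zero fun i _ => ?_
    rw [map_mul]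
    have h1 := (V₁.valuation_le_one_iff _).2 (hB'V (hc i))
    calc V₁.valuation (c i) * V₁.valuation (x i) ≤ 1 * V₁.valuation (x i) :=
          mul_le_mul_left h1 _
      _ = V₁.valuation (x i) := one_mul _
      _ < 1 := hx i
  have hbv : V₁.valuation b < 1 := by
    have h1 : b = z - ∑ i, c i * x i := by rw [hzc]; ring
    rw [h1]
    exact lt_of_le_of_lt (V₁.valuation.map_sub _ _) (max_lt hv hsum)
  obtain ⟨c', hc', hbc⟩ := hgen b hb hbv
  refine ⟨fun i => c' i + c i, fun i => B'.add_mem (hc' i) (hc i), ?_⟩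
  rw [hzc, hbc, ← Finset.sum_add_distrib]
  exact Finset.sum_congr rfl fun i _ => by ring

end fe

end Pool.Agent.TH188.QS
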