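import Pool.Agent.H59.L.S8.TH188.QS.Down3

/-!
# Derivations along a place
-/

set_option autoImplicit false
set_option linter.unusedVariables false
set_option linter.unusedSectionVars false

universe u v

namespace Pool.Agent.TH188.QS

open IsLocalRing Pool.Agent.W418.LU2

/-- `D` is a derivation of `S` into `K`, where `S` acts on `K` by `φ`. -/
structure Der {S K : Type u} [CommRing S] [Field K] (φ : S →+* K) (D : S → K) : Prop where
  add : ∀ a b, D (a + b) = D a + D b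
  mul : ∀ a b, D (a * b) = φ a * D b + φ b * D a

section jet

variable {S F K : Type u} [CommRing S] [IsDomain S] [Field F] [Algebra S F] [IsFractionRing S F]
  [Field K] {φ : S →+* K} {D : S → K}

/-- The first order jets. -/
def JP (φ : S →+* K) (D : S → K) (z : F) (w δ : K) : Prop :=
  ∃ a b : S, φ b ≠ 0 ∧ z * algebraMap S F b = algebraMap S F a ∧ w * φ b = φ a ∧
    δ * φ b = D a - w * D b

lemma JP.pr {z : F} {w δ : K} (h : JP φ D z w δ) : Pr φ z w := by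
  obtain ⟨a, b, h1, h2, h3, -⟩ := h
  exact ⟨a, b, h1, h2, h3⟩

lemma Pr.jp (D : S → K) {z : F} {w : K} (h : Pr φ z w) : ∃ δ, JP φ D z w δ := by
  obtain ⟨a, b, h1, h2, h3⟩ := h
  refine ⟨(D a - w * D b) / φ b, a, b, h1, h2, h3, ?_⟩
  rw [div_mul_cancel₀ _ h1]

lemma JP.unique (hD : Der φ D) {z : F} {w w' δ δ' : K} (h : JP φ D z w δ) (h' : JP φ D z w' δ') :
    δ = δ' := by
  have hw : w = w' := h.pr.unique h'.pr
  subst hw
  obtain ⟨a, b, hb, h1, h2, h3⟩ := h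
  obtain ⟨a', b', hb', h4, h5, h6⟩ := h'
  have h7 : a * b' = a' * b := by
    apply IsFractionRing.injective S F
    rw [map_mul, map_mul, ← h1, ← h4]
    ring
  have h8 := congrArg D h7
  rw [hD.mul, hD.mul] at h8
  apply mul_right_cancel₀ (mul_ne_zero hb hb')
  linear_combination φ b' * h3 - φ b * h6 + h8 + D b' * h2 - D b * h5

open Classical in
/-- The value of the derivation. -/
noncomputable def dd (φ : S →+* K) (D : S → K) (z : F) : K :=
  if h : ∃ w δ, JP φ D z w δ then h.choose_spec.choose else 0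

lemma JP.dd (hD : Der φ D) {z : F} {w δ : K} (h : JP φ D z w δ) : dd φ D z = δ := by
  have h1 : ∃ w δ, JP φ D z w δ := ⟨w, δ, h⟩
  unfold Pool.Agent.TH188.QS.dd
  rw [dif_pos h1]
  exact h1.choose_spec.choose_spec.unique hD h

lemma Pr.jp_dd (hD : Der φ D) {z : F} {w : K} (h : Pr φ z w) : JP φ D z w (dd φ D z) := by
  obtain ⟨δ, hδ⟩ := Pr.jp D h
  rwa [hδ.dd hD]

lemma dd_alg (hD : Der φ D) (a : S) : dd φ D (algebraMap S F a) = D a := by
  refine JP.dd hD (w := φ a) ⟨a, 1, by rw [map_one]; exact one_ne_zero, by rw [map_one, mul_one],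
    by rw [map_one, mul_one], ?_⟩
  have h1 := hD.mul 1 1
  rw [map_one, mul_one, one_mul] at h1
  have h2 : D 1 = 0 := by linear_combination -h1
  rw [map_one, h2, mul_zero, sub_zero, mul_one]

lemma dd_add (hD : Der φ D) {z z' : F} {w w' : K} (h : Pr φ z w) (h' : Pr φ z' w') :
    dd φ D (z + z') = dd φ D z + dd φ D z' := by
  obtain ⟨a, b, hb, h1, h2, h3⟩ := Pr.jp_dd hD h
  obtain ⟨a', b', hb', h4, h5, h6⟩ := Pr.jp_dd hD h'
  refine JP.dd hD (w := w + w') ⟨a * b' + a' * b, b * b', by rw [map_mul]; exact mul_ne_zero hb hb',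
    ?_, ?_, ?_⟩
  · rw [map_add, map_mul, map_mul, map_mul, ← h1, ← h4]; ring
  · rw [map_add, map_mul, map_mul, map_mul, ← h2, ← h5]; ring
  · rw [hD.add, hD.mul, hD.mul, hD.mul, map_mul]
    linear_combination φ b' * h3 + φ b * h6 + D b' * h2 + D b * h5

lemma dd_mul (hD : Der φ D) {z z' : F} {w w' : K} (h : Pr φ z w) (h' : Pr φ z' w') :
    dd φ D (z * z') = w * dd φ D z' + w' * dd φ D z := by
  obtain ⟨a, b, hb, h1, h2, h3⟩ := Pr.jp_dd hD h
  obtain ⟨a', b', hb', h4, h5, h6⟩ := Pr.jp_dd hD h'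
  refine JP.dd hD (w := w * w') ⟨a * a', b * b', by rw [map_mul]; exact mul_ne_zero hb hb',
    ?_, ?_, ?_⟩
  · rw [map_mul, map_mul, ← h1, ← h4]; ring
  · rw [map_mul, map_mul, ← h2, ← h5]; ring
  · rw [hD.mul, hD.mul, map_mul]
    linear_combination w' * φ b' * h3 + w * φ b * h6 + D a * h5 + D a' * h2

lemma dd_zero (hD : Der φ D) : dd φ D (0 : F) = 0 := by
  have h := dd_add hD (F := F) Pr.zero Pr.zero
  rw [add_zero] at h
  linear_combination -h

lemma dd_one (hD : Der φ D) : dd φ D (1 : F) = 0 := by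
  have h := dd_mul hD (F := F) Pr.one Pr.one
  rw [mul_one, one_mul] at h
  linear_combination -h

lemma dd_neg (hD : Der φ D) {z : F} {w : K} (h : Pr φ z w) : dd φ D (-z) = -dd φ D z := by
  have h1 := dd_add hD h h.neg
  rw [add_neg_cancel, dd_zero hD] at h1
  linear_combination -h1

lemma dd_inv (hD : Der φ D) {z : F} {w : K} (h : Pr φ z w) (hw : w ≠ 0) :
    dd φ D z⁻¹ = -(w⁻¹ * w⁻¹ * dd φ D z) := by
  have h1 := dd_mul hD h (h.inv hw)
  rw [mul_inv_cancel₀ (h.ne_zero hw), dd_one hD] at h1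
  have h2 : w * dd φ D z⁻¹ = -(w⁻¹ * dd φ D z) := by linear_combination -h1
  rw [← inv_mul_cancel_left₀ hw (dd φ D z⁻¹), h2]
  ring

lemma dd_sum (hD : Der φ D) {ι : Type} (s : Finset ι) {z : ι → F} {w : ι → K}
    (h : ∀ i ∈ s, Pr φ (z i) (w i)) : dd φ D (∑ i ∈ s, z i) = ∑ i ∈ s, dd φ D (z i) := by
  classical
  induction s using Finset.induction_on with
  | empty => simpa using dd_zero hD
  | insert a s ha ih =>
    rw [Finset.sum_insert ha, Finset.sum_insert ha, dd_add hD (h a (Finset.mem_insert_self _ _))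
      (Pr.sum s fun i hi => h i (Finset.mem_insert_of_mem hi)),
      ih fun i hi => h i (Finset.mem_insert_of_mem hi)]

/-- The subring of elements with bounded derivatives. -/
noncomputable def BB (F : Type u) [Field F] [Algebra S F] [IsFractionRing S F] (V : ValuationSubring K)
    (hD : Der φ D) (C : K) : Subring F where
  carrier := {z | ∃ w ∈ V, Pr φ z w ∧ C * dd φ D z ∈ V}
  mul_mem' := by
    rintro z z' ⟨w, hw, h, h1⟩ ⟨w', hw', h', h1'⟩
    refine ⟨_, V.mul_mem _ _ hw hw', h.mul h', ?_⟩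
    rw [dd_mul hD h h']
    have h2 : C * (w * dd φ D z' + w' * dd φ D z) = w * (C * dd φ D z') + w' * (C * dd φ D z) := by
      ring
    rw [h2]
    exact V.add_mem _ _ (V.mul_mem _ _ hw h1') (V.mul_mem _ _ hw' h1)
  one_mem' := ⟨1, V.one_mem, Pr.one, by rw [dd_one hD, mul_zero]; exact V.zero_mem⟩
  add_mem' := by
    rintro z z' ⟨w, hw, h, h1⟩ ⟨w', hw', h', h1'⟩
    refine ⟨_, V.add_mem _ _ hw hw', h.add h', ?_⟩
    rw [dd_add hD h h', mul_add]
    exact V.add_mem _ _ h1 h1'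
  zero_mem' := ⟨0, V.zero_mem, Pr.zero, by rw [dd_zero hD, mul_zero]; exact V.zero_mem⟩
  neg_mem' := by
    rintro z ⟨w, hw, h, h1⟩
    refine ⟨_, V.neg_mem _ hw, h.neg, ?_⟩
    rw [dd_neg hD h, mul_neg]
    exact V.neg_mem _ h1

variable {V : ValuationSubring K}

lemma mem_BB (hD : Der φ D) {C : K} {z : F} : z ∈ BB F V hD C ↔
    ∃ w ∈ V, Pr φ z w ∧ C * dd φ D z ∈ V := Iff.rfl

lemma lo_le_BB (hD : Der φ D) {C : K} {B : Subring F} (hB : B ≤ BB F V hD C) :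
    lo (AA F φ V) B ≤ BB F V hD C := by
  rintro _ ⟨a, ha, b, hb, hb0, hbA, rfl⟩
  refine (BB F V hD C).mul_mem (hB ha) ?_
  obtain ⟨w, hw, h, h1⟩ := hB hb
  obtain ⟨w', hw', h'⟩ := hbA
  have h2 : w * w' = 1 := by
    have h3 := h.mul h'
    rw [mul_inv_cancel₀ hb0] at h3
    exact h3.unique Pr.one
  have hw0 : w ≠ 0 := left_ne_zero_of_mul_eq_one h2
  have hwi : w⁻¹ = w' := (eq_inv_of_mul_eq_one_right h2).symm
  refine ⟨w', hw', h', ?_⟩
  rw [dd_inv hD h hw0, hwi]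
  have h3 : C * -(w' * w' * dd φ D b) = -(w' * w' * (C * dd φ D b)) := by ring
  rw [h3]
  exact V.neg_mem _ (V.mul_mem _ _ (V.mul_mem _ _ hw' hw') h1)

variable (φ)

/-- The values of the elements of `P`. -/
def im (P : Subring F) : Subring K where
  carrier := {w | ∃ z ∈ P, Pr φ z w}
  mul_mem' := by
    rintro w w' ⟨z, hz, h⟩ ⟨z', hz', h'⟩
    exact ⟨_, P.mul_mem hz hz', h.mul h'⟩
  one_mem' := ⟨1, P.one_mem, Pr.one⟩
  add_mem' := by
    rintro w w' ⟨z, hz, h⟩ ⟨z', hz', h'⟩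
    exact ⟨_, P.add_mem hz hz', h.add h'⟩
  zero_mem' := ⟨0, P.zero_mem, Pr.zero⟩
  neg_mem' := by
    rintro w ⟨z, hz, h⟩
    exact ⟨_, P.neg_mem hz, h.neg⟩

variable {φ}

lemma mem_im {P : Subring F} {w : K} : w ∈ im φ P ↔ ∃ z ∈ P, Pr φ z w := Iff.rfl

lemma im_mono {P P' : Subring F} (h : P ≤ P') : im φ P ≤ im φ P' := by
  rintro w ⟨z, hz, h1⟩
  exact ⟨z, h hz, h1⟩

lemma Pr.inv_AA {z : F} {w : K} (h : Pr φ z w) : z ≠ 0 ∧ z⁻¹ ∈ AA F φ V ↔ w ≠ 0 ∧ w⁻¹ ∈ V := by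
  constructor
  · rintro ⟨h0, w', hw', h'⟩
    have h2 : w * w' = 1 := by
      have h3 := h.mul h'
      rw [mul_inv_cancel₀ h0] at h3
      exact h3.unique Pr.one
    refine ⟨left_ne_zero_of_mul_eq_one h2, ?_⟩
    rwa [← eq_inv_of_mul_eq_one_right h2]
  · rintro ⟨h0, h1⟩
    exact ⟨h.ne_zero h0, w⁻¹, h1, h.inv h0⟩

lemma Pr.nu {z : F} {w : K} (h : Pr φ z w) : NU (AA F φ V) z ↔ NU V.toSubring w := by
  unfold NU
  rw [Pr.inv_AA h]
  rfl

lemma im_lo {B : Subring F} (hB : B ≤ AA F φ V) :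
    im φ (lo (AA F φ V) B) = lo V.toSubring (im φ B) := by
  apply le_antisymm
  · rintro w ⟨_, ⟨a, ha, b, hb, hb0, hbA, rfl⟩, hw⟩
    obtain ⟨wa, hwa, ha'⟩ := hB ha
    obtain ⟨wb, hwb, hb'⟩ := hB hb
    obtain ⟨h1, h2⟩ := (Pr.inv_AA hb').1 ⟨hb0, hbA⟩
    refine ⟨wa, ⟨a, ha, ha'⟩, wb, ⟨b, hb, hb'⟩, h1, h2, ?_⟩
    exact hw.unique (ha'.mul (hb'.inv h1))
  · rintro _ ⟨wa, ⟨a, ha, ha'⟩, wb, ⟨b, hb, hb'⟩, h1, h2, rfl⟩
    obtain ⟨h3, h4⟩ := (Pr.inv_AA (V := V) hb').2 ⟨h1, h2⟩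
    exact ⟨a * b⁻¹, ⟨a, ha, b, hb, h3, h4, rfl⟩, ha'.mul (hb'.inv h1)⟩

/-- Lifting of elements of minimal value. -/
lemma Mi.lift {P : Subring F} (hP : P ≤ AA F φ V) {e : K} {z : F} (he : Mi V.toSubring (im φ P) e)
    (hz : z ∈ P) (h : Pr φ z e) : Mi (AA F φ V) P z where
  mem := hz
  ne := h.ne_zero he.ne
  nu := by
    intro h1
    exact he.nu ((Pr.inv_AA h).1 ⟨h.ne_zero he.ne, h1⟩).2
  min := by
    intro y hy hyn
    obtain ⟨w, hw, hyw⟩ := hP hy
    have h1 := he.min w ⟨y, hy, hyw⟩ ((Pr.nu hyw).1 hyn)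
    exact ⟨w * e⁻¹, h1, hyw.mul (h.inv he.ne)⟩

/-- The values of the elements of the quadratic transform. -/
theorem im_qt {P : Subring F} (hP : P ≤ AA F φ V) {e : K} {z : F}
    (he : Mi V.toSubring (im φ P) e) (hz : z ∈ P) (h : Pr φ z e) :
    im φ (qt (AA F φ V) P) = qt V.toSubring (im φ P) := by
  have hM := he.lift hP hz h
  have hPV : im φ P ≤ V.toSubring := by
    rintro w ⟨y, hy, hw⟩
    exact (hw.mem_AA).1 (hP hy)
  rw [qt_eq hP hM, qt_eq hPV he]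
  unfold QP
  rw [im_lo (qcl_le hP hM)]
  congr 1
  apply le_antisymm
  · -- the subring of elements with values in the closure
    let R : Subring F :=
      { carrier := {y | ∃ w ∈ Subring.closure ((im φ P : Set K) ∪
          {t | ∃ y ∈ im φ P, NU V.toSubring y ∧ t = y * e⁻¹}), Pr φ y w}
        mul_mem' := by
          rintro z z' ⟨w, hw, h⟩ ⟨w', hw', h'⟩
          exact ⟨_, Subring.mul_mem _ hw hw', h.mul h'⟩
        one_mem' := ⟨1, Subring.one_mem _, Pr.one⟩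
        add_mem' := by
          rintro z z' ⟨w, hw, h⟩ ⟨w', hw', h'⟩
          exact ⟨_, Subring.add_mem _ hw hw', h.add h'⟩
        zero_mem' := ⟨0, Subring.zero_mem _, Pr.zero⟩
        neg_mem' := by
          rintro z ⟨w, hw, h⟩
          exact ⟨_, Subring.neg_mem _ hw, h.neg⟩ }
    have hR : Subring.closure ((P : Set F) ∪ {t | ∃ y ∈ P, NU (AA F φ V) y ∧ t = y * z⁻¹}) ≤ R := by
      rw [Subring.closure_le]
      rintro t (ht | ⟨y, hy, hyn, rfl⟩)
      · obtain ⟨w, hw, h1⟩ := hP ht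
        exact ⟨w, Subring.subset_closure (Or.inl ⟨t, ht, h1⟩), h1⟩
      · obtain ⟨w, hw, h1⟩ := hP hy
        exact ⟨w * e⁻¹, Subring.subset_closure (Or.inr ⟨w, ⟨y, hy, h1⟩, (Pr.nu h1).1 hyn, rfl⟩),
          h1.mul (h.inv he.ne)⟩
    rintro w ⟨y, hy, hyw⟩
    obtain ⟨w', hw', h1⟩ := hR hy
    rwa [hyw.unique h1]
  · rw [Subring.closure_le]
    rintro t (⟨y, hy, hyt⟩ | ⟨w, ⟨y, hy, hyw⟩, hwn, rfl⟩)
    · exact ⟨y, Subring.subset_closure (Or.inl hy), hyt⟩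
    · exact ⟨y * z⁻¹, Subring.subset_closure (Or.inr ⟨y, hy, (Pr.nu hyw).2 hwn, rfl⟩),
        hyw.mul (h.inv he.ne)⟩

end jet

end Pool.Agent.TH188.QS
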