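import Pool.Agent.H59.L.S8.TH188.QS.Comp
import Pool.Agent.H59.L.S8.TH188.QS.Jet

/-!
# Composite valuations, first part
-/

set_option autoImplicit false
set_option linter.unusedVariables false
set_option linter.unusedSectionVars false

universe u v

namespace Pool.Agent.TH188.QS

open IsLocalRing Pool.Agent.W418.LU2

variable {K : Type u} [Field K]

/-- `h` is a unit times a monomial whenever this holds for the elements of `C` and the `x i`. -/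
def Gn (C : Set K) {ι : Type} (x : ι → K) (h : K) : Prop :=
  ∀ (P : Subring K) (κ : Type) (_ : Fintype κ) (Y : κ → K), (∀ i, Y i ≠ 0) →
    (∀ s ∈ C, PMon P Y s) → (∀ i, PMon P Y (x i)) → PMon P Y h

section gn

variable {C : Set K} {ι : Type} {x : ι → K}

lemma Gn.of_C {h : K} (hh : h ∈ C) : Gn C x h := fun P κ _ Y hY hC hx => hC h hh

lemma Gn.of_x (i : ι) : Gn C x (x i) := fun P κ _ Y hY hC hx => hx i

lemma Gn.mul {h h' : K} (H : Gn C x h) (H' : Gn C x h') : Gn C x (h * h') :=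
  fun P κ _ Y hY hC hx => (H P κ _ Y hY hC hx).mul hY (H' P κ _ Y hY hC hx)

lemma Gn.inv {h : K} (H : Gn C x h) : Gn C x h⁻¹ :=
  fun P κ _ Y hY hC hx => (H P κ _ Y hY hC hx).inv

lemma Gn.pow {h : K} (H : Gn C x h) (n : ℕ) : Gn C x (h ^ n) :=
  fun P κ _ Y hY hC hx => PMon.pow hY (H P κ _ Y hY hC hx) n

lemma Gn.mo {μ : Type} [Fintype μ] {w : μ → K} (H : ∀ i, Gn C x (w i)) (δ : μ → ℤ) :
    Gn C x (Pool.Agent.W418.LU2.mo w δ) :=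
  fun P κ _ Y hY hC hx => PMon.prod hY _ fun i _ => PMon.zpow hY (H i P κ _ Y hY hC hx) _

end gn

/-- The data for the first step. -/
theorem comp_one {V V₁ : ValuationSubring K} (hVV : V ≤ V₁)
    (hmV : ∀ z, V₁.valuation z < 1 → z ∈ V) {A : Subring K} (hA : A ≤ V.toSubring)
    [IsNoetherianRing A] (h₁ : GP V₁ A) {G H : Set K} (hGf : G.Finite) (hHf : H.Finite)
    (hG : ∀ h ∈ G, h ≠ 0 ∧ Fr A h) (hH : ∀ h ∈ H, h ∈ V ∧ Fr A h) :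
    ∃ (ι : Type) (_ : Fintype ι) (x : ι → K) (B : Subring K) (g : K) (C : Set K),
      Fe V A B g ∧ (∀ i, x i ∈ B ∧ V₁.valuation (x i) < 1 ∧ x i ≠ 0) ∧
      (∀ z ∈ B, V₁.valuation z < 1 → ∃ c : ι → K, (∀ i, c i ∈ B) ∧ z = ∑ i, c i * x i) ∧
      ((Fintype.card ι : ℕ) : WithBot ℕ∞) ≤ ringKrullDim (lo V₁.toSubring B) ∧
      C.Finite ∧ (∀ s ∈ C, s ∈ B ∧ s ≠ 0 ∧ s⁻¹ ∈ V₁) ∧ Gn C x g ∧ (∀ h ∈ G, Gn C x h) ∧
      ∀ h ∈ H, ∃ a ∈ B, ∃ b ∈ C, h = a * b⁻¹ := by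
  classical
  have hA₁ : A ≤ V₁.toSubring := fun a ha => hVV (hA ha)
  obtain ⟨ι₀, _, x₀, P₁, g₁, hreg₀, hFg₁, hg₁, hGm₀, hHm⟩ := h₁ G H hGf hHf hG
    (fun h hh => ⟨hVV (hH h hh).1, (hH h hh).2⟩)
  obtain ⟨ι, _, x, hreg, hxn, hgen₁, hpm, hdim₁⟩ := norm_params hreg₀
  obtain ⟨A₂, g₂, hFe₂, hP₁, hg₂⟩ := hFg₁.descend hVV hA hreg (hpm _ hg₁)
  have hA₂V : A₂ ≤ V.toSubring := hFe₂.leV hA
  have hA₂V₁ : A₂ ≤ V₁.toSubring := fun a ha => hVV (hA₂V ha)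
  have hnoe := hFe₂.noeth
  have hxP : ∀ i, x i ∈ lo V₁.toSubring A₂ := fun i => by rw [hP₁]; exact hreg.mem i
  obtain ⟨β, hβ, hβ0, hβV, hxβ⟩ := comden hA₂V₁ hxP
  -- the generators of the centre
  obtain ⟨n, z, hz, hzv, hzgen⟩ := exists_nu_gen (V := V₁) hA₂V₁
  have hzP : ∀ k, ∃ c : ι → K, (∀ i, c i ∈ P₁) ∧ z k = ∑ i, c i * x i := fun k =>
    hgen₁ (z k) (by rw [← hP₁]; exact le_lo _ _ (hz k)) (nu_iff.2 (hzv k))
  choose c hcP hzc using hzP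
  obtain ⟨γ, hγ, hγ0, hγV, hcγ⟩ := comden (ι := Fin n × ι) (z := fun q => c q.1 q.2) hA₂V₁
    (fun q => by rw [hP₁]; exact hcP q.1 q.2)
  have hxv : ∀ i, V₁.valuation (x i) < 1 := fun i => nu_iff.1 fun h => hxn i h.2
  have hγv : V₁.valuation γ = 1 := by
    apply le_antisymm ((V₁.valuation_le_one_iff _).2 (hA₂V₁ hγ))
    have h1 : γ⁻¹ ∈ V₁ := hγV
    rw [← V₁.valuation_le_one_iff, map_inv₀] at h1
    exact (inv_le_one₀ (zero_lt_iff.2 ((map_ne_zero _).2 hγ0))).1 h1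
  let x' : ι → K := fun i => x i * γ⁻¹
  have hx'v : ∀ i, V₁.valuation (x' i) < 1 := by
    intro i
    change V₁.valuation (x i * γ⁻¹) < 1
    rw [map_mul, map_inv₀, hγv, inv_one, mul_one]
    exact hxv i
  have hx'0 : ∀ i, x' i ≠ 0 := fun i => mul_ne_zero (hreg.ne i) (inv_ne_zero hγ0)
  have hxx' : ∀ i, x i = x' i * γ := fun i => (inv_mul_cancel_right₀ hγ0 _).symm
  obtain ⟨k₃, hFe₃⟩ := hFe₂.adjoin (T' := Set.range x') (Set.finite_range _)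
    (A₂.mul_mem hβ hγ) (mul_ne_zero hβ0 hγ0) (by
      rintro _ ⟨i, rfl⟩
      refine ⟨hmV _ (hx'v i), ?_⟩
      have e : x' i * (β * γ) = x i * β := by
        rw [hxx' i]
        ring
      rw [e]
      exact hxβ i)
  set A₃ := Subring.closure ((A₂ : Set K) ∪ Set.range x') with hA₃
  have hA₂₃ : A₂ ≤ A₃ := fun a ha => Subring.subset_closure (Or.inl ha)
  have hx'A : ∀ i, x' i ∈ A₃ := fun i => Subring.subset_closure (Or.inr ⟨i, rfl⟩)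
  have hcen := adjoin_centre (V₁ := V₁) (B := A₂) (x := x') hA₂V₁ hx'v (by
    intro w hw hwv
    obtain ⟨e, he, rfl⟩ := hzgen w hw hwv
    refine ⟨fun i => ∑ k, e k * (c k i * γ), fun i => ?_, ?_⟩
    · exact Subring.sum_mem _ fun k _ => hA₂₃ (A₂.mul_mem (he k) (hcγ (k, i)))
    · have h1 : ∀ k, e k * z k = ∑ i, e k * (c k i * γ) * x' i := by
        intro k
        rw [hzc k, Finset.mul_sum]
        refine Finset.sum_congr rfl fun i _ => ?_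
        rw [hxx' i]
        ring
      simp_rw [h1, Finset.sum_mul]
      exact Finset.sum_comm)
  -- the units
  have hUG : ∀ h : K, PMon P₁ x h → ∃ c e : K, ∃ δ : ι → ℤ, (c ∈ A₂ ∧ c ≠ 0 ∧ c⁻¹ ∈ V₁) ∧
      (e ∈ A₂ ∧ e ≠ 0 ∧ e⁻¹ ∈ V₁) ∧ h = c * e⁻¹ * mo x δ := by
    rintro h ⟨u, hu0, hu1, hu2, δ, rfl⟩
    have hu1' := hu1
    rw [← hP₁] at hu1'
    obtain ⟨a, ha, b, hb, hb0, hbV, rfl⟩ := hu1'
    have ha0 : a ≠ 0 := left_ne_zero_of_mul hu0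
    refine ⟨a, b, δ, ⟨ha, ha0, ?_⟩, ⟨hb, hb0, hbV⟩, rfl⟩
    have h1 : a⁻¹ = (a * b⁻¹)⁻¹ * b⁻¹ := by field_simp
    rw [h1]
    exact V₁.mul_mem _ _ (hreg.PA hu2) hbV
  have hUG' : ∀ h : K, ∃ c e : K, ∃ δ : ι → ℤ, h ∈ insert g₂ G → (c ∈ A₂ ∧ c ≠ 0 ∧ c⁻¹ ∈ V₁) ∧
      (e ∈ A₂ ∧ e ≠ 0 ∧ e⁻¹ ∈ V₁) ∧ h = c * e⁻¹ * mo x δ := by
    intro h
    by_cases hh : h ∈ insert g₂ G
    · obtain ⟨c, e, δ, h1⟩ := hUG h (by
        rcases hh with rfl | hh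
        · exact hg₂
        · exact hpm _ (hGm₀ h hh))
      exact ⟨c, e, δ, fun _ => h1⟩
    · exact ⟨0, 0, 0, fun h => absurd h hh⟩
  choose uc ue uδ hu using hUG'
  have hHH : ∀ h : K, ∃ a b : K, h ∈ H → a ∈ A₂ ∧ b ∈ A₂ ∧ b ≠ 0 ∧ b⁻¹ ∈ V₁ ∧ h = a * b⁻¹ := by
    intro h
    by_cases hh : h ∈ H
    · have h1 := hHm h hh
      rw [← hP₁] at h1
      obtain ⟨a, ha, b, hb, hb0, hbV, h2⟩ := h1
      exact ⟨a, b, fun _ => ⟨ha, hb, hb0, hbV, h2⟩⟩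
    · exact ⟨0, 0, fun h => absurd h hh⟩
  choose ha hb hab using hHH
  let C : Set K := {β, γ} ∪ (uc '' (insert g₂ G) ∪ ue '' (insert g₂ G)) ∪ hb '' H
  have hCβ : β ∈ C := Or.inl (Or.inl (Or.inl rfl))
  have hCγ : γ ∈ C := Or.inl (Or.inl (Or.inr rfl))
  have hxG : ∀ i, Gn C x' (x i) := fun i => by
    rw [hxx' i]
    exact (Gn.of_x i).mul (Gn.of_C hCγ)
  have hGG : ∀ h ∈ insert g₂ G, Gn C x' h := by
    intro h hh
    obtain ⟨h1, h2, h3⟩ := hu h hh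
    rw [h3]
    refine (Gn.mul (Gn.of_C ?_) (Gn.of_C ?_).inv).mul (Gn.mo hxG _)
    · exact Or.inl (Or.inr (Or.inl ⟨h, hh, rfl⟩))
    · exact Or.inl (Or.inr (Or.inr ⟨h, hh, rfl⟩))
  refine ⟨ι, inferInstance, x', A₃, _, C, hFe₃, fun i => ⟨hx'A i, hx'v i, hx'0 i⟩, hcen, ?_, ?_,
    ?_, ?_, fun h hh => hGG h (Or.inr hh), ?_⟩
  · have h1 : lo V₁.toSubring A₃ = P₁ := by
      apply le_antisymm
      · rw [← hP₁]
        refine lo_le_lo hA₂V₁ ?_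
        rw [hA₃, Subring.closure_le]
        rintro w (hw | ⟨i, rfl⟩)
        · exact le_lo _ _ hw
        · exact Subring.mul_mem _ (hxP i) (inv_mem_lo hA₂V₁ (le_lo _ _ hγ) hγ0 hγV)
      · rw [← hP₁]
        exact lo_mono hA₂₃
    rw [h1]
    exact hdim₁
  · exact (((Set.finite_singleton _).insert _).union (((hGf.insert _).image _).union
      ((hGf.insert _).image _))).union (hHf.image _)
  · rintro s (((rfl | rfl) | (⟨h, hh, rfl⟩ | ⟨h, hh, rfl⟩)) | ⟨h, hh, rfl⟩)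
    · exact ⟨hA₂₃ hβ, hβ0, hβV⟩
    · exact ⟨hA₂₃ hγ, hγ0, hγV⟩
    · obtain ⟨h1, h2, h3⟩ := hu h hh
      exact ⟨hA₂₃ h1.1, h1.2⟩
    · obtain ⟨h1, h2, h3⟩ := hu h hh
      exact ⟨hA₂₃ h2.1, h2.2⟩
    · obtain ⟨h1, h2, h3, h4, h5⟩ := hab h hh
      exact ⟨hA₂₃ h2, h3, h4⟩
  · exact ((hGG g₂ (Or.inl rfl)).pow _).mul ((Gn.of_C hCβ).mul (Gn.of_C hCγ))
  · intro h hh
    obtain ⟨h1, h2, h3, h4, h5⟩ := hab h hh
    exact ⟨ha h, hA₂₃ h1, hb h, Or.inr ⟨h, hh, rfl⟩, h5⟩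

end Pool.Agent.TH188.QS
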