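import Pool.Agent.H59.L.S8.TH188.QS.Comp2

/-!
# Composite valuations, second part
-/

set_option autoImplicit false
set_option linter.unusedVariables false
set_option linter.unusedSectionVars false

universe u v

namespace Pool.Agent.TH188.QS

open IsLocalRing Pool.Agent.W418.LU2

section im

variable {S F K : Type u} [CommRing S] [IsDomain S] [Field F] [Algebra S F] [IsFractionRing S F]
  [Field K] {φ : S →+* K}

lemma im_closure {U : Set F} {Ub : Set K} (h1 : ∀ u ∈ U, ∃ w ∈ Ub, Pr φ u w)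
    (h2 : ∀ w ∈ Ub, ∃ u ∈ U, Pr φ u w) : im φ (Subring.closure U) = Subring.closure Ub := by
  apply le_antisymm
  · let R : Subring F :=
      { carrier := {y | ∃ w ∈ Subring.closure Ub, Pr φ y w}
        mul_mem' := by
          rintro z z' ⟨w, hw, h⟩ ⟨w', hw', h'⟩
          exact ⟨_, Subring.mul_mem _ hw hw', h.mul h'⟩
        one_mem' := ⟨1, Subring.one_mem _, Pr.one⟩
        add_mem' := by
          rintro z z' ⟨w, hw, h⟩ ⟨w', hw', h'⟩
          exact ⟨_, Subring.add_mem _ hw hw', h.add h'⟩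
        zero_mem' := ⟨0, Subring.zero_mem _, Pr.zero⟩
        neg_mem' := by
          rintro z ⟨w, hw, h⟩
          exact ⟨_, Subring.neg_mem _ hw, h.neg⟩ }
    have hR : Subring.closure U ≤ R := by
      rw [Subring.closure_le]
      intro t ht
      obtain ⟨w, hw, h⟩ := h1 t ht
      exact ⟨w, Subring.subset_closure hw, h⟩
    rintro w ⟨y, hy, hyw⟩
    obtain ⟨w', hw', h⟩ := hR hy
    rwa [hyw.unique h]
  · rw [Subring.closure_le]
    intro w hw
    obtain ⟨u, hu, h⟩ := h2 w hw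
    exact ⟨u, Subring.subset_closure hu, h⟩

end im

variable {K : Type u} [Field K]

section place

variable {V₁ : ValuationSubring K}

lemma res_pr {z : K} (hz : z ∈ V₁) : Pr (residue V₁) z (residue V₁ ⟨z, hz⟩) :=
  Pr.alg (F := K) (φ := residue V₁) (⟨z, hz⟩ : V₁)

lemma pr_mem {z : K} {w : ResidueField V₁} (h : Pr (residue V₁) z w) : z ∈ V₁ := by
  obtain ⟨a, b, hb, h1, -⟩ := h
  have hu : IsUnit b := by
    by_contra h2
    exact hb ((residue_eq_zero_iff b).2 ((mem_maximalIdeal b).2 h2))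
  obtain ⟨b', hb'⟩ := isUnit_iff_exists_inv.1 hu
  have h2 : (b : K) * (b' : K) = 1 := congrArg Subtype.val hb'
  have h3 : z = (a : K) * b' := by
    have h4 : z * (b : K) = (a : K) := h1
    rw [← h4, mul_assoc, h2, mul_one]
  rw [h3]
  exact V₁.mul_mem _ _ a.2 b'.2

lemma pr_zero_iff {z : K} {w : ResidueField V₁} (h : Pr (residue V₁) z w) :
    w = 0 ↔ V₁.valuation z < 1 := by
  have hz := pr_mem h
  have h1 : w = residue V₁ ⟨z, hz⟩ := h.unique (res_pr hz)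
  rw [h1, residue_eq_zero_iff]
  exact V₁.valuation_lt_one_iff ⟨z, hz⟩

lemma unit_res {z : K} {w : ResidueField V₁} (h : Pr (residue V₁) z w) (h0 : z ≠ 0)
    (hi : z⁻¹ ∈ V₁) : w ≠ 0 := by
  intro hw
  have h1 := (pr_zero_iff h).1 hw
  exact nu_iff.2 h1 ⟨h0, hi⟩

end place

lemma mo_split {μ : Type} [Fintype μ] {y : μ → K} (hy : ∀ i, y i ≠ 0) (δ : μ → ℤ) :
    mo y δ * ∏ i, y i ^ (-δ i).toNat = ∏ i, y i ^ (δ i).toNat := by
  unfold mo
  rw [← Finset.prod_mul_distrib]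
  refine Finset.prod_congr rfl fun i _ => ?_
  rw [← zpow_natCast, ← zpow_natCast, ← zpow_add₀ (hy i)]
  congr 1
  omega

/-- Composite valuations. -/
theorem gp_comp {V V₁ : ValuationSubring K} {W : ValuationSubring (ResidueField V₁)}
    (hVW : ∀ z : K, z ∈ V ↔ ∃ hz : z ∈ V₁, residue V₁ ⟨z, hz⟩ ∈ W) {A : Subring K}
    (hA : A ≤ V.toSubring) [IsNoetherianRing A] (h₁ : GP V₁ A)
    (h₂ : ∀ T : Set K, T.Finite → (∀ t ∈ T, t ∈ V) →
      GP W (im (residue V₁) (Subring.closure ((A : Set K) ∪ T)))) : GP V A := by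
  classical
  have hVV : V ≤ V₁ := fun z hz => ((hVW z).1 hz).1
  have hVA : V.toSubring = AA K (residue V₁) W := by
    ext z
    constructor
    · intro hz
      obtain ⟨h1, h2⟩ := (hVW z).1 hz
      exact ⟨_, h2, res_pr h1⟩
    · rintro ⟨w, hw, h⟩
      refine (hVW z).2 ⟨pr_mem h, ?_⟩
      rwa [← h.unique (res_pr (pr_mem h))]
  have hprV : ∀ {z : K} {w : ResidueField V₁}, Pr (residue V₁) z w → (z ∈ V ↔ w ∈ W) := by
    intro z w h
    change z ∈ V.toSubring ↔ _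
    rw [hVA]
    exact h.mem_AA
  have hmV : ∀ z, V₁.valuation z < 1 → z ∈ V := by
    intro z hz
    have h1 : z ∈ V₁ := (V₁.valuation_le_one_iff _).1 hz.le
    rw [hprV (res_pr h1), (pr_zero_iff (res_pr h1)).2 hz]
    exact W.zero_mem
  intro G H hGf hHf hG hH
  obtain ⟨ι, _, x, B, g₃, C, hFe₃, hx, hcen, hdim, hCf, hC, hgC, hGC, hHC⟩ :=
    comp_one hVV hmV hA h₁ hGf hHf hG hH
  have hBV : B ≤ V.toSubring := hFe₃.leV hA
  have hBV₁ : B ≤ V₁.toSubring := fun a ha => hVV (hBV ha)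
  have hGPB : GP W (im (residue V₁) B) := by
    obtain ⟨_, _, T₃, hT₃f, hT₃, hBeq⟩ := hFe₃
    rw [hBeq]
    exact h₂ T₃ hT₃f fun t ht => (hT₃ t ht).1
  let rs : K → ResidueField V₁ := fun z => if hz : z ∈ V₁ then residue V₁ ⟨z, hz⟩ else 0
  have hrs : ∀ z ∈ V₁, Pr (residue V₁) z (rs z) := by
    intro z hz
    simp only [rs, dif_pos hz]
    exact res_pr hz
  have hrsC : ∀ s ∈ C, rs s ≠ 0 := fun s hs =>
    unit_res (hrs s (hBV₁ (hC s hs).1)) (hC s hs).2.1 (hC s hs).2.2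
  have hHC' : ∀ h : K, ∃ a b : K, h ∈ H → a ∈ B ∧ b ∈ C ∧ h = a * b⁻¹ := by
    intro h
    by_cases hh : h ∈ H
    · obtain ⟨a, ha, b, hb, h1⟩ := hHC h hh
      exact ⟨a, b, fun _ => ⟨ha, hb, h1⟩⟩
    · exact ⟨0, 0, fun h => absurd h hh⟩
  choose ha hb hab using hHC'
  obtain ⟨ι₀, _, y₀, Pb, gb, hreg₀, hFgb, hgb₀, hCb₀, hHb⟩ := hGPB (rs '' C) (rs '' H)
    (hCf.image _) (hHf.image _) (by
      rintro _ ⟨s, hs, rfl⟩
      exact ⟨hrsC s hs, Fr.of_mem ⟨s, (hC s hs).1, hrs s (hBV₁ (hC s hs).1)⟩⟩) (by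
      rintro _ ⟨h, hh, rfl⟩
      obtain ⟨h1, h2, h3⟩ := hab h hh
      have hhV := (hH h hh).1
      refine ⟨(hprV (hrs h (hVV hhV))).1 hhV, rs (ha h), ⟨_, h1, hrs _ (hBV₁ h1)⟩, rs (hb h),
        ⟨_, (hC _ h2).1, hrs _ (hBV₁ (hC _ h2).1)⟩, hrsC _ h2, ?_⟩
      refine (hrs h (hVV hhV)).unique ?_
      have h4 := (hrs _ (hBV₁ h1)).mul ((hrs _ (hBV₁ (hC _ h2).1)).inv (hrsC _ h2))
      rwa [← h3] at h4)
  obtain ⟨ι₂, _, yb, hreg₂, hyn, hgen₂, hpm₂, hdim₂⟩ := norm_params hreg₀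
  obtain ⟨hgbB, hgb0, Tb, hTbf, hTb, hPb⟩ := hFgb
  obtain ⟨g, hgB, hg⟩ := hgbB
  have hg0 : g ≠ 0 := hg.ne_zero hgb0
  have hgV₁ : g⁻¹ ∈ V₁ := pr_mem (hg.inv hgb0)
  have hat' : ∀ tb : ResidueField V₁, ∃ a : K, tb ∈ Tb → a ∈ B ∧ Pr (residue V₁) a (tb * gb) := by
    intro tb
    by_cases htb : tb ∈ Tb
    · obtain ⟨a, ha, h⟩ := (hTb tb htb).2
      exact ⟨a, fun _ => ⟨ha, h⟩⟩
    · exact ⟨0, fun h => absurd h htb⟩
  choose at₄ hat using hat'
  let T₄ : Set K := (fun tb => at₄ tb * g⁻¹) '' Tb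
  have hT₄r : ∀ tb ∈ Tb, Pr (residue V₁) (at₄ tb * g⁻¹) tb := by
    intro tb htb
    have h1 := (hat tb htb).2.mul (hg.inv hgb0)
    rwa [mul_inv_cancel_right₀ hgb0] at h1
  have hT₄B : ∀ t ∈ T₄, t * g ∈ B := by
    rintro _ ⟨tb, htb, rfl⟩
    change at₄ tb * g⁻¹ * g ∈ B
    rw [inv_mul_cancel_right₀ hg0]
    exact (hat tb htb).1
  obtain ⟨k₄, hFe₄⟩ := hFe₃.adjoin (T' := T₄) (hTbf.image _) hgB hg0 (by
    rintro t ht
    refine ⟨?_, hT₄B t ht⟩
    obtain ⟨tb, htb, rfl⟩ := ht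
    exact (hprV (hT₄r tb htb)).2 (hTb tb htb).1)
  set A₄ := Subring.closure ((B : Set K) ∪ T₄) with hA₄
  have hA₄V : A₄ ≤ V.toSubring := hFe₄.leV hA
  have hA₄V₁ : A₄ ≤ V₁.toSubring := fun a ha => hVV (hA₄V ha)
  have hBA₄ : B ≤ A₄ := fun a ha => Subring.subset_closure (Or.inl ha)
  have hnoe₄ := hFe₄.noeth
  have him₄ : im (residue V₁) A₄ = Subring.closure ((im (residue V₁) B : Set (ResidueField V₁)) ∪
      Tb) := by
    refine im_closure ?_ ?_
    · rintro u (hu | ⟨tb, htb, rfl⟩)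
      · exact ⟨rs u, Or.inl ⟨u, hu, hrs u (hBV₁ hu)⟩, hrs u (hBV₁ hu)⟩
      · exact ⟨tb, Or.inr htb, hT₄r tb htb⟩
    · rintro w (⟨u, hu, h⟩ | hw)
      · exact ⟨u, Or.inl hu, h⟩
      · exact ⟨_, Or.inr ⟨w, hw, rfl⟩, hT₄r w hw⟩
  have himW : im (residue V₁) A₄ ≤ W.toSubring := by
    rintro w ⟨z, hz, h⟩
    exact (hprV h).1 (hA₄V hz)
  have hPb₄ : Pb = lo W.toSubring (im (residue V₁) A₄) := by rw [hPb, him₄]
  have himlo : ∀ R : Subring K, R ≤ V.toSubring →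
      im (residue V₁) (lo V.toSubring R) = lo W.toSubring (im (residue V₁) R) := by
    intro R hR
    rw [hVA] at hR ⊢
    exact im_lo hR
  have hPbim : Pb = im (residue V₁) (lo V.toSubring A₄) := by rw [himlo A₄ hA₄V, hPb₄]
  -- the second half of the parameters
  obtain ⟨η, hη, hη0, hηW, hyη⟩ := comden (z := yb) himW (fun i => by
    rw [← hPb₄]; exact hreg₂.mem i)
  choose y hyA hyr using hyη
  let ab : ι₂ → ResidueField V₁ := fun j => yb j * η
  have hab0 : ∀ j, ab j ≠ 0 := fun j => mul_ne_zero (hreg₂.ne j) hη0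
  have hyr' : ∀ j, Pr (residue V₁) (y j) (ab j) := hyr
  have hy0 : ∀ j, y j ≠ 0 := fun j => (hyr' j).ne_zero (hab0 j)
  have hηPb : η ∈ Pb := by rw [hPb₄]; exact le_lo _ _ hη
  have hηPb' : η⁻¹ ∈ Pb := hreg₂.inv η hηPb hη0 hηW
  have hyab : ∀ j, PMon Pb ab (yb j) := by
    intro j
    have h1 : PMon Pb ab η⁻¹ := PMon.unit (inv_ne_zero hη0) hηPb' (by rwa [inv_inv])
    have h2 := (PMon.self (P := Pb) (x := ab) j).mul hab0 h1
    have h3 : ab j * η⁻¹ = yb j := mul_inv_cancel_right₀ hη0 _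
    rwa [h3] at h2
  -- the centre on `A₄`
  obtain ⟨k, hk⟩ : ∃ k : ℕ, ∀ z ∈ A₄, V₁.valuation z < 1 → ∃ c : ι → K, (∀ i, c i ∈ A₄) ∧
      z = ∑ i, c i * (x i * (g ^ k)⁻¹) := by
    obtain ⟨n, z, hz, hzv, hzgen⟩ := exists_nu_gen (V := V₁) hA₄V₁
    choose kl hkl using fun l => exists_den (A := B) (T := T₄) hgB hT₄B (hz l)
    have hgk : ∀ l, g ^ (Finset.univ.sup kl) * z l ∈ B := fun l =>
      hkl l _ (Finset.le_sup (Finset.mem_univ l))
    have hgv : ∀ l, V₁.valuation (g ^ (Finset.univ.sup kl) * z l) < 1 := by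
      intro l
      rw [map_mul]
      have h1 := (V₁.valuation_le_one_iff _).2 (hBV₁ (B.pow_mem hgB (Finset.univ.sup kl)))
      calc V₁.valuation (g ^ (Finset.univ.sup kl)) * V₁.valuation (z l) ≤
            1 * V₁.valuation (z l) := mul_le_mul_left h1 _
        _ = V₁.valuation (z l) := one_mul _
        _ < 1 := hzv l
    choose c hc hzc using fun l => hcen _ (hgk l) (hgv l)
    refine ⟨Finset.univ.sup kl, fun w hw hwv => ?_⟩
    obtain ⟨e, he, rfl⟩ := hzgen w hw hwv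
    refine ⟨fun i => ∑ l, e l * c l i, fun i => Subring.sum_mem _ fun l _ =>
      A₄.mul_mem (he l) (hBA₄ (hc l i)), ?_⟩
    have hgk0 : g ^ (Finset.univ.sup kl) ≠ 0 := pow_ne_zero _ hg0
    have h1 : ∀ l, e l * z l = ∑ i, e l * c l i * (x i * (g ^ (Finset.univ.sup kl))⁻¹) := by
      intro l
      have h2 : z l = (g ^ (Finset.univ.sup kl))⁻¹ * ∑ i, c l i * x i := by
        rw [← hzc l, inv_mul_cancel_left₀ hgk0]
      rw [h2, Finset.mul_sum, Finset.mul_sum]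
      exact Finset.sum_congr rfl fun i _ => by ring
    simp_rw [h1, Finset.sum_mul]
    exact Finset.sum_comm
  -- exponents
  let C' : Set K := insert g C
  have hC'f : C'.Finite := hCf.insert g
  have hC'B : ∀ s ∈ C', s ∈ B := by
    rintro s (rfl | hs)
    · exact hgB
    · exact (hC s hs).1
  have hC'0 : ∀ s ∈ C', s ≠ 0 := by
    rintro s (rfl | hs)
    · exact hg0
    · exact (hC s hs).2.1
  have hC'm : ∀ s ∈ C', PMon Pb ab (rs s) := by
    intro s hs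
    refine PMon.of_gen hab0 le_rfl hyab ?_
    rcases hs with rfl | hs
    · have h1 : rs s = gb := (hrs s (hBV₁ hgB)).unique hg
      rw [h1]
      exact hpm₂ _ hgb₀
    · exact hpm₂ _ (hCb₀ _ ⟨s, hs, rfl⟩)
  have hC'u : ∀ s : K, ∃ (ub : ResidueField V₁) (δ : ι₂ → ℤ), s ∈ C' → ub ≠ 0 ∧ ub ∈ Pb ∧
      ub⁻¹ ∈ Pb ∧ rs s = ub * mo ab δ := by
    intro s
    by_cases hs : s ∈ C'
    · obtain ⟨u, h1, h2, h3, δ, h4⟩ := hC'm s hs
      exact ⟨u, δ, fun _ => ⟨h1, h2, h3, h4⟩⟩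
    · exact ⟨0, 0, fun h => absurd h hs⟩
  choose ub δ hub using hC'u
  let N : ℕ := hC'f.toFinset.sup fun s => Finset.univ.sup fun j => (δ s j).toNat
  have hN : ∀ s ∈ C', ∀ j, (δ s j).toNat ≤ N := by
    intro s hs j
    refine le_trans ?_ (Finset.le_sup (f := fun s => Finset.univ.sup fun j => (δ s j).toNat)
      (hC'f.mem_toFinset.2 hs))
    exact Finset.le_sup (f := fun j => (δ s j).toNat) (Finset.mem_univ j)
  let M : K := ∏ j, y j ^ N
  have hM4 : M ∈ A₄ := A₄.prod_mem fun j _ => A₄.pow_mem (hyA j) N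
  have hM0 : M ≠ 0 := Finset.prod_ne_zero_iff.2 fun j _ => pow_ne_zero _ (hy0 j)
  have hMr : Pr (residue V₁) M (∏ j, ab j ^ N) := Pr.prod _ fun j _ => (hyr' j).pow N
  have hMr0 : ∏ j, ab j ^ N ≠ 0 := Finset.prod_ne_zero_iff.2 fun j _ => pow_ne_zero _ (hab0 j)
  let Q : K := g ^ k * M
  have hQ4 : Q ∈ A₄ := A₄.mul_mem (A₄.pow_mem (hBA₄ hgB) k) hM4
  have hQ0 : Q ≠ 0 := mul_ne_zero (pow_ne_zero _ hg0) hM0
  have hQi : Q⁻¹ ∈ V₁ := by
    have h1 : Pr (residue V₁) Q (gb ^ k * ∏ j, ab j ^ N) := (hg.pow k).mul hMr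
    exact pr_mem (h1.inv (mul_ne_zero (pow_ne_zero _ hgb0) hMr0))
  let x' : ι → K := fun i => x i * Q⁻¹
  have hx'v : ∀ i, V₁.valuation (x' i) < 1 := by
    intro i
    change V₁.valuation (x i * Q⁻¹) < 1
    rw [map_mul]
    have h1 := (V₁.valuation_le_one_iff _).2 hQi
    calc V₁.valuation (x i) * V₁.valuation Q⁻¹ ≤ V₁.valuation (x i) * 1 := mul_le_mul_right h1 _
      _ = V₁.valuation (x i) := mul_one _
      _ < 1 := (hx i).2.1
  have hx'0 : ∀ i, x' i ≠ 0 := fun i => mul_ne_zero (hx i).2.2 (inv_ne_zero hQ0)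
  have hxx' : ∀ i, x i = x' i * Q := fun i => (inv_mul_cancel_right₀ hQ0 _).symm
  have hx'r : ∀ i, Pr (residue V₁) (x' i) 0 := by
    intro i
    have h1 : x' i ∈ V₁ := (V₁.valuation_le_one_iff _).1 (hx'v i).le
    have h2 := res_pr h1
    rwa [(pr_zero_iff h2).2 (hx'v i)] at h2
  obtain ⟨k₆, hFe₆⟩ := hFe₄.adjoin (T' := Set.range x') (Set.finite_range _) hQ4 hQ0 (by
    rintro _ ⟨i, rfl⟩
    refine ⟨hmV _ (hx'v i), ?_⟩
    rw [← hxx' i]
    exact hBA₄ (hx i).1)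
  set A₆ := Subring.closure ((A₄ : Set K) ∪ Set.range x') with hA₆
  have hA₄₆ : A₄ ≤ A₆ := fun a ha => Subring.subset_closure (Or.inl ha)
  have hx'A : ∀ i, x' i ∈ A₆ := fun i => Subring.subset_closure (Or.inr ⟨i, rfl⟩)
  have hA₆V : A₆ ≤ V.toSubring := hFe₆.leV hA
  have hA₆V₁ : A₆ ≤ V₁.toSubring := fun a ha => hVV (hA₆V ha)
  have hnoe₆ := hFe₆.noeth
  have hk' : ∀ z ∈ A₄, V₁.valuation z < 1 → ∃ c : ι → K, (∀ i, c i ∈ A₄) ∧
      z = M * ∑ i, c i * x' i := by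
    intro z hz hzv
    obtain ⟨c, hc, hzc⟩ := hk z hz hzv
    refine ⟨c, hc, ?_⟩
    rw [hzc, Finset.mul_sum]
    refine Finset.sum_congr rfl fun i _ => ?_
    change c i * (x i * (g ^ k)⁻¹) = M * (c i * (x i * (g ^ k * M)⁻¹))
    rw [mul_inv]
    field_simp
  have hcen₆ := adjoin_centre (V₁ := V₁) (B := A₄) (x := x') hA₄V₁ hx'v (by
    intro z hz hzv
    obtain ⟨c, hc, hzc⟩ := hk' z hz hzv
    refine ⟨fun i => M * c i, fun i => hA₄₆ (A₄.mul_mem hM4 (hc i)), ?_⟩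
    rw [hzc, Finset.mul_sum]
    exact Finset.sum_congr rfl fun i _ => by ring)
  set P := lo V.toSubring A₆ with hP
  have hPV : P ≤ V.toSubring := lo_le hA₆V
  have hPV₁ : P ≤ V₁.toSubring := fun a ha => hVV (hPV ha)
  have hIC : IC V.toSubring P := ic_lo hA₆V
  have hA₆P : A₆ ≤ P := le_lo _ _
  have hloP : lo V.toSubring A₄ ≤ P := lo_mono hA₄₆
  have hnoeP : IsNoetherianRing P := noeth_lo hA₆V
  have hlocP : IsLocalRing P := isLocalRing_lo (loc_V V) hA₆V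
  have hx'P : ∀ i, x' i ∈ P := fun i => hA₆P (hx'A i)
  have hyP : ∀ j, y j ∈ P := fun j => hA₆P (hA₄₆ (hyA j))
  have him₆ : im (residue V₁) A₆ = im (residue V₁) A₄ := by
    have h1 : im (residue V₁) A₆ = Subring.closure ((im (residue V₁) A₄ :
        Set (ResidueField V₁)) ∪ Set.range (fun _ : ι => (0 : ResidueField V₁))) := by
      refine im_closure ?_ ?_
      · rintro u (hu | ⟨i, rfl⟩)
        · exact ⟨rs u, Or.inl ⟨u, hu, hrs u (hA₄V₁ hu)⟩, hrs u (hA₄V₁ hu)⟩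
        · exact ⟨0, Or.inr ⟨i, rfl⟩, hx'r i⟩
      · rintro w (⟨u, hu, h⟩ | ⟨i, rfl⟩)
        · exact ⟨u, Or.inl hu, h⟩
        · exact ⟨x' i, Or.inr ⟨i, rfl⟩, hx'r i⟩
    rw [h1]
    apply le_antisymm
    · rw [Subring.closure_le]
      rintro w (hw | ⟨i, rfl⟩)
      · exact hw
      · exact Subring.zero_mem _
    · exact fun w hw => Subring.subset_closure (Or.inl hw)
  have hPbP : Pb = im (residue V₁) P := by rw [hP, himlo A₆ hA₆V, him₆, hPb₄]
  -- elements of the centre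
  have hstar : ∀ d ∈ lo V.toSubring A₄, V₁.valuation d < 1 → ∃ s ∈ P, V₁.valuation s < 1 ∧
      d = M * s := by
    rintro d ⟨a, ha, b, hb, hb0, hbV, rfl⟩ hv
    have hav : V₁.valuation a < 1 := by
      have h1 : a = a * b⁻¹ * b := by rw [inv_mul_cancel_right₀ hb0]
      rw [h1, map_mul]
      have h2 := (V₁.valuation_le_one_iff _).2 (hA₄V₁ hb)
      calc V₁.valuation (a * b⁻¹) * V₁.valuation b ≤ V₁.valuation (a * b⁻¹) * 1 :=
            mul_le_mul_right h2 _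
        _ = V₁.valuation (a * b⁻¹) := mul_one _
        _ < 1 := hv
    obtain ⟨c, hc, hac⟩ := hk' a ha hav
    refine ⟨(∑ i, c i * x' i) * b⁻¹, ?_, ?_, ?_⟩
    · refine P.mul_mem (P.sum_mem fun i _ => P.mul_mem (hA₆P (hA₄₆ (hc i))) (hx'P i)) ?_
      exact hIC b (hA₆P (hA₄₆ hb)) hb0 hbV
    · rw [map_mul]
      have h2 := (V₁.valuation_le_one_iff _).2 (hVV hbV)
      have h3 : V₁.valuation (∑ i, c i * x' i) < 1 := by
        refine V₁.valuation.map_sum_lt one_ne_zero fun i _ => ?_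
        rw [map_mul]
        have h1 := (V₁.valuation_le_one_iff _).2 (hA₄V₁ (hc i))
        calc V₁.valuation (c i) * V₁.valuation (x' i) ≤ 1 * V₁.valuation (x' i) :=
              mul_le_mul_left h1 _
          _ = V₁.valuation (x' i) := one_mul _
          _ < 1 := hx'v i
      calc V₁.valuation (∑ i, c i * x' i) * V₁.valuation b⁻¹ ≤
            V₁.valuation (∑ i, c i * x' i) * 1 := mul_le_mul_right h2 _
        _ = V₁.valuation (∑ i, c i * x' i) := mul_one _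
        _ < 1 := h3
    · rw [hac, mul_assoc]
  have hstar₆ : ∀ d ∈ P, V₁.valuation d < 1 → ∃ c : ι → K, (∀ i, c i ∈ P) ∧
      d = ∑ i, c i * x' i := by
    rintro d ⟨a, ha, b, hb, hb0, hbV, rfl⟩ hv
    have hav : V₁.valuation a < 1 := by
      have h1 : a = a * b⁻¹ * b := by rw [inv_mul_cancel_right₀ hb0]
      rw [h1, map_mul]
      have h2 := (V₁.valuation_le_one_iff _).2 (hA₆V₁ hb)
      calc V₁.valuation (a * b⁻¹) * V₁.valuation b ≤ V₁.valuation (a * b⁻¹) * 1 :=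
            mul_le_mul_right h2 _
        _ = V₁.valuation (a * b⁻¹) := mul_one _
        _ < 1 := hv
    obtain ⟨c, hc, hac⟩ := hcen₆ a ha hav
    refine ⟨fun i => c i * b⁻¹, fun i => P.mul_mem (hA₆P (hc i)) (hIC b (hA₆P hb) hb0 hbV), ?_⟩
    rw [hac, Finset.sum_mul]
    exact Finset.sum_congr rfl fun i _ => by ring
  -- normal forms
  have hnf : ∀ s ∈ C', ∃ u ∈ P, u ≠ 0 ∧ u⁻¹ ∈ P ∧
      s * ∏ j, y j ^ (-δ s j).toNat = u * ∏ j, y j ^ (δ s j).toNat := by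
    intro s hs
    obtain ⟨h1, h2, h3, h4⟩ := hub s hs
    have h2' := h2
    rw [hPbim] at h2'
    obtain ⟨u, hu, hur⟩ := h2'
    have hs4 : s ∈ A₄ := hBA₄ (hC'B s hs)
    have hd4 : s * ∏ j, y j ^ (-δ s j).toNat - u * ∏ j, y j ^ (δ s j).toNat ∈
        lo V.toSubring A₄ := by
      refine Subring.sub_mem _ (Subring.mul_mem _ (le_lo _ _ hs4) ?_) (Subring.mul_mem _ hu ?_)
      · exact Subring.prod_mem _ fun j _ => Subring.pow_mem _ (le_lo _ _ (hyA j)) _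
      · exact Subring.prod_mem _ fun j _ => Subring.pow_mem _ (le_lo _ _ (hyA j)) _
    have hdr : Pr (residue V₁) (s * ∏ j, y j ^ (-δ s j).toNat - u * ∏ j, y j ^ (δ s j).toNat)
        0 := by
      have e1 : Pr (residue V₁) (s * ∏ j, y j ^ (-δ s j).toNat)
          (rs s * ∏ j, ab j ^ (-δ s j).toNat) :=
        (hrs s (hA₄V₁ hs4)).mul (Pr.prod _ fun j _ => (hyr' j).pow _)
      have e2 : Pr (residue V₁) (u * ∏ j, y j ^ (δ s j).toNat)
          (ub s * ∏ j, ab j ^ (δ s j).toNat) :=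
        hur.mul (Pr.prod _ fun j _ => (hyr' j).pow _)
      have e3 := e1.add e2.neg
      have e4 : rs s * ∏ j, ab j ^ (-δ s j).toNat + -(ub s * ∏ j, ab j ^ (δ s j).toNat) = 0 := by
        rw [h4, mul_assoc, mo_split hab0, add_neg_cancel]
      rw [e4, ← sub_eq_add_neg] at e3
      exact e3
    obtain ⟨t, ht, htv, hdt⟩ := hstar _ hd4 ((pr_zero_iff hdr).1 rfl)
    -- `M` is divisible by the monomial
    have hMd : M = (∏ j, y j ^ (δ s j).toNat) * ∏ j, y j ^ (N - (δ s j).toNat) := by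
      rw [← Finset.prod_mul_distrib]
      refine Finset.prod_congr rfl fun j _ => ?_
      rw [← pow_add]
      congr 1
      have := hN s hs j
      omega
    have hu'P : u + (∏ j, y j ^ (N - (δ s j).toNat)) * t ∈ P :=
      P.add_mem (hloP hu) (P.mul_mem (P.prod_mem fun j _ => P.pow_mem (hyP j) _) ht)
    have hu'r : Pr (residue V₁) (u + (∏ j, y j ^ (N - (δ s j).toNat)) * t) (ub s) := by
      have e1 : t ∈ V₁ := hPV₁ ht
      have e2 := res_pr e1
      rw [(pr_zero_iff e2).2 htv] at e2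
      have e3 : Pr (residue V₁) (∏ j, y j ^ (N - (δ s j).toNat))
          (∏ j, ab j ^ (N - (δ s j).toNat)) := Pr.prod _ fun j _ => (hyr' j).pow _
      have e4 := hur.add (e3.mul e2)
      rwa [mul_zero, add_zero] at e4
    have hu'0 := hu'r.ne_zero h1
    refine ⟨_, hu'P, hu'0, ?_, ?_⟩
    · refine hIC _ hu'P hu'0 ?_
      exact (hprV (hu'r.inv h1)).2 (hreg₂.PA h3)
    · have e1 : s * ∏ j, y j ^ (-δ s j).toNat = u * (∏ j, y j ^ (δ s j).toNat) + M * t := by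
        rw [← hdt]
        ring
      rw [e1, hMd]
      ring
  -- the maximal ideal
  have hmax : ∀ z ∈ P, NU V.toSubring z → ∃ (c₁ : ι → K) (c₂ : ι₂ → K), (∀ i, c₁ i ∈ P) ∧
      (∀ j, c₂ j ∈ P) ∧ z = ∑ i, c₁ i * x' i + ∑ j, c₂ j * y j := by
    intro z hz hzn
    have hzV₁ : z ∈ V₁ := hPV₁ hz
    have hzr := hrs z hzV₁
    have h1 : rs z ∈ Pb := by rw [hPbP]; exact ⟨z, hz, hzr⟩
    have h2 : NU W.toSubring (rs z) := by
      rw [hVA] at hzn
      exact (Pr.nu hzr).1 hzn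
    obtain ⟨c, hc, hzc⟩ := hgen₂ (rs z) h1 h2
    have h3 : ∀ j, c j * η⁻¹ ∈ im (residue V₁) P := fun j => by
      rw [← hPbP]; exact Pb.mul_mem (hc j) hηPb'
    choose c₂ hc₂ hc₂r using h3
    have h4 : Pr (residue V₁) (z - ∑ j, c₂ j * y j) 0 := by
      have e1 := hzr.add (Pr.sum Finset.univ fun j _ => (hc₂r j).mul (hyr' j)).neg
      have e2 : rs z + -∑ j, c j * η⁻¹ * ab j = 0 := by
        rw [hzc, ← sub_eq_add_neg, sub_eq_zero]
        refine Finset.sum_congr rfl fun j _ => ?_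
        change c j * yb j = c j * η⁻¹ * (yb j * η)
        field_simp
      rw [e2, ← sub_eq_add_neg] at e1
      exact e1
    obtain ⟨c₁, hc₁, h5⟩ := hstar₆ _ (P.sub_mem hz (P.sum_mem fun j _ =>
      P.mul_mem (hc₂ j) (hyP j))) ((pr_zero_iff h4).1 rfl)
    exact ⟨c₁, c₂, hc₁, hc₂, by rw [← h5]; ring⟩
  let Y : ι ⊕ ι₂ → K := Sum.elim x' y
  have hYP : ∀ i, Y i ∈ P := by
    rintro (i | j)
    · exact hx'P i
    · exact hyP j
  have hY0 : ∀ i, Y i ≠ 0 := by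
    rintro (i | j)
    · exact hx'0 i
    · exact hy0 j
  have hunitP : ∀ z : P, IsUnit z ↔ (z : K) ≠ 0 ∧ (z : K)⁻¹ ∈ V.toSubring := fun z =>
    isUnit_lo_iff hA₆V z
  have hmaxP : ∀ z : P, z ∈ maximalIdeal P ↔ NU V.toSubring (z : K) := by
    intro z
    rw [mem_maximalIdeal, mem_nonunits_iff, hunitP]
    rfl
  have hYn : ∀ i, NU V.toSubring (Y i) := by
    rintro (i | j)
    · change NU V.toSubring (x' i)
      rw [hVA]
      exact (Pr.nu (hx'r i)).2 NU.zero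
    · change NU V.toSubring (y j)
      rw [hVA]
      refine (Pr.nu (hyr' j)).2 ?_
      change NU W.toSubring (yb j * η)
      rw [mul_comm]
      exact NU.mul (hreg₂.PA hηPb) fun h => hyn j h.2
  have hspan : Ideal.span (Set.range fun i => (⟨Y i, hYP i⟩ : P)) = maximalIdeal P := by
    apply le_antisymm
    · rw [Ideal.span_le]
      rintro _ ⟨i, rfl⟩
      exact (hmaxP _).2 (hYn i)
    · rintro ⟨z, hz⟩ hzm
      obtain ⟨c₁, c₂, hc₁, hc₂, hzc⟩ := hmax z hz ((hmaxP _).1 hzm)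
      have h1 : (⟨z, hz⟩ : P) = ∑ i, (⟨c₁ i, hc₁ i⟩ : P) * ⟨Y (Sum.inl i), hYP _⟩ +
          ∑ j, (⟨c₂ j, hc₂ j⟩ : P) * ⟨Y (Sum.inr j), hYP _⟩ := by
        apply Subtype.ext
        have e1 : ((∑ i, (⟨c₁ i, hc₁ i⟩ : P) * ⟨Y (Sum.inl i), hYP _⟩ : P) : K) =
            ∑ i, c₁ i * x' i := map_sum P.subtype _ _
        have e2 : ((∑ j, (⟨c₂ j, hc₂ j⟩ : P) * ⟨Y (Sum.inr j), hYP _⟩ : P) : K) =
            ∑ j, c₂ j * y j := map_sum P.subtype _ _
        rw [Subring.coe_add, e1, e2]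
        exact hzc
      rw [h1]
      exact Ideal.add_mem _ (Ideal.sum_mem _ fun i _ => Ideal.mul_mem_left _ _
        (Ideal.subset_span ⟨_, rfl⟩)) (Ideal.sum_mem _ fun j _ => Ideal.mul_mem_left _ _
        (Ideal.subset_span ⟨_, rfl⟩))
  -- the dimension
  have hdimP : ((Fintype.card (ι ⊕ ι₂) : ℕ) : WithBot ℕ∞) ≤ ringKrullDim P := by
    obtain ⟨p, hp, hpm, hph⟩ := lo_loc (loc_V V₁) hPV₁
    have e1 : lo V₁.toSubring P = lo V₁.toSubring B := by
      apply le_antisymm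
      · refine lo_le_lo hBV₁ ?_
        have e2 : A₄ ≤ lo V₁.toSubring B := by
          rw [hA₄, Subring.closure_le]
          rintro w (hw | ⟨tb, htb, rfl⟩)
          · exact le_lo _ _ hw
          · exact Subring.mul_mem _ (le_lo _ _ (hat tb htb).1)
              (inv_mem_lo hBV₁ (le_lo _ _ hgB) hg0 hgV₁)
        have e3 : A₆ ≤ lo V₁.toSubring B := by
          rw [hA₆, Subring.closure_le]
          rintro w (hw | ⟨i, rfl⟩)
          · exact e2 hw
          · exact Subring.mul_mem _ (le_lo _ _ (hx i).1) (inv_mem_lo hBV₁ (e2 hQ4) hQ0 hQi)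
        rintro _ ⟨a, ha, b, hb, hb0, hbV, rfl⟩
        exact Subring.mul_mem _ (e3 ha) (inv_mem_lo hBV₁ (e3 hb) hb0 (hVV hbV))
      · exact lo_mono ((hBA₄.trans hA₄₆).trans hA₆P)
    rw [e1] at hph
    rw [hph] at hdim
    -- the quotient
    have hres : ∀ z : P, rs (z : K) ∈ Pb := fun z => by
      rw [hPbP]; exact ⟨z, z.2, hrs _ (hPV₁ z.2)⟩
    let θ : P →+* Pb :=
      { toFun := fun z => ⟨rs z, hres z⟩
        map_one' := Subtype.ext ((hrs _ (hPV₁ P.one_mem)).unique Pr.one)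
        map_mul' := fun a b => Subtype.ext ((hrs _ (hPV₁ (a * b).2)).unique
          ((hrs _ (hPV₁ a.2)).mul (hrs _ (hPV₁ b.2))))
        map_zero' := Subtype.ext ((hrs _ (hPV₁ P.zero_mem)).unique Pr.zero)
        map_add' := fun a b => Subtype.ext ((hrs _ (hPV₁ (a + b).2)).unique
          ((hrs _ (hPV₁ a.2)).add (hrs _ (hPV₁ b.2)))) }
    have hθs : Function.Surjective θ := by
      rintro ⟨w, hw⟩
      have hw' := hw
      rw [hPbP] at hw'
      obtain ⟨z, hz, hzw⟩ := hw'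
      exact ⟨⟨z, hz⟩, Subtype.ext ((hrs z (hPV₁ hz)).unique hzw)⟩
    have hker : RingHom.ker θ = p := by
      ext z
      rw [RingHom.mem_ker, hpm, nu_iff, ← pr_zero_iff (hrs (z : K) (hPV₁ z.2))]
      exact ⟨fun h => congrArg Subtype.val h, fun h => Subtype.ext h⟩
    have e4 : ringKrullDim (P ⧸ p) = ringKrullDim Pb := by
      rw [← hker]
      exact ringKrullDim_eq_of_ringEquiv (RingHom.quotientKerEquivOfSurjective hθs)
    have e5 := height_add_quot p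
    rw [e4] at e5
    rw [Fintype.card_sum]
    refine le_trans ?_ e5
    have e6 : (((Fintype.card ι + Fintype.card ι₂ : ℕ) : ℕ) : WithBot ℕ∞) =
        ((Fintype.card ι : ℕ) : WithBot ℕ∞) + ((Fintype.card ι₂ : ℕ) : WithBot ℕ∞) := by
      push_cast
      rfl
    rw [e6]
    exact add_le_add hdim hdim₂
  have hregP : IsRegularLocalRing P := by
    apply IsRegularLocalRing.of_spanFinrank_maximalIdeal_le
    refine le_trans ?_ hdimP
    rw [← hspan]
    have e1 := Submodule.spanFinrank_span_le_ncard_of_finite (R := P)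
      (Set.finite_range fun i => (⟨Y i, hYP i⟩ : P))
    have e2 : (Set.range fun i => (⟨Y i, hYP i⟩ : P)).ncard ≤ Fintype.card (ι ⊕ ι₂) := by
      rw [← Set.image_univ]
      refine (Set.ncard_image_le (Set.finite_univ)).trans ?_
      rw [Set.ncard_univ, Nat.card_eq_fintype_card]
    exact_mod_cast e1.trans e2
  have hInd : Ind (fun i => (⟨Y i, hYP i⟩ : P)) := ind_of_span hspan hdimP
  have hRP : RegP V.toSubring P Y :=
    { PA := hPV
      ne := hY0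
      mem := hYP
      reg := hregP
      inv := hIC
      ind := IndN.of_ind id Function.injective_id (fun i _ => ⟨i, rfl⟩) hInd }
  -- monomials
  have hyM : ∀ j, PMon P Y (y j) := fun j => PMon.self (P := P) (x := Y) (Sum.inr j)
  have hx'M : ∀ i, PMon P Y (x' i) := fun i => PMon.self (P := P) (x := Y) (Sum.inl i)
  have hC'M : ∀ s ∈ C', PMon P Y s := by
    intro s hs
    obtain ⟨u, hu, hu0, hui, h1⟩ := hnf s hs
    have h2 : s = u * (∏ j, y j ^ (δ s j).toNat) * (∏ j, y j ^ (-δ s j).toNat)⁻¹ := by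
      rw [← h1, mul_inv_cancel_right₀]
      exact Finset.prod_ne_zero_iff.2 fun j _ => pow_ne_zero _ (hy0 j)
    rw [h2]
    exact ((PMon.unit hu0 hu hui).mul hY0 (PMon.prod hY0 _ fun j _ =>
      PMon.pow hY0 (hyM j) _)).mul hY0 (PMon.prod hY0 _ fun j _ => PMon.pow hY0 (hyM j) _).inv
  have hMM : PMon P Y M := PMon.prod hY0 _ fun j _ => PMon.pow hY0 (hyM j) _
  have hgM : PMon P Y g := hC'M g (Set.mem_insert _ _)
  have hQM : PMon P Y Q := (PMon.pow hY0 hgM k).mul hY0 hMM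
  have hxM : ∀ i, PMon P Y (x i) := fun i => by
    rw [hxx' i]
    exact (hx'M i).mul hY0 hQM
  have hCM : ∀ s ∈ C, PMon P Y s := fun s hs => hC'M s (Or.inr hs)
  have hg₃M : PMon P Y g₃ := hgC P _ _ Y hY0 hCM hxM
  refine ⟨ι ⊕ ι₂, inferInstance, Y, P, _, hRP, hFe₆.fg, ?_, ?_, ?_⟩
  · exact (PMon.pow hY0 ((PMon.pow hY0 hg₃M _).mul hY0 hgM) _).mul hY0 hQM
  · exact fun h hh => hGC h hh P _ _ Y hY0 hCM hxM
  · intro h hh
    obtain ⟨h1, h2, h3⟩ := hab h hh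
    obtain ⟨u, hu, hu0, hui, h4⟩ := hnf (hb h) (Or.inr h2)
    have hhV := (hH h hh).1
    have h5 : rs h ∈ Pb := hHb _ ⟨h, hh, rfl⟩
    rw [hPbim] at h5
    obtain ⟨η₁, hη₁, hη₁r⟩ := h5
    have hb0 := (hC _ h2).2.1
    have hd4 : ha h - hb h * η₁ ∈ lo V.toSubring A₄ :=
      Subring.sub_mem _ (le_lo _ _ (hBA₄ h1)) (Subring.mul_mem _
        (le_lo _ _ (hBA₄ (hC _ h2).1)) hη₁)
    have hdr : Pr (residue V₁) (ha h - hb h * η₁) 0 := by
      have e1 := (hrs _ (hBV₁ (hC _ h2).1)).mul (hrs h (hVV hhV))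
      have e2 : hb h * h = ha h := by
        nth_rewrite 2 [h3]
        field_simp
      rw [e2] at e1
      have e3 := e1.add ((hrs _ (hBV₁ (hC _ h2).1)).mul hη₁r).neg
      rw [add_neg_cancel, ← sub_eq_add_neg] at e3
      exact e3
    obtain ⟨t, ht, htv, hdt⟩ := hstar _ hd4 ((pr_zero_iff hdr).1 rfl)
    have hMd : M = (∏ j, y j ^ (δ (hb h) j).toNat) * ∏ j, y j ^ (N - (δ (hb h) j).toNat) := by
      rw [← Finset.prod_mul_distrib]
      refine Finset.prod_congr rfl fun j _ => ?_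
      rw [← pow_add]
      congr 1
      have := hN (hb h) (Or.inr h2) j
      omega
    have e1 : h = η₁ + u⁻¹ * ((∏ j, y j ^ (N - (δ (hb h) j).toNat)) *
        (∏ j, y j ^ (-δ (hb h) j).toNat) * t) := by
      have e2 : ∏ j, y j ^ (-δ (hb h) j).toNat ≠ 0 :=
        Finset.prod_ne_zero_iff.2 fun j _ => pow_ne_zero _ (hy0 j)
      have e3 : ∏ j, y j ^ (δ (hb h) j).toNat ≠ 0 :=
        Finset.prod_ne_zero_iff.2 fun j _ => pow_ne_zero _ (hy0 j)
      have e4 : ha h = hb h * h := by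
        rw [← (eq_mul_inv_iff_mul_eq₀ hb0).1 h3, mul_comm]
      rw [e4, hMd] at hdt
      apply mul_left_cancel₀ (mul_ne_zero hb0 e2)
      have e5 : hb h * (∏ j, y j ^ (-δ (hb h) j).toNat) * (η₁ + u⁻¹ *
          ((∏ j, y j ^ (N - (δ (hb h) j).toNat)) * (∏ j, y j ^ (-δ (hb h) j).toNat) * t)) =
          hb h * (∏ j, y j ^ (-δ (hb h) j).toNat) * η₁ + (u * ∏ j, y j ^ (δ (hb h) j).toNat) *
          (u⁻¹ * ((∏ j, y j ^ (N - (δ (hb h) j).toNat)) *
          (∏ j, y j ^ (-δ (hb h) j).toNat) * t)) := by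
        rw [← h4]
        ring
      rw [e5]
      have e6 : (u * ∏ j, y j ^ (δ (hb h) j).toNat) * (u⁻¹ *
          ((∏ j, y j ^ (N - (δ (hb h) j).toNat)) * (∏ j, y j ^ (-δ (hb h) j).toNat) * t)) =
          (∏ j, y j ^ (-δ (hb h) j).toNat) * ((∏ j, y j ^ (δ (hb h) j).toNat) *
          (∏ j, y j ^ (N - (δ (hb h) j).toNat)) * t) := by
        field_simp
      rw [e6, ← hdt]
      ring
    rw [e1]
    refine P.add_mem (hloP hη₁) (P.mul_mem hui (P.mul_mem (P.mul_mem ?_ ?_) ht))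
    · exact P.prod_mem fun j _ => P.pow_mem (hyP j) _
    · exact P.prod_mem fun j _ => P.pow_mem (hyP j) _

end Pool.Agent.TH188.QS
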