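import Pool.Agent.H59.L.S8.TH188.QS.Step

/-!
# Divergent sequences of quadratic transforms and log uniformization
-/

set_option autoImplicit false
set_option linter.unusedVariables false
set_option linter.unusedSectionVars false

universe u v

namespace Pool.Agent.TH188.QS

open IsLocalRing Pool.Agent.W418.LU2

variable {K : Type u} [Field K] {V : ValuationSubring K}

lemma nu_iff {y : K} : NU V.toSubring y ↔ V.valuation y < 1 := by
  unfold NU
  by_cases h : y = 0
  · rw [h, map_zero]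
    exact ⟨fun _ => zero_lt_one, fun _ h' => h'.1 rfl⟩
  · constructor
    · intro h1
      have h2 : y⁻¹ ∉ V := fun h3 => h1 ⟨h, h3⟩
      rw [← V.valuation_le_one_iff, map_inv₀, not_le,
        one_lt_inv₀ (zero_lt_iff.2 ((map_ne_zero _).2 h))] at h2
      exact h2
    · rintro h1 ⟨-, h2⟩
      have h3 : y⁻¹ ∈ V := h2
      rw [← V.valuation_le_one_iff, map_inv₀, ← not_lt,
        one_lt_inv₀ (zero_lt_iff.2 ((map_ne_zero _).2 h))] at h3
      exact h3 h1

lemma Mi.lt {Q : Subring K} {z : K} (h : Mi V.toSubring Q z) : V.valuation z < 1 :=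
  nu_iff.1 h.NU

/-- Existence of elements of minimal value. -/
theorem exists_mi {Q : Subring K} [IsNoetherianRing Q] (hQ : Q ≤ V.toSubring)
    (hne : ∃ y ∈ Q, y ≠ 0 ∧ V.valuation y < 1) : ∃ z, Mi V.toSubring Q z := by
  let I : Ideal Q :=
    { carrier := {b | V.valuation (b : K) < 1}
      add_mem' := by
        intro a b ha hb
        exact lt_of_le_of_lt (V.valuation.map_add _ _) (max_lt ha hb)
      zero_mem' := by
        change V.valuation ((0 : Q) : K) < 1
        rw [ZeroMemClass.coe_zero, map_zero]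
        exact zero_lt_one
      smul_mem' := by
        intro a b hb
        change V.valuation ((a : K) * (b : K)) < 1
        rw [map_mul]
        have h1 := (V.valuation_le_one_iff _).2 (hQ a.2)
        calc V.valuation (a : K) * V.valuation (b : K) ≤ 1 * V.valuation (b : K) :=
              mul_le_mul_left h1 _
          _ = V.valuation (b : K) := one_mul _
          _ < 1 := hb }
  obtain ⟨S, hS⟩ := (IsNoetherian.noetherian I : I.FG)
  have hS : Ideal.span (S : Set Q) = I := hS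
  obtain ⟨y, hy, hy0, hyv⟩ := hne
  obtain ⟨f, hfS, hf0, hf⟩ := exists_gen V hQ S.finite_toSet (by
    rw [hS]
    intro h
    have h1 : (⟨y, hy⟩ : Q) ∈ I := hyv
    rw [h, Ideal.mem_bot] at h1
    exact hy0 (congrArg Subtype.val h1))
  have hfI : f ∈ I := by rw [← hS]; exact Ideal.subset_span hfS
  have hfv : V.valuation (f : K) < 1 := hfI
  refine ⟨f, f.2, fun h => hf0 (Subtype.ext h), ?_, ?_⟩
  · intro h
    exact nu_iff.2 hfv ⟨fun h => hf0 (Subtype.ext h), h⟩
  · intro w hw hwn
    have h1 : (⟨w, hw⟩ : Q) ∈ Ideal.span (S : Set Q) := by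
      rw [hS]
      exact nu_iff.1 hwn
    have h2 := hf _ h1
    rw [div_eq_mul_inv] at h2
    exact h2

/-- The values of the maximal ideals of the sequence `Q` have an infinite sum. -/
def Dv (V : ValuationSubring K) (Q : ℕ → Subring K) : Prop :=
  ∀ x : K, x ≠ 0 → ∃ n, ∀ z : ℕ → K, (∀ i < n, z i ∈ Q i ∧ z i ≠ 0 ∧ V.valuation (z i) < 1) →
    x * (∏ i ∈ Finset.range n, z i)⁻¹ ∉ V

lemma Dv.shift {Q : ℕ → Subring K} (h : Dv V Q) (m : ℕ) (hQV : ∀ n, Q n ≤ V.toSubring)
    (hne : ∀ n, ∃ z ∈ Q n, z ≠ 0 ∧ V.valuation z < 1) : Dv V (fun i => Q (m + i)) := by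
  intro x hx
  choose zz hzz hzz0 hzzv using hne
  have hP0 : ∏ i ∈ Finset.range m, zz i ≠ 0 := Finset.prod_ne_zero_iff.2 fun i _ => hzz0 i
  obtain ⟨N, hN⟩ := h (x * ∏ i ∈ Finset.range m, zz i) (mul_ne_zero hx hP0)
  refine ⟨N, fun z hz hcon => ?_⟩
  let Z : ℕ → K := fun i => if i < m then zz i else z (i - m)
  have hZ : ∀ i < m + N, Z i ∈ Q i ∧ Z i ≠ 0 ∧ V.valuation (Z i) < 1 := by
    intro i hi
    by_cases him : i < m
    · simp only [Z, if_pos him]
      exact ⟨hzz i, hzz0 i, hzzv i⟩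
    · simp only [Z, if_neg him]
      have h1 := hz (i - m) (by omega)
      have h2 : m + (i - m) = i := by omega
      simp only [h2] at h1
      exact h1
  refine hN Z (fun i hi => hZ i (by omega)) ?_
  have h1 : ∏ i ∈ Finset.range (m + N), Z i = (∏ i ∈ Finset.range m, zz i) *
      ∏ i ∈ Finset.range N, z i := by
    rw [Finset.prod_range_add]
    congr 1
    · refine Finset.prod_congr rfl fun i hi => ?_
      simp only [Z, if_pos (Finset.mem_range.1 hi)]
    · refine Finset.prod_congr rfl fun i _ => ?_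
      have h3 : ¬ m + i < m := by omega
      simp only [Z, if_neg h3]
      congr 1
      omega
  have h2 : ∏ i ∈ Finset.range (m + N), Z i = (∏ i ∈ Finset.range N, Z i) *
      ∏ i ∈ Finset.range m, Z (N + i) := by
    rw [add_comm m N, Finset.prod_range_add]
  have hZN : ∏ i ∈ Finset.range N, Z i ≠ 0 :=
    Finset.prod_ne_zero_iff.2 fun i hi => (hZ i (by have := Finset.mem_range.1 hi; omega)).2.1
  have hZr : ∏ i ∈ Finset.range m, Z (N + i) ∈ V := by
    refine V.toSubring.prod_mem fun i hi => ?_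
    have := Finset.mem_range.1 hi
    exact hQV _ (hZ (N + i) (by omega)).1
  have hzN : ∏ i ∈ Finset.range N, z i ≠ 0 :=
    Finset.prod_ne_zero_iff.2 fun i hi => (hz i (Finset.mem_range.1 hi)).2.1
  have h3 : x * (∏ i ∈ Finset.range m, zz i) * (∏ i ∈ Finset.range N, Z i)⁻¹ =
      x * (∏ i ∈ Finset.range N, z i)⁻¹ * ∏ i ∈ Finset.range m, Z (N + i) := by
    rw [h1] at h2
    field_simp
    linear_combination h2
  rw [h3]
  exact V.mul_mem _ _ hcon hZr

/-- `Q` is the local ring of a finitely generated algebra over `A` with common denominator `g`. -/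
def Fg (V : ValuationSubring K) (A Q : Subring K) (g : K) : Prop :=
  g ∈ A ∧ g ≠ 0 ∧ ∃ T : Set K, T.Finite ∧ (∀ t ∈ T, t ∈ V ∧ t * g ∈ A) ∧
    Q = lo V.toSubring (Subring.closure ((A : Set K) ∪ T))

lemma cl_le {A : Subring K} (hA : A ≤ V.toSubring) {T : Set K} (hT : ∀ t ∈ T, t ∈ V) :
    Subring.closure ((A : Set K) ∪ T) ≤ V.toSubring := by
  rw [Subring.closure_le]
  rintro t (ht | ht)
  · exact hA ht
  · exact hT t ht

/-- Common denominators. -/
lemma exists_den {A : Subring K} {T : Set K} {g : K} (hg : g ∈ A) (hT : ∀ t ∈ T, t * g ∈ A)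
    {a : K} (ha : a ∈ Subring.closure ((A : Set K) ∪ T)) : ∃ k : ℕ, ∀ l, k ≤ l →
      g ^ l * a ∈ A := by
  induction ha using Subring.closure_induction with
  | mem a ha =>
    rcases ha with ha | ha
    · exact ⟨0, fun l _ => A.mul_mem (A.pow_mem hg l) ha⟩
    · refine ⟨1, fun l hl => ?_⟩
      obtain ⟨l, rfl⟩ := Nat.exists_eq_add_of_le hl
      have h1 : g ^ (1 + l) * a = g ^ l * (a * g) := by ring
      rw [h1]
      exact A.mul_mem (A.pow_mem hg l) (hT a ha)
  | zero => exact ⟨0, fun l _ => by rw [mul_zero]; exact A.zero_mem⟩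
  | one => exact ⟨0, fun l _ => by rw [mul_one]; exact A.pow_mem hg l⟩
  | add a b _ _ ha hb =>
    obtain ⟨k, hk⟩ := ha
    obtain ⟨k', hk'⟩ := hb
    refine ⟨max k k', fun l hl => ?_⟩
    rw [mul_add]
    exact A.add_mem (hk l (le_trans (le_max_left _ _) hl))
      (hk' l (le_trans (le_max_right _ _) hl))
  | neg a _ ha =>
    obtain ⟨k, hk⟩ := ha
    refine ⟨k, fun l hl => ?_⟩
    rw [mul_neg]
    exact A.neg_mem (hk l hl)
  | mul a b _ _ ha hb =>
    obtain ⟨k, hk⟩ := ha
    obtain ⟨k', hk'⟩ := hb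
    refine ⟨k + k', fun l hl => ?_⟩
    obtain ⟨l, rfl⟩ := Nat.exists_eq_add_of_le hl
    have h1 : g ^ (k + k' + l) * (a * b) = g ^ l * ((g ^ k * a) * (g ^ k' * b)) := by ring
    rw [h1]
    exact A.mul_mem (A.pow_mem hg l) (A.mul_mem (hk k le_rfl) (hk' k' le_rfl))

/-- The nonunits of a noetherian ring. -/
theorem exists_nu_gen {Q : Subring K} [IsNoetherianRing Q] (hQ : Q ≤ V.toSubring) :
    ∃ (n : ℕ) (y : Fin n → K), (∀ i, y i ∈ Q) ∧ (∀ i, V.valuation (y i) < 1) ∧
      ∀ w ∈ Q, V.valuation w < 1 → ∃ c : Fin n → K, (∀ i, c i ∈ Q) ∧ w = ∑ i, c i * y i := by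
  let I : Ideal Q :=
    { carrier := {b | V.valuation (b : K) < 1}
      add_mem' := by
        intro a b ha hb
        exact lt_of_le_of_lt (V.valuation.map_add _ _) (max_lt ha hb)
      zero_mem' := by
        change V.valuation ((0 : Q) : K) < 1
        rw [ZeroMemClass.coe_zero, map_zero]
        exact zero_lt_one
      smul_mem' := by
        intro a b hb
        change V.valuation ((a : K) * (b : K)) < 1
        rw [map_mul]
        have h1 := (V.valuation_le_one_iff _).2 (hQ a.2)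
        calc V.valuation (a : K) * V.valuation (b : K) ≤ 1 * V.valuation (b : K) :=
              mul_le_mul_left h1 _
          _ = V.valuation (b : K) := one_mul _
          _ < 1 := hb }
  obtain ⟨n, y, hy⟩ := Submodule.fg_iff_exists_fin_generating_family.1
    (IsNoetherian.noetherian I : I.FG)
  have hy : Ideal.span (Set.range y) = I := hy
  refine ⟨n, fun i => y i, fun i => (y i).2, fun i => ?_, fun w hw hv => ?_⟩
  · have h1 : y i ∈ I := by rw [← hy]; exact Ideal.subset_span ⟨i, rfl⟩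
    exact h1
  · have h1 : (⟨w, hw⟩ : Q) ∈ I := hv
    rw [← hy, Ideal.mem_span_range_iff_exists_fun] at h1
    obtain ⟨c, hc⟩ := h1
    refine ⟨fun i => c i, fun i => (c i).2, ?_⟩
    have h3 := congrArg (Q.subtype) hc
    rw [map_sum] at h3
    exact h3.symm

/-- Finite generation of the quadratic transform. -/
theorem Fg.step {A Q : Subring K} (hA : A ≤ V.toSubring) [IsNoetherianRing Q] {g : K}
    (h : Fg V A Q g) {e : K} (he : Mi V.toSubring Q e) :
    ∃ (g' u : K) (k : ℕ), u ≠ 0 ∧ u ∈ Q ∧ u⁻¹ ∈ Q ∧ g' = g ^ k * (u * e) ∧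
      Fg V A (qt V.toSubring Q) g' := by
  classical
  obtain ⟨hgA, hg0, T, hTf, hT, hQ⟩ := h
  have hBV : Subring.closure ((A : Set K) ∪ T) ≤ V.toSubring := cl_le hA fun t ht => (hT t ht).1
  have hQV : Q ≤ V.toSubring := by rw [hQ]; exact lo_le hBV
  obtain ⟨n, y, hyQ, hyv, hygen⟩ := exists_nu_gen (V := V) hQV
  have hy' : ∀ i, ∃ a ∈ Subring.closure ((A : Set K) ∪ T),
      ∃ b ∈ Subring.closure ((A : Set K) ∪ T), b ≠ 0 ∧ b⁻¹ ∈ V.toSubring ∧ y i = a * b⁻¹ :=
    fun i => by
      have := hyQ i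
      rw [hQ] at this
      exact this
  choose a ha b hb hb0 hbV hab using hy'
  obtain ⟨ae, hae, be, hbe, hbe0, hbeV, heq⟩ : ∃ a ∈ Subring.closure ((A : Set K) ∪ T),
      ∃ b ∈ Subring.closure ((A : Set K) ∪ T), b ≠ 0 ∧ b⁻¹ ∈ V.toSubring ∧ e = a * b⁻¹ := by
    have := he.mem
    rw [hQ] at this
    exact this
  have hBQ : Subring.closure ((A : Set K) ∪ T) ≤ Q := by rw [hQ]; exact le_lo _ _
  have hIC : IC V.toSubring Q := by rw [hQ]; exact ic_lo hBV
  have hbQ : ∀ i, (b i)⁻¹ ∈ Q := fun i => hIC _ (hBQ (hb i)) (hb0 i) (hbV i)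
  have hbeQ : be⁻¹ ∈ Q := hIC _ (hBQ hbe) hbe0 hbeV
  have hae0 : ae ≠ 0 := by
    rintro rfl
    rw [zero_mul] at heq
    exact he.ne heq
  have haeq : ae = be * e := by rw [heq]; field_simp
  have haq : ∀ i, a i = b i * y i := fun i => by
    rw [hab i]
    have := hb0 i
    field_simp
  -- denominators
  choose ki hki using fun i => exists_den hgA (fun t ht => (hT t ht).2) (ha i)
  obtain ⟨ke, hke⟩ := exists_den hgA (fun t ht => (hT t ht).2) hae
  let k := (Finset.univ.sup ki) ⊔ ke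
  have hk1 : ∀ i, g ^ k * a i ∈ A := fun i => hki i k
    (le_trans (Finset.le_sup (Finset.mem_univ i)) le_sup_left)
  have hk2 : g ^ k * ae ∈ A := hke k le_sup_right
  have hdiv : ∀ i, a i * ae⁻¹ ∈ qt V.toSubring Q := by
    intro i
    have h1 : a i * ae⁻¹ = (b i * y i * e⁻¹) * be⁻¹ := by
      rw [haeq, haq i, mul_inv]
      ring
    rw [h1]
    refine Subring.mul_mem _ (div_mem_qt he (Q.mul_mem (hBQ (hb i)) (hyQ i)) ?_)
      (le_qt _ _ hbeQ)
    exact NU.mul (hBV (hb i)) (nu_iff.2 (hyv i))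
  refine ⟨g ^ (k + 1) * ae, be, k + 1, hbe0, hBQ hbe, hbeQ, by rw [haeq], ?_, ?_,
    T ∪ Set.range (fun i => a i * ae⁻¹), hTf.union (Set.finite_range _), ?_, ?_⟩
  · have h1 : g ^ (k + 1) * ae = g * (g ^ k * ae) := by ring
    rw [h1]
    exact A.mul_mem hgA hk2
  · exact mul_ne_zero (pow_ne_zero _ hg0) hae0
  · rintro t (ht | ⟨i, rfl⟩)
    · refine ⟨(hT t ht).1, ?_⟩
      have h1 : t * (g ^ (k + 1) * ae) = (t * g) * (g ^ k * ae) := by ring
      rw [h1]
      exact A.mul_mem (hT t ht).2 hk2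
    · refine ⟨qt_le hQV (hdiv i), ?_⟩
      have h1 : a i * ae⁻¹ * (g ^ (k + 1) * ae) = g * (g ^ k * a i) := by
        field_simp
        ring
      change a i * ae⁻¹ * (g ^ (k + 1) * ae) ∈ A
      rw [h1]
      exact A.mul_mem hgA (hk1 i)
  · have hB'V : Subring.closure ((A : Set K) ∪ (T ∪ Set.range (fun i => a i * ae⁻¹))) ≤
        V.toSubring := by
      refine cl_le hA ?_
      rintro t (ht | ⟨i, rfl⟩)
      · exact (hT t ht).1
      · exact qt_le hQV (hdiv i)
    apply le_antisymm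
    · rw [qt_eq hQV he]
      refine lo_le_lo hB'V ?_
      have hQle : Q ≤ lo V.toSubring (Subring.closure ((A : Set K) ∪
          (T ∪ Set.range (fun i => a i * ae⁻¹)))) := by
        nth_rewrite 1 [hQ]
        refine lo_mono (Subring.closure_mono ?_)
        rintro t (ht | ht)
        · exact Or.inl ht
        · exact Or.inr (Or.inl ht)
      rw [Subring.closure_le]
      rintro t (ht | ⟨w, hw, hwn, rfl⟩)
      · exact hQle ht
      · obtain ⟨c, hc, rfl⟩ := hygen w hw (nu_iff.1 hwn)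
        rw [Finset.sum_mul]
        refine Subring.sum_mem _ fun i _ => ?_
        have h1 : c i * y i * e⁻¹ = c i * (b i)⁻¹ * be * (a i * ae⁻¹) := by
          rw [haeq, haq i, mul_inv]
          have := hb0 i
          field_simp
        rw [h1]
        refine Subring.mul_mem _ (Subring.mul_mem _ (Subring.mul_mem _ (hQle (hc i))
          (hQle (hbQ i))) (hQle (hBQ hbe))) ?_
        exact le_lo _ _ (Subring.subset_closure (Or.inr (Or.inr ⟨i, rfl⟩)))
    · refine (lo_le_lo (B' := Subring.closure ((Q : Set K) ∪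
        {t | ∃ y ∈ Q, ∃ z, NU V.toSubring y ∧ Mi V.toSubring Q z ∧ t = y * z⁻¹}))
        (qcl_le' hQV) ?_)
      change _ ≤ qt V.toSubring Q
      rw [Subring.closure_le]
      rintro t (ht | ht | ⟨i, rfl⟩)
      · exact le_qt _ _ (hBQ (Subring.subset_closure (Or.inl ht)))
      · exact le_qt _ _ (hBQ (Subring.subset_closure (Or.inr ht)))
      · exact hdiv i

end Pool.Agent.TH188.QS
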