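import Pool.Agent.H59.L.S8.TH188.QS.Down

/-!
# Divergent sequences of quadratic transforms and log uniformization, part 2
-/

set_option autoImplicit false
set_option linter.unusedVariables false
set_option linter.unusedSectionVars false

universe u v

namespace Pool.Agent.TH188.QS

open IsLocalRing Pool.Agent.W418.LU2

variable {K : Type u} [Field K] {V : ValuationSubring K}

/-- Local rings of noetherian rings are noetherian. -/
theorem noeth_lo {A B : Subring K} (hB : B ≤ A) [IsNoetherianRing B] :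
    IsNoetherianRing (lo A B) := by
  classical
  rw [isNoetherianRing_iff_ideal_fg]
  intro I
  let ι : B →+* lo A B := Subring.inclusion (le_lo A B)
  obtain ⟨S, hS⟩ := (IsNoetherian.noetherian (I.comap ι) : (I.comap ι).FG)
  have hS : Ideal.span (S : Set B) = I.comap ι := hS
  have h1 : I = (I.comap ι).map ι := by
    apply le_antisymm
    · rintro ⟨z, a, ha, b, hb, hb0, hbA, rfl⟩ hz
      have hbi : b⁻¹ ∈ lo A B := inv_mem_lo hB (le_lo A B hb) hb0 hbA
      have h2 : (⟨a, ha⟩ : B) ∈ I.comap ι := by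
        rw [Ideal.mem_comap]
        have h3 : ι ⟨a, ha⟩ = ⟨b, le_lo A B hb⟩ * ⟨a * b⁻¹, a, ha, b, hb, hb0, hbA, rfl⟩ := by
          apply Subtype.ext
          change a = b * (a * b⁻¹)
          field_simp
        rw [h3]
        exact I.mul_mem_left _ hz
      have h4 : (⟨a * b⁻¹, a, ha, b, hb, hb0, hbA, rfl⟩ : lo A B) = ⟨b⁻¹, hbi⟩ * ι ⟨a, ha⟩ := by
        apply Subtype.ext
        change a * b⁻¹ = b⁻¹ * a
        ring
      rw [h4]
      exact Ideal.mul_mem_left _ _ (Ideal.mem_map_of_mem ι h2)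
    · exact Ideal.map_comap_le
  rw [h1, ← hS, Ideal.map_span]
  exact ⟨S.image ι, by rw [Finset.coe_image]⟩

/-- Finitely generated algebras over noetherian rings are noetherian. -/
theorem noeth_cl {A : Subring K} [IsNoetherianRing A] {T : Set K} (hT : T.Finite) :
    IsNoetherianRing (Subring.closure ((A : Set K) ∪ T)) := by
  have h1 : (Algebra.adjoin A T).toSubring = Subring.closure ((A : Set K) ∪ T) := by
    rw [Algebra.adjoin_eq_ring_closure]
    congr 1
    ext z
    constructor
    · rintro (⟨a, rfl⟩ | h)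
      · exact Or.inl a.2
      · exact Or.inr h
    · rintro (h | h)
      · exact Or.inl ⟨⟨z, h⟩, rfl⟩
      · exact Or.inr h
  have h2 : IsNoetherianRing (Algebra.adjoin A T) := by
    have : Algebra.FiniteType A (Algebra.adjoin A T) :=
      (Subalgebra.fg_iff_finiteType _).1 ⟨hT.toFinset, by rw [hT.coe_toFinset]⟩
    exact Algebra.FiniteType.isNoetherianRing A _
  rw [← h1]
  exact h2

lemma Fg.noeth {A Q : Subring K} (hA : A ≤ V.toSubring) [IsNoetherianRing A] {g : K}
    (h : Fg V A Q g) : IsNoetherianRing Q := by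
  obtain ⟨hgA, hg0, T, hTf, hT, hQ⟩ := h
  have := noeth_cl (A := A) hTf
  rw [hQ]
  exact noeth_lo (cl_le hA fun t ht => (hT t ht).1)

/-- The state of the construction. -/
def St (V : ValuationSubring K) (A : Subring K) (g0 : K) (Q : Subring K) (G : Set K) : Prop :=
  ∃ (ι : Type) (_ : Fintype ι) (x : ι → K) (g h : K), RegP V.toSubring Q x ∧
    (∀ w ∈ G, PMon Q x w) ∧ Fg V A Q g ∧ (∃ k : ℕ, g = g0 ^ k * h) ∧ PMon Q x h

lemma St.noeth {A : Subring K} {g0 : K} {Q : Subring K} {G : Set K} (h : St V A g0 Q G) :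
    IsNoetherianRing Q := by
  obtain ⟨ι, _, x, g, h, h1, -⟩ := h
  have := h1.reg
  infer_instance

theorem St.step {A : Subring K} (hA : A ≤ V.toSubring) {g0 : K} {Q : Subring K} {G : Set K}
    (h : St V A g0 Q G) {e : K} (he : Mi V.toSubring Q e) :
    St V A g0 (qt V.toSubring Q) (insert e G) := by
  have hno := h.noeth
  obtain ⟨ι, _, x, g, h, h1, h2, h3, ⟨k, hk⟩, h5⟩ := h
  obtain ⟨κ, _, x', hx', hmon, hme⟩ := regP_step (loc_V V) h1 he
  obtain ⟨g', u, l, hu0, hu1, hu2, hg', hFg⟩ := h3.step hA he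
  refine ⟨κ, inferInstance, x', g', h ^ l * (u * e), hx', ?_, hFg, ⟨k * l, ?_⟩, ?_⟩
  · rintro w (rfl | hw)
    · exact hme
    · exact hmon w (h2 w hw)
  · rw [hg', hk, mul_pow, ← pow_mul]
    ring
  · exact (PMon.pow hx'.ne (hmon h h5) l).mul hx'.ne
      ((PMon.unit hu0 (le_qt _ _ hu1) (le_qt _ _ hu2)).mul hx'.ne hme)

lemma St.mono {A : Subring K} {g0 : K} {Q : Subring K} {G G' : Set K} (h : St V A g0 Q G)
    (hG : G' ⊆ G) : St V A g0 Q G' := by
  obtain ⟨ι, _, x, g, h, h1, h2, h3, h4, h5⟩ := h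
  exact ⟨ι, inferInstance, x, g, h, h1, fun w hw => h2 w (hG hw), h3, h4, h5⟩

lemma St.mul {A : Subring K} {g0 : K} {Q : Subring K} {G : Set K} {a b : K}
    (h : St V A g0 Q (insert a (insert b G))) : St V A g0 Q (insert (b * a) G) := by
  obtain ⟨ι, _, x, g, h, h1, h2, h3, h4, h5⟩ := h
  refine ⟨ι, inferInstance, x, g, h, h1, ?_, h3, h4, h5⟩
  rintro w (rfl | hw)
  · exact (h2 b (Or.inr (Or.inl rfl))).mul h1.ne (h2 a (Or.inl rfl))
  · exact h2 w (Or.inr (Or.inr hw))

lemma St.unit {A : Subring K} {g0 : K} {Q : Subring K} {G : Set K} {a u : K}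
    (h : St V A g0 Q (insert a G)) (h0 : u ≠ 0) (h1 : u ∈ Q) (hu : u⁻¹ ∈ V) :
    St V A g0 Q (insert (u * a) G) := by
  obtain ⟨ι, _, x, g, h, h3, h2, h6, h4, h5⟩ := h
  refine ⟨ι, inferInstance, x, g, h, h3, ?_, h6, h4, h5⟩
  rintro w (rfl | hw)
  · exact (PMon.unit h0 h1 (h3.inv u h1 h0 hu)).mul h3.ne (h2 a (Or.inl rfl))
  · exact h2 w (Or.inr hw)

section seq

variable {A : Subring K} (hA : A ≤ V.toSubring) {Q : ℕ → Subring K}
  (hQs : ∀ n, Q (n + 1) = qt V.toSubring (Q n)) (hQV : ∀ n, Q n ≤ V.toSubring)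
  (hmi : ∀ n, ∃ e, Mi V.toSubring (Q n) e) (hdv : Dv V Q)

include hA hQs hQV hmi hdv

/-- Nonzero elements become monomials. -/
theorem St.monomial {g0 : K} {G : Set K} (h : St V A g0 (Q 0) G) {a : K} (ha : a ∈ Q 0)
    (ha0 : a ≠ 0) : ∃ n, St V A g0 (Q n) (insert a G) := by
  classical
  by_contra hcon
  have key : ∀ k, ∃ E : ℕ → K, (∀ i < k, E i ∈ Q i ∧ E i ≠ 0 ∧ V.valuation (E i) < 1) ∧
      a * (∏ i ∈ Finset.range k, E i)⁻¹ ∈ Q k ∧
      St V A g0 (Q k) (insert (∏ i ∈ Finset.range k, E i) G) := by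
    intro k
    induction k with
    | zero =>
      refine ⟨fun _ => 1, fun i hi => absurd hi (Nat.not_lt_zero i), by simpa using ha, ?_⟩
      obtain ⟨ι, _, x, g, h, h1, h2, h3, h4, h5⟩ := h
      refine ⟨ι, inferInstance, x, g, h, h1, ?_, h3, h4, h5⟩
      rintro w (rfl | hw)
      · rw [Finset.prod_range_zero]
        exact PMon.one
      · exact h2 w hw
    | succ k ih =>
      obtain ⟨E, hE, hEa, hEs⟩ := ih
      obtain ⟨e, he⟩ := hmi k
      have hPE : ∏ i ∈ Finset.range k, E i ≠ 0 :=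
        Finset.prod_ne_zero_iff.2 fun i hi => (hE i (Finset.mem_range.1 hi)).2.1
      -- the quotient is a nonunit
      have hnu : NU V.toSubring (a * (∏ i ∈ Finset.range k, E i)⁻¹) := by
        rintro ⟨h1, h2⟩
        apply hcon
        refine ⟨k, ?_⟩
        have h3 := hEs.unit h1 hEa h2
        rwa [inv_mul_cancel_right₀ hPE] at h3
      have hprod : ∏ i ∈ Finset.range (k + 1), Function.update E k e i =
          (∏ i ∈ Finset.range k, E i) * e := by
        rw [Finset.prod_range_succ, Function.update_self]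
        congr 1
        refine Finset.prod_congr rfl fun i hi => ?_
        rw [Function.update_of_ne (Finset.mem_range.1 hi).ne]
      refine ⟨Function.update E k e, ?_, ?_, ?_⟩
      · intro i hi
        by_cases hik : i = k
        · subst hik
          rw [Function.update_self]
          exact ⟨he.mem, he.ne, he.lt⟩
        · rw [Function.update_of_ne hik]
          exact hE i (by omega)
      · rw [hprod, mul_inv, ← mul_assoc, hQs]
        exact div_mem_qt he hEa hnu
      · rw [hprod, hQs]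
        exact (hEs.step hA he).mul
  obtain ⟨n, hn⟩ := hdv a ha0
  obtain ⟨E, hE, hEa, -⟩ := key n
  exact hn E hE (hQV n hEa)

/-- The union of the sequence is the valuation ring. -/
theorem exists_mem {a b : K} (ha : a ∈ Q 0) (hb : b ∈ Q 0) (hb0 : b ≠ 0) (hw : a * b⁻¹ ∈ V) :
    ∃ n, a * b⁻¹ ∈ Q n := by
  classical
  by_contra hcon
  have hIC : ∀ n, 0 < n → IC V.toSubring (Q n) := by
    intro n hn
    obtain ⟨n, rfl⟩ := Nat.exists_eq_succ_of_ne_zero hn.ne'
    rw [Nat.succ_eq_add_one, hQs]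
    exact ic_qt (hQV n)
  have hmono : ∀ n, Q n ≤ Q (n + 1) := fun n => by rw [hQs]; exact le_qt _ _
  have key : ∀ k, ∃ E : ℕ → K, (∀ i < k, E i ∈ Q i ∧ E i ≠ 0 ∧ V.valuation (E i) < 1) ∧
      a * (∏ i ∈ Finset.range k, E i)⁻¹ ∈ Q k ∧ b * (∏ i ∈ Finset.range k, E i)⁻¹ ∈ Q k := by
    intro k
    induction k with
    | zero =>
      exact ⟨fun _ => 1, fun i hi => absurd hi (Nat.not_lt_zero i), by simpa using ha,
        by simpa using hb⟩
    | succ k ih =>
      obtain ⟨E, hE, hEa, hEb⟩ := ih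
      obtain ⟨e, he⟩ := hmi k
      have hPE : ∏ i ∈ Finset.range k, E i ≠ 0 :=
        Finset.prod_ne_zero_iff.2 fun i hi => (hE i (Finset.mem_range.1 hi)).2.1
      have hnub : NU V.toSubring (b * (∏ i ∈ Finset.range k, E i)⁻¹) := by
        rintro ⟨h1, h2⟩
        apply hcon
        refine ⟨k + 1, ?_⟩
        have h3 := hIC (k + 1) (Nat.succ_pos k) _ (hmono k hEb) h1 h2
        have h4 := (Q (k + 1)).mul_mem (hmono k hEa) h3
        have h5 : a * (∏ i ∈ Finset.range k, E i)⁻¹ * (b * (∏ i ∈ Finset.range k, E i)⁻¹)⁻¹ =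
            a * b⁻¹ := by
          field_simp
        rwa [h5] at h4
      have hnua : NU V.toSubring (a * (∏ i ∈ Finset.range k, E i)⁻¹) := by
        have h5 : a * (∏ i ∈ Finset.range k, E i)⁻¹ =
            a * b⁻¹ * (b * (∏ i ∈ Finset.range k, E i)⁻¹) := by
          field_simp
        rw [h5]
        exact NU.mul hw hnub
      have hprod : ∏ i ∈ Finset.range (k + 1), Function.update E k e i =
          (∏ i ∈ Finset.range k, E i) * e := by
        rw [Finset.prod_range_succ, Function.update_self]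
        congr 1
        refine Finset.prod_congr rfl fun i hi => ?_
        rw [Function.update_of_ne (Finset.mem_range.1 hi).ne]
      refine ⟨Function.update E k e, ?_, ?_, ?_⟩
      · intro i hi
        by_cases hik : i = k
        · subst hik
          rw [Function.update_self]
          exact ⟨he.mem, he.ne, he.lt⟩
        · rw [Function.update_of_ne hik]
          exact hE i (by omega)
      · rw [hprod, mul_inv, ← mul_assoc, hQs]
        exact div_mem_qt he hEa hnua
      · rw [hprod, mul_inv, ← mul_assoc, hQs]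
        exact div_mem_qt he hEb hnub
  obtain ⟨n, hn⟩ := hdv b hb0
  obtain ⟨E, hE, -, hEb⟩ := key n
  exact hn E hE (hQV n hEb)

end seq

lemma gen_div {A P : Subring K} (hAP : A ≤ P) {S : Set A} {f : K}
    (h : ∀ a ∈ S, (a : K) / f ∈ P) {a : A} (ha : a ∈ Ideal.span S) : (a : K) / f ∈ P := by
  induction ha using Submodule.span_induction with
  | mem a ha => exact h a ha
  | zero => rw [ZeroMemClass.coe_zero, zero_div]; exact P.zero_mem
  | add a b _ _ ha hb =>
    have h1 : ((a + b : A) : K) / f = (a : K) / f + (b : K) / f := add_div _ _ _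
    rw [h1]
    exact P.add_mem ha hb
  | smul c a _ ha =>
    have h1 : ((c • a : A) : K) / f = (c : K) * ((a : K) / f) := mul_div_assoc _ _ _
    rw [h1]
    exact P.mul_mem (hAP c.2) ha

end Pool.Agent.TH188.QS
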