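import Pool.Agent.H59.L.S8.TH188.QS.Down2

/-!
# Log uniformization and finite sets of elements
-/

set_option autoImplicit false
set_option linter.unusedVariables false
set_option linter.unusedSectionVars false

universe u v

namespace Pool.Agent.TH188.QS

open IsLocalRing Pool.Agent.W418.LU2

variable {K : Type u} [Field K] {V : ValuationSubring K}

/-- The fractions of elements of `A`. -/
def Fr (A : Subring K) (h : K) : Prop := ∃ a ∈ A, ∃ b ∈ A, b ≠ 0 ∧ h = a * b⁻¹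

lemma Fr.of_mem {A : Subring K} {h : K} (hh : h ∈ A) : Fr A h :=
  ⟨h, hh, 1, A.one_mem, one_ne_zero, by rw [inv_one, mul_one]⟩

/-- Finitely many elements become monomials, and finitely many elements of the valuation ring
become elements of a regular local ring. -/
def GP (V : ValuationSubring K) (A : Subring K) : Prop :=
  ∀ G H : Set K, G.Finite → H.Finite → (∀ h ∈ G, h ≠ 0 ∧ Fr A h) → (∀ h ∈ H, h ∈ V ∧ Fr A h) →
    ∃ (ι : Type) (_ : Fintype ι) (x : ι → K) (P : Subring K) (g : K),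
      RegP V.toSubring P x ∧ Fg V A P g ∧ PMon P x g ∧ (∀ h ∈ G, PMon P x h) ∧ ∀ h ∈ H, h ∈ P

theorem GP.logUnif {A : Subring K} (hA : A ≤ V.toSubring) [IsNoetherianRing A] (h : GP V A) :
    LogUnif V A := by
  classical
  intro D I₀ hD hI₀
  obtain ⟨S, hS⟩ := (IsNoetherian.noetherian D : D.FG)
  obtain ⟨S', hS'⟩ := (IsNoetherian.noetherian I₀ : I₀.FG)
  have hS : Ideal.span (S : Set A) = D := hS
  have hS' : Ideal.span (S' : Set A) = I₀ := hS'
  obtain ⟨d, hdS, hd0, hd⟩ := exists_gen V hA S.finite_toSet (by rw [hS]; exact hD)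
  obtain ⟨f, hfS, hf0, hf⟩ := exists_gen V hA S'.finite_toSet (by rw [hS']; exact hI₀)
  have hdD : d ∈ D := by rw [← hS]; exact Ideal.subset_span hdS
  have hfI : f ∈ I₀ := by rw [← hS']; exact Ideal.subset_span hfS
  have hd0' : (d : K) ≠ 0 := fun h => hd0 (Subtype.ext h)
  have hf0' : (f : K) ≠ 0 := fun h => hf0 (Subtype.ext h)
  obtain ⟨ι, _, x, P, g, hreg, hFgM, hgmon, hG, hH⟩ := h {(d : K) * f}
    (((fun a : A => (a : K) / d) '' S) ∪ ((fun a : A => (a : K) / f) '' S'))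
    (Set.finite_singleton _) ((S.finite_toSet.image _).union (S'.finite_toSet.image _))
    (fun h hh => by
      rw [Set.mem_singleton_iff.1 hh]
      exact ⟨mul_ne_zero hd0' hf0', Fr.of_mem (A.mul_mem d.2 f.2)⟩) (by
      rintro _ (⟨a, ha, rfl⟩ | ⟨a, ha, rfl⟩)
      · exact ⟨hd a (Ideal.subset_span ha), a, a.2, d, d.2, hd0', div_eq_mul_inv _ _⟩
      · exact ⟨hf a (Ideal.subset_span ha), a, a.2, f, f.2, hf0', div_eq_mul_inv _ _⟩)
  have hdf : PMon P x ((d : K) * f) := hG _ rfl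
  obtain ⟨hgA, hgne, T, hTf, hT, hQM⟩ := hFgM
  have hBQ : Subring.closure ((A : Set K) ∪ T) ≤ P := by rw [hQM]; exact le_lo _ _
  have hAQ : A ≤ P := fun a ha => hBQ (Subring.subset_closure (Or.inl ha))
  have hDQ : ∀ a ∈ D, (a : K) / d ∈ P := by
    intro a ha
    rw [← hS] at ha
    exact gen_div hAQ (fun a ha => hH _ (Or.inl ⟨a, ha, rfl⟩)) ha
  have hIQ : ∀ a ∈ I₀, (a : K) / f ∈ P := by
    intro a ha
    rw [← hS'] at ha
    exact gen_div hAQ (fun a ha => hH _ (Or.inr ⟨a, ha, rfl⟩)) ha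
  let gA : A := ⟨g, hgA⟩
  let U : Set A := insert gA {a | ∃ t ∈ T, (a : K) = t * g}
  have hgU : gA ∈ Ideal.span U := Ideal.subset_span (Set.mem_insert _ _)
  have hUQ : ∀ a ∈ Ideal.span U, (a : K) / g ∈ P := by
    intro a ha
    refine gen_div hAQ (fun a ha => ?_) ha
    rcases ha with rfl | ⟨t, ht, hat⟩
    · change g / g ∈ P
      rw [div_self hgne]
      exact P.one_mem
    · rw [hat, mul_div_cancel_right₀ _ hgne]
      exact hBQ (Subring.subset_closure (Or.inr ht))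
  have hgA0 : gA ≠ 0 := fun h => hgne (congrArg Subtype.val h)
  refine ⟨Ideal.span U, ?_, ?_⟩
  · intro h
    rw [h, Ideal.mem_bot] at hgU
    exact hgA0 hgU
  have hfg : f * gA ∈ I₀ * Ideal.span U := Ideal.mul_mem_mul hfI hgU
  have hIU : ∀ a ∈ I₀ * Ideal.span U, (a : K) / ((f * gA : A) : K) ∈ P := by
    intro a ha
    refine Submodule.mul_induction_on ha ?_ ?_
    · intro b hb c hc
      have h3 : ((b * c : A) : K) / ((f * gA : A) : K) = (b : K) / (f : K) * ((c : K) / g) := by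
        change (b : K) * (c : K) / ((f : K) * g) = _
        field_simp
      rw [h3]
      exact P.mul_mem (hIQ b hb) (hUQ c hc)
    · intro b c hb hc
      have h3 : ((b + c : A) : K) / ((f * gA : A) : K) = (b : K) / ((f * gA : A) : K) +
          (c : K) / ((f * gA : A) : K) := add_div _ _ _
      rw [h3]
      exact P.add_mem hb hc
  refine logDesing_of hfg (mul_ne_zero hf0 hgA0) (fun a ha => hreg.PA (hIU a ha)) hdD hd0 ?_ hreg
    hDQ ?_
  · apply le_antisymm
    · nth_rewrite 1 [hQM]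
      refine lo_le_lo (cl_le hA fun t ht => (hT t ht).1) ?_
      rw [← hQM]
      unfold chart
      rw [Subring.closure_le]
      rintro z (hz | ⟨a, ha, rfl⟩)
      · exact hAQ hz
      · exact hIU a ha
    · nth_rewrite 1 [hQM]
      refine lo_mono ?_
      rw [Subring.closure_le]
      rintro z (hz | hz)
      · exact Subring.subset_closure (Or.inl hz)
      · have h3 : (⟨z * g, (hT z hz).2⟩ : A) ∈ Ideal.span U :=
          Ideal.subset_span (Or.inr ⟨z, hz, rfl⟩)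
        refine Subring.subset_closure (Or.inr ⟨f * ⟨z * g, (hT z hz).2⟩,
          Ideal.mul_mem_mul hfI h3, ?_⟩)
        change z = (f : K) * (z * g) / ((f : K) * g)
        field_simp
  · have h3 : (d : K) * ((f * gA : A) : K) = (d : K) * f * g := by
      change (d : K) * ((f : K) * g) = _
      ring
    rw [h3]
    exact hdf.mul hreg.ne hgmon

section seq

variable {A : Subring K} (hA : A ≤ V.toSubring) [IsNoetherianRing A]
  (hne0 : ∃ y ∈ A, y ≠ 0 ∧ V.valuation y < 1) {Q : ℕ → Subring K}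
  (hQ0 : Q 0 = lo V.toSubring A) (hQs : ∀ n, Q (n + 1) = qt V.toSubring (Q n))

include hA hne0 hQ0 hQs

omit [IsNoetherianRing A] in
/-- The elementary properties of the sequence. -/
theorem seq_basic : (∀ n, Q n ≤ V.toSubring) ∧ Monotone Q ∧ (∀ n, A ≤ Q n) ∧
    (∀ n, IC V.toSubring (Q n)) ∧ ∀ n, ∃ z ∈ Q n, z ≠ 0 ∧ V.valuation z < 1 := by
  have hQV : ∀ n, Q n ≤ V.toSubring := by
    intro n
    induction n with
    | zero => rw [hQ0]; exact lo_le hA
    | succ n ih => rw [hQs]; exact qt_le ih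
  have hmono1 : ∀ n, Q n ≤ Q (n + 1) := fun n => by rw [hQs]; exact le_qt _ _
  have hmono : Monotone Q := monotone_nat_of_le_succ hmono1
  have hAQ : ∀ n, A ≤ Q n := fun n =>
    le_trans (by rw [hQ0]; exact le_lo _ _) (hmono (Nat.zero_le n))
  have hIC : ∀ n, IC V.toSubring (Q n) := by
    intro n
    rcases n with _ | n
    · rw [hQ0]; exact ic_lo hA
    · rw [hQs]; exact ic_qt (hQV n)
  refine ⟨hQV, hmono, hAQ, hIC, fun n => ?_⟩
  obtain ⟨y, hy, h1⟩ := hne0
  exact ⟨y, hAQ n hy, h1⟩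

theorem seq_fg : (∀ n, ∃ g, Fg V A (Q n) g) ∧ ∀ n, ∃ e, Mi V.toSubring (Q n) e := by
  obtain ⟨hQV, hmono, hAQ, hIC, hne⟩ := seq_basic hA hne0 hQ0 hQs
  have hFg : ∀ n, ∃ g, Fg V A (Q n) g := by
    intro n
    induction n with
    | zero =>
      refine ⟨1, A.one_mem, one_ne_zero, ∅, Set.finite_empty, fun t ht => ht.elim, ?_⟩
      rw [Set.union_empty, Subring.closure_eq, hQ0]
    | succ n ih =>
      obtain ⟨g, hg⟩ := ih
      have := hg.noeth hA
      obtain ⟨e, he⟩ := exists_mi (hQV n) (hne n)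
      obtain ⟨g', _, _, _, _, _, _, h⟩ := hg.step hA he
      exact ⟨g', by rw [hQs]; exact h⟩
  refine ⟨hFg, fun n => ?_⟩
  obtain ⟨g, hg⟩ := hFg n
  have := hg.noeth hA
  exact exists_mi (hQV n) (hne n)

/-- Divergent sequences of quadratic transforms. -/
theorem gp_of (hdv : Dv V Q) (m : ℕ) (hm : IsRegularLocalRing (Q m)) : GP V A := by
  classical
  obtain ⟨hQV, hmono, hAQ, hIC, hne⟩ := seq_basic hA hne0 hQ0 hQs
  obtain ⟨hFg, hmi⟩ := seq_fg hA hne0 hQ0 hQs
  obtain ⟨g0, hg0⟩ := hFg m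
  have hg0A : g0 ∈ A := hg0.1
  have hg00 : g0 ≠ 0 := hg0.2.1
  -- the regular stages
  have hSt : ∀ n, St V A g0 (Q (m + n)) ∅ := by
    intro n
    induction n with
    | zero =>
      refine ⟨Empty, inferInstance, Empty.elim, g0, 1, RegP.of_reg (hQV m) (hIC m) hm,
        fun w hw => hw.elim, hg0, ⟨1, by rw [pow_one, mul_one]⟩, PMon.one⟩
    | succ n ih =>
      obtain ⟨e, he⟩ := hmi (m + n)
      have h1 := (ih.step hA he).mono (Set.empty_subset _)
      rw [← hQs] at h1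
      exact h1
  have hshift : ∀ k, Dv V (fun i => Q (k + i)) := fun k => hdv.shift k hQV hne
  have hmem : ∀ w ∈ V, Fr A w → ∃ n, w ∈ Q n := by
    rintro w hw ⟨a, ha, b, hb, hb0, rfl⟩
    exact exists_mem hA hQs hQV hmi hdv (hAQ 0 ha) (hAQ 0 hb) hb0 hw
  have hfin : ∀ W : Set K, W.Finite → (∀ w ∈ W, w ∈ V ∧ Fr A w) → ∃ N, ∀ n, N ≤ n →
      ∀ w ∈ W, w ∈ Q n := by
    intro W hW hWV
    have hch : ∀ w : K, ∃ n, w ∈ W → w ∈ Q n := by
      intro w
      by_cases hw : w ∈ W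
      · obtain ⟨n, hn⟩ := hmem w (hWV w hw).1 (hWV w hw).2
        exact ⟨n, fun _ => hn⟩
      · exact ⟨0, fun h => absurd h hw⟩
    choose nn hnn using hch
    refine ⟨hW.toFinset.sup nn, fun n hn w hw => ?_⟩
    exact hmono (le_trans (Finset.le_sup (hW.mem_toFinset.2 hw)) hn) (hnn w hw)
  have hadd : ∀ k n : ℕ, Q (k + (n + 1)) = qt V.toSubring (Q (k + n)) := fun k n => by
    rw [← hQs]; rfl
  -- monomialization
  have hmon : ∀ N, ∀ W : Set K, W.Finite → (∀ w ∈ W, w ∈ A ∧ w ≠ 0) →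
      ∃ n, m + N ≤ n ∧ St V A g0 (Q n) W := by
    intro N W hW
    induction W, hW using Set.Finite.induction_on with
    | empty => exact fun _ => ⟨m + N, le_rfl, hSt N⟩
    | insert _ _ ih =>
      rename_i a W _ _
      intro hWA
      obtain ⟨n, hn, hs⟩ := ih fun w hw => hWA w (Or.inr hw)
      obtain ⟨n1, h1⟩ := St.monomial hA (Q := fun i => Q (n + i))
        (fun k => hadd _ k) (fun k => hQV _) (fun k => hmi _) (hshift _)
        hs (hAQ _ (hWA a (Or.inl rfl)).1) (hWA a (Or.inl rfl)).2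
      exact ⟨n + n1, by omega, h1⟩
  intro G H hGf hHf hG hH
  obtain ⟨N, hN⟩ := hfin H hHf hH
  have hfr : ∀ w : K, ∃ a b : K, w ∈ G → a ∈ A ∧ b ∈ A ∧ b ≠ 0 ∧ w = a * b⁻¹ := by
    intro w
    by_cases hw : w ∈ G
    · obtain ⟨a, ha, b, hb, hb0, h⟩ := (hG w hw).2
      exact ⟨a, b, fun _ => ⟨ha, hb, hb0, h⟩⟩
    · exact ⟨0, 0, fun h => absurd h hw⟩
  choose num den hnd using hfr
  have hnum0 : ∀ w ∈ G, num w ≠ 0 := by
    intro w hw h0
    apply (hG w hw).1
    rw [(hnd w hw).2.2.2, h0, zero_mul]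
  obtain ⟨n, hn, ι, _, x, g, h, hreg, hW, hFgM, ⟨k, hk⟩, hh⟩ := hmon N
    (insert g0 ((num '' G) ∪ (den '' G)))
    (((hGf.image _).union (hGf.image _)).insert _) (by
      rintro w (rfl | ⟨w, hw, rfl⟩ | ⟨w, hw, rfl⟩)
      · exact ⟨hg0A, hg00⟩
      · exact ⟨(hnd w hw).1, hnum0 w hw⟩
      · exact ⟨(hnd w hw).2.1, (hnd w hw).2.2.1⟩)
  refine ⟨ι, inferInstance, x, Q n, g, hreg, hFgM, ?_, ?_, fun w hw => hN n (by omega) w hw⟩
  · rw [hk]
    exact (PMon.pow hreg.ne (hW g0 (Or.inl rfl)) k).mul hreg.ne hh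
  · intro w hw
    rw [(hnd w hw).2.2.2]
    exact (hW _ (Or.inr (Or.inl ⟨w, hw, rfl⟩))).mul hreg.ne
      (hW _ (Or.inr (Or.inr ⟨w, hw, rfl⟩))).inv

end seq

/-- The trivial case. -/
theorem gp_trivial {A : Subring K} (hA : A ≤ V.toSubring) (hno : ∀ y ∈ A, y ≠ 0 → y⁻¹ ∈ V) :
    GP V A := by
  have hloc : IsLocalRing (lo V.toSubring A) := isLocalRing_lo (loc_V V) hA
  have hunit : ∀ h : K, h ≠ 0 → Fr A h → h ∈ lo V.toSubring A ∧ h⁻¹ ∈ lo V.toSubring A := by
    rintro h h0 ⟨a, ha, b, hb, hb0, rfl⟩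
    have ha0 : a ≠ 0 := left_ne_zero_of_mul h0
    refine ⟨⟨a, ha, b, hb, hb0, hno b hb hb0, rfl⟩, b, hb, a, ha, ha0, hno a ha ha0, ?_⟩
    rw [mul_inv, inv_inv, mul_comm]
  have hmax : maximalIdeal (lo V.toSubring A) = ⊥ := by
    rw [eq_bot_iff]
    rintro ⟨z, a, ha, b, hb, hb0, hbV, rfl⟩ hz
    rw [mem_maximalIdeal, mem_nonunits_iff, isUnit_lo_iff hA] at hz
    by_contra h0
    apply hz
    have h1 : a * b⁻¹ ≠ 0 := fun h => h0 (Subtype.ext h)
    exact ⟨h1, lo_le hA (hunit _ h1 ⟨a, ha, b, hb, hb0, rfl⟩).2⟩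
  have hnoe : IsNoetherianRing (lo V.toSubring A) := by
    rw [isNoetherianRing_iff_ideal_fg]
    intro I
    by_cases hI : I = ⊤
    · rw [hI]
      exact ⟨{1}, by rw [Finset.coe_singleton]; exact Ideal.span_singleton_one⟩
    · have h1 := IsLocalRing.le_maximalIdeal hI
      rw [hmax, le_bot_iff] at h1
      rw [h1]
      exact Submodule.fg_bot
  have hreg : IsRegularLocalRing (lo V.toSubring A) := by
    apply IsRegularLocalRing.of_spanFinrank_maximalIdeal_le
    rw [hmax, Submodule.spanFinrank_bot]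
    exact ringKrullDim_nonneg_of_nontrivial
  intro G H hGf hHf hG hH
  refine ⟨Empty, inferInstance, Empty.elim, lo V.toSubring A, 1,
    RegP.of_reg (lo_le hA) (ic_lo hA) hreg, ⟨A.one_mem, one_ne_zero, ∅, Set.finite_empty,
      fun t ht => ht.elim, by rw [Set.union_empty, Subring.closure_eq]⟩, PMon.one, ?_, ?_⟩
  · intro h hh
    obtain ⟨h1, h2⟩ := hunit h (hG h hh).1 (hG h hh).2
    exact PMon.unit (hG h hh).1 h1 h2
  · intro h hh
    by_cases h0 : h = 0
    · rw [h0]; exact Subring.zero_mem _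
    · exact (hunit h h0 (hH h hh).2).1

end Pool.Agent.TH188.QS
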