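import Pool.Agent.H59.L.S8.TH188.QS.FF2

/-!
# Derivations from p-bases
-/

set_option autoImplicit false
set_option linter.unusedVariables false
set_option linter.unusedSectionVars false

universe u v

namespace Pool.Agent.TH188.QS

open IsLocalRing Pool.Agent.W418.LU2

theorem krull_sup {B : Type u} [CommRing B] [IsLocalRing B] [IsNoetherianRing B] {I : Ideal B}
    {t : B} (ht : t ∈ maximalIdeal B) {x : B} (h : ∀ N : ℕ, x ∈ I ⊔ Ideal.span {t ^ N}) :
    x ∈ I := by
  have h1 : (Ideal.Quotient.mk I x : B ⧸ I) ∈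
      (⨅ i : ℕ, maximalIdeal B ^ i • (⊤ : Submodule B (B ⧸ I))) := by
    rw [Submodule.mem_iInf]
    intro N
    obtain ⟨a, ha, b, hb, hab⟩ := Submodule.mem_sup.1 (h N)
    obtain ⟨c, rfl⟩ := Ideal.mem_span_singleton'.1 hb
    have h2 : Ideal.Quotient.mk I x = (t ^ N) • Ideal.Quotient.mk I c := by
      rw [← hab, map_add, Ideal.Quotient.eq_zero_iff_mem.2 ha, zero_add, mul_comm]
      rfl
    rw [h2]
    exact Submodule.smul_mem_smul (Ideal.pow_mem_pow ht N) trivial
  rw [Ideal.iInf_pow_smul_eq_bot_of_isLocalRing _ (maximalIdeal.isMaximal B).ne_top] at h1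
  exact Ideal.Quotient.eq_zero_iff_mem.1 ((Submodule.mem_bot _).1 h1)

/-- Parameters and lifts of a `p`-basis of the residue field are `p`-independent. -/
theorem exists_PI {p : ℕ} [hp : Fact p.Prime] {B : Type u} [CommRing B] [IsRegularLocalRing B]
    {r : ℕ} {e : Fin r → B} (he : Ind e) (hspan : Ideal.span (Set.range e) = maximalIdeal B)
    {ι : Type} [Fintype ι] [DecidableEq ι] {z : ι → B} (hz : PI p (maximalIdeal B) z) (m : ℕ) :
    m ≤ r → ∃ (ι' : Type) (_ : Fintype ι') (_ : DecidableEq ι') (y : ι' → B),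
      PI p (Ideal.span (e '' {k | m ≤ (k : ℕ)})) y ∧
      (∀ k : Fin r, (k : ℕ) < m → ∃ i, y i = e k) ∧ (∀ i, ∃ i', y i' = z i) := by
  induction m with
  | zero =>
    intro _
    refine ⟨ι, inferInstance, inferInstance, z, ?_, fun k hk => absurd hk (Nat.not_lt_zero _),
      fun i => ⟨i, rfl⟩⟩
    have h1 : e '' {k | 0 ≤ (k : ℕ)} = Set.range e := by
      rw [← Set.image_univ]
      congr 1
      ext k
      simp
    rw [h1, hspan]
    exact hz
  | succ m ih =>
    intro hm
    obtain ⟨ι', _, _, y, h1, h2, h3⟩ := ih (by omega)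
    let k₀ : Fin r := ⟨m, hm⟩
    have hI := span_prime he {k : Fin r | m + 1 ≤ (k : ℕ)}
    have ht := not_mem_span he {k : Fin r | m + 1 ≤ (k : ℕ)} k₀ (by
      change ¬ (m + 1 ≤ m)
      omega)
    have hJ : Ideal.span (e '' {k : Fin r | m ≤ (k : ℕ)}) =
        Ideal.span (e '' {k : Fin r | m + 1 ≤ (k : ℕ)}) ⊔ Ideal.span {e k₀} := by
      rw [← Ideal.span_union]
      congr 1
      ext x
      constructor
      · rintro ⟨k, hk, rfl⟩
        rcases Nat.lt_or_ge m (k : ℕ) with h | h
        · exact Or.inl ⟨k, h, rfl⟩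
        · right
          have h4 : k = k₀ := Fin.ext (le_antisymm h hk)
          rw [h4]
          exact rfl
      · rintro (⟨k, hk, rfl⟩ | hx)
        · exact ⟨k, le_trans (Nat.le_succ m) hk, rfl⟩
        · rw [Set.mem_singleton_iff] at hx
          rw [hx]
          exact ⟨k₀, le_refl m, rfl⟩
    refine ⟨Option ι', inferInstance, inferInstance, fun o => o.elim (e k₀) y,
      PI.option ht hJ (fun x hx => krull_sup (he.1 k₀) hx) h1, ?_, ?_⟩
    · intro k hk
      rcases Nat.lt_or_ge (k : ℕ) m with h | h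
      · obtain ⟨i, hi⟩ := h2 k h
        exact ⟨some i, hi⟩
      · have h4 : k = k₀ := Fin.ext (le_antisymm (Nat.lt_succ_iff.1 hk) h)
        rw [h4]
        exact ⟨none, rfl⟩
    · intro i
      obtain ⟨i', hi'⟩ := h3 i
      exact ⟨some i', hi'⟩

section der

variable {p : ℕ} [hp : Fact p.Prime] {B : Type u} [CommRing B] [CharP B p] {ι : Type} [Fintype ι]
  [DecidableEq ι] (y : ι → B)

open MvPolynomial

lemma theta_monomial (m : ι →₀ ℕ) (a : B) :
    eval₂Hom (frobenius B p) y (monomial m a) = a ^ p * ∏ i, y i ^ (m i) := by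
  rw [coe_eval₂Hom, eval₂_monomial, frobenius_def, Finsupp.prod_fintype]
  intro i
  rw [pow_zero]

theorem group (j : ι) (P : MvPolynomial ι B) : ∃ G : (ι → Fin p) → B,
    eval₂Hom (frobenius B p) y P = ∑ α, G α ^ p * ∏ i, y i ^ (α i : ℕ) ∧
    eval₂Hom (frobenius B p) y (pderiv j P) =
      ∑ α, G α ^ p * (((α j : ℕ) : B) * ∏ i, y i ^ ((α i : ℕ) - if i = j then 1 else 0)) := by
  classical
  induction P using MvPolynomial.induction_on' with
  | monomial m a =>
    let q : ι → Fin p := fun i => ⟨m i % p, Nat.mod_lt _ hp.out.pos⟩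
    have hpne : p ≠ 0 := hp.out.ne_zero
    refine ⟨Pi.single q (a * ∏ i, y i ^ (m i / p)), ?_, ?_⟩
    · rw [Fintype.sum_eq_single q, Pi.single_eq_same, theta_monomial, mul_pow, ← Finset.prod_pow,
        mul_assoc, ← Finset.prod_mul_distrib]
      · congr 1
        refine Finset.prod_congr rfl fun i _ => ?_
        rw [← pow_mul, ← pow_add]
        congr 1
        exact (Nat.div_add_mod' (m i) p).symm
      · intro β hβ
        rw [Pi.single_eq_of_ne hβ, zero_pow hpne, zero_mul]
    · rw [Fintype.sum_eq_single q, Pi.single_eq_same, pderiv_monomial, theta_monomial, mul_pow,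
        mul_pow, ← Finset.prod_pow]
      · have hcast : ((m j : ℕ) : B) ^ p = ((m j % p : ℕ) : B) := by
          rw [← frobenius_def, map_natCast]
          conv_lhs => rw [← Nat.div_add_mod (m j) p]
          rw [Nat.cast_add, Nat.cast_mul, CharP.cast_eq_zero, zero_mul, zero_add]
        rw [hcast]
        have hqj : ((q j : ℕ) : B) = ((m j % p : ℕ) : B) := rfl
        rw [hqj]
        rcases Nat.eq_zero_or_pos (m j % p) with h0 | h0
        · rw [h0, Nat.cast_zero]
          ring
        · have h1 : ∏ i, y i ^ ((m - Finsupp.single j 1 : ι →₀ ℕ) i) =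
              (∏ i, (y i ^ (m i / p)) ^ p) * ∏ i, y i ^ ((q i : ℕ) - if i = j then 1 else 0) := by
            rw [← Finset.prod_mul_distrib]
            refine Finset.prod_congr rfl fun i _ => ?_
            rw [← pow_mul, ← pow_add]
            congr 1
            rw [Finsupp.tsub_apply, Finsupp.single_apply]
            have h2 := Nat.div_add_mod' (m i) p
            have h3 : (q i : ℕ) = m i % p := rfl
            rw [h3]
            by_cases hij : j = i
            · subst hij
              rw [if_pos rfl]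
              omega
            · rw [if_neg hij, if_neg (fun h => hij h.symm)]
              omega
          rw [h1]
          ring
      · intro β hβ
        rw [Pi.single_eq_of_ne hβ, zero_pow hpne, zero_mul]
  | add P Q hP hQ =>
    obtain ⟨G, h1, h2⟩ := hP
    obtain ⟨H, h3, h4⟩ := hQ
    refine ⟨G + H, ?_, ?_⟩
    · rw [map_add, h1, h3, ← Finset.sum_add_distrib]
      refine Finset.sum_congr rfl fun α _ => ?_
      rw [Pi.add_apply, add_pow_char, add_mul]
    · rw [map_add, map_add, h2, h4, ← Finset.sum_add_distrib]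
      refine Finset.sum_congr rfl fun α _ => ?_
      rw [Pi.add_apply, add_pow_char, add_mul]

/-- The coordinate derivations of a `p`-basis. -/
theorem exists_der (hPI : PI p (⊥ : Ideal B) y)
    (hcl : ∀ x : B, x ∈ Subring.closure ({z | ∃ w : B, z = w ^ p} ∪ Set.range y)) (j : ι) :
    ∃ D : Derivation ℤ B B, ∀ i, D (y i) = if i = j then 1 else 0 := by
  classical
  let Θ : MvPolynomial ι B →+* B := eval₂Hom (frobenius B p) y
  have hsurj : Function.Surjective Θ := by
    intro x
    have h1 : Subring.closure ({z | ∃ w : B, z = w ^ p} ∪ Set.range y) ≤ Θ.range := by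
      rw [Subring.closure_le]
      rintro z (⟨w, rfl⟩ | ⟨i, rfl⟩)
      · exact ⟨C w, by rw [eval₂Hom_C, frobenius_def]⟩
      · exact ⟨X i, eval₂Hom_X' _ _ _⟩
    exact h1 (hcl x)
  have hker : ∀ P, Θ P = 0 → Θ (pderiv j P) = 0 := by
    intro P hP
    obtain ⟨G, h1, h2⟩ := group (p := p) y j P
    have h3 : ∀ α, G α ∈ (⊥ : Ideal B) := hPI G (by
      rw [← h1]
      exact (Submodule.mem_bot _).2 hP)
    change Θ (pderiv j P) = _ at h2
    rw [h2]
    refine Finset.sum_eq_zero fun α _ => ?_
    rw [(Submodule.mem_bot _).1 (h3 α), zero_pow hp.out.ne_zero, zero_mul]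
  have hker' : ∀ P Q, Θ P = Θ Q → Θ (pderiv j P) = Θ (pderiv j Q) := by
    intro P Q h
    have h1 := hker (P - Q) (by rw [map_sub, h, sub_self])
    rw [map_sub, map_sub] at h1
    exact sub_eq_zero.1 h1
  choose s hs using hsurj
  let D₀ : B →+ B := 
    { toFun := fun x => Θ (pderiv j (s x))
      map_zero' := by
        have h1 := hker' (s 0) 0 (by rw [hs, map_zero])
        rw [h1, map_zero, map_zero]
      map_add' := fun x x' => by
        have h1 := hker' (s (x + x')) (s x + s x') (by rw [hs, map_add, hs, hs])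
        rw [h1, map_add, map_add] }
  refine ⟨Derivation.mk' D₀.toIntLinearMap ?_, ?_⟩
  · intro a b
    change Θ (pderiv j (s (a * b))) = a • Θ (pderiv j (s b)) + b • Θ (pderiv j (s a))
    have h1 := hker' (s (a * b)) (s a * s b) (by rw [hs, map_mul, hs, hs])
    rw [h1, Derivation.leibniz, map_add, smul_eq_mul, smul_eq_mul, smul_eq_mul, smul_eq_mul,
      map_mul, map_mul, hs, hs]
  · intro i
    change Θ (pderiv j (s (y i))) = _
    have h1 := hker' (s (y i)) (X i) (by rw [hs]; exact (eval₂Hom_X' _ _ _).symm)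
    rw [h1, pderiv_X]
    by_cases hij : i = j
    · subst hij
      rw [Pi.single_eq_same, if_pos rfl, map_one]
    · rw [Pi.single_eq_of_ne hij, if_neg hij, map_zero]

end der

end Pool.Agent.TH188.QS
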