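import Pool.Agent.H59.L.S8.TH188.QS.Cls
import Pool.Agent.H59.L.S8.W418.LU2.Off
import Mathlib.RingTheory.EssentialFiniteness

/-!
# Local uniformization
-/

set_option autoImplicit false
set_option linter.unusedVariables false
set_option linter.unusedSectionVars false

universe u v

namespace Pool.Agent.TH188.QS

open IsLocalRing Pool.Agent.W418.LU2

/-- Local uniformization. -/
theorem lu_of_gp {K : Type u} [Field K] {V : ValuationSubring K} {B : Subring K} (h : GP V B) :
    ∃ T : Set K, T.Finite ∧ (∀ t ∈ T, t ∈ V) ∧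
      IsRegularLocalRing (lo V.toSubring (Subring.closure ((B : Set K) ∪ T))) := by
  obtain ⟨ι, _, x, P, g, hreg, ⟨-, -, T, hTf, hT, hP⟩, -, -, -⟩ := h ∅ ∅ Set.finite_empty
    Set.finite_empty (fun _ h => h.elim) (fun _ h => h.elim)
  refine ⟨T, hTf, fun t ht => (hT t ht).1, ?_⟩
  rw [← hP]
  exact hreg.reg

/-- Subalgebras and subrings. -/
theorem adjoin_toSubring {R K : Type u} [CommRing R] [Field K] [Algebra R K] (T : Set K) :
    (Algebra.adjoin R T).toSubring =
      Subring.closure (((algebraMap R K).range : Set K) ∪ T) := by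
  apply le_antisymm
  · intro z hz
    have hz' : z ∈ Algebra.adjoin R T := hz
    induction hz' using Algebra.adjoin_induction with
    | mem x hx => exact Subring.subset_closure (Or.inr hx)
    | algebraMap r => exact Subring.subset_closure (Or.inl ⟨r, rfl⟩)
    | add x y hx hy h1 h2 => exact Subring.add_mem _ (h1 hx) (h2 hy)
    | mul x y hx hy h1 h2 => exact Subring.mul_mem _ (h1 hx) (h2 hy)
  · rw [Subring.closure_le]
    rintro z (⟨r, rfl⟩ | hz)
    · exact (Algebra.adjoin R T).algebraMap_mem r
    · exact Algebra.subset_adjoin hz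

/-- The localization of a subalgebra at the centre. -/
theorem regular_centre {R K : Type u} [CommRing R] [Field K] [Algebra R K]
    {V : ValuationSubring K} {T : Set K}
    (hT : Subring.closure (((algebraMap R K).range : Set K) ∪ T) ≤ V.toSubring)
    (hreg : IsRegularLocalRing (lo V.toSubring
      (Subring.closure (((algebraMap R K).range : Set K) ∪ T)))) :
    (∀ b : Algebra.adjoin R T, (b : K) ∈ V) ∧
      ∃ P : Ideal (Algebra.adjoin R T), ∃ (_ : P.IsPrime),
        (∀ b : Algebra.adjoin R T, b ∈ P ↔ V.valuation (b : K) < 1) ∧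
        IsRegularLocalRing (Localization.AtPrime P) := by
  have hBV : ∀ b : Algebra.adjoin R T, (b : K) ∈ V := by
    intro b
    have h1 : (b : K) ∈ (Algebra.adjoin R T).toSubring := b.2
    rw [adjoin_toSubring] at h1
    exact hT h1
  refine ⟨hBV, ?_⟩
  let P : Ideal (Algebra.adjoin R T) :=
    { carrier := {b | V.valuation (b : K) < 1}
      add_mem' := by
        intro a b ha hb
        exact lt_of_le_of_lt (V.valuation.map_add _ _) (max_lt ha hb)
      zero_mem' := by
        change V.valuation ((0 : Algebra.adjoin R T) : K) < 1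
        rw [ZeroMemClass.coe_zero, map_zero]
        exact zero_lt_one
      smul_mem' := by
        intro a b hb
        change V.valuation ((a : K) * (b : K)) < 1
        rw [map_mul]
        have h1 := (V.valuation_le_one_iff _).2 (hBV a)
        calc V.valuation (a : K) * V.valuation (b : K) ≤ 1 * V.valuation (b : K) :=
              mul_le_mul_left h1 _
          _ = V.valuation (b : K) := one_mul _
          _ < 1 := hb }
  have hmem : ∀ b, b ∈ P ↔ V.valuation (b : K) < 1 := fun b => Iff.rfl
  have hP : P.IsPrime := by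
    refine Ideal.isPrime_iff.2 ⟨?_, ?_⟩
    · intro h
      have h1 : (1 : Algebra.adjoin R T) ∈ P := by rw [h]; trivial
      rw [hmem] at h1
      change V.valuation (1 : K) < 1 at h1
      rw [map_one] at h1
      exact lt_irrefl _ h1
    · intro a b hab
      rw [hmem] at hab ⊢
      rw [hmem]
      by_contra hcon
      push Not at hcon
      obtain ⟨h1, h2⟩ := hcon
      change V.valuation ((a : K) * (b : K)) < 1 at hab
      rw [map_mul] at hab
      have h3 : V.valuation (a : K) = 1 :=
        le_antisymm ((V.valuation_le_one_iff _).2 (hBV a)) h1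
      have h4 : V.valuation (b : K) = 1 :=
        le_antisymm ((V.valuation_le_one_iff _).2 (hBV b)) h2
      rw [h3, h4, mul_one] at hab
      exact lt_irrefl _ hab
  refine ⟨P, hP, hmem, ?_⟩
  refine regular_localization (Algebra.adjoin R T).val.toRingHom Subtype.val_injective V P hmem
    hBV ?_
  have h2 : (Algebra.adjoin R T).val.toRingHom.range = (Algebra.adjoin R T).toSubring := by
    ext z
    constructor
    · rintro ⟨b, rfl⟩
      exact b.2
    · intro hz
      exact ⟨⟨z, hz⟩, rfl⟩
  rw [h2, adjoin_toSubring]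
  exact hreg

/-- Rings essentially of finite type. -/
theorem ess_closure {R₀ R K : Type u} [CommRing R₀] [CommRing R] [Field K] [Algebra R₀ R]
    [Algebra R K] [Algebra.EssFiniteType R₀ R]
    (hinj : Function.Injective (algebraMap R K)) :
    ∃ T : Set K, T.Finite ∧
      Subring.closure (((((algebraMap R K).comp (algebraMap R₀ R)).range : Subring K) : Set K) ∪ T)
        ≤ (algebraMap R K).range ∧
      ∀ b ∈ (algebraMap R K).range,
        ∃ a ∈ Subring.closure (((((algebraMap R K).comp (algebraMap R₀ R)).range : Subring K) :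
          Set K) ∪ T),
        ∃ s ∈ Subring.closure (((((algebraMap R K).comp (algebraMap R₀ R)).range : Subring K) :
          Set K) ∪ T), s ≠ 0 ∧ s⁻¹ ∈ (algebraMap R K).range ∧ b = a * s⁻¹ := by
  obtain ⟨σ, hσ⟩ := (Algebra.essFiniteType_iff (R := R₀) (S := R)).1 inferInstance
  have hmap : ∀ x ∈ Algebra.adjoin R₀ (σ : Set R), algebraMap R K x ∈
      Subring.closure (((((algebraMap R K).comp (algebraMap R₀ R)).range : Subring K) : Set K) ∪
        (algebraMap R K '' (σ : Set R))) := by
    intro x hx
    induction hx using Algebra.adjoin_induction with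
    | mem x hx => exact Subring.subset_closure (Or.inr ⟨x, hx, rfl⟩)
    | algebraMap r => exact Subring.subset_closure (Or.inl ⟨r, rfl⟩)
    | add x y hx hy h1 h2 => rw [map_add]; exact Subring.add_mem _ h1 h2
    | mul x y hx hy h1 h2 => rw [map_mul]; exact Subring.mul_mem _ h1 h2
  refine ⟨algebraMap R K '' (σ : Set R), (σ.finite_toSet.image _), ?_, ?_⟩
  · rw [Subring.closure_le]
    rintro z (⟨r, rfl⟩ | ⟨x, hx, rfl⟩)
    · exact ⟨algebraMap R₀ R r, rfl⟩
    · exact ⟨x, rfl⟩
  · rintro _ ⟨b, rfl⟩
    obtain ⟨t, ht, htu, htb⟩ := hσ b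
    obtain ⟨w, hw⟩ := isUnit_iff_exists_inv.1 htu
    have h1 : algebraMap R K t * algebraMap R K w = 1 := by rw [← map_mul, hw, map_one]
    have h2 : algebraMap R K t ≠ 0 := left_ne_zero_of_mul_eq_one h1
    refine ⟨_, hmap _ htb, _, hmap _ ht, h2, ⟨w, ?_⟩, ?_⟩
    · exact eq_inv_of_mul_eq_one_right h1
    · rw [map_mul, mul_inv_cancel_right₀ h2]

/-- Local uniformization of rings essentially of finite type. -/
theorem lu_ess {R₀ : Type u} [CommRing R₀] (h₀ : HJ R₀) {R : Type u} [CommRing R] [Algebra R₀ R]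
    [Algebra.EssFiniteType R₀ R] {K : Type u} [Field K] [Algebra R K]
    (hinj : Function.Injective (algebraMap R K)) (V : ValuationSubring K)
    (hRV : ∀ r : R, algebraMap R K r ∈ V)
    (hV : (∃ n, SD R₀ n ((algebraMap R K).comp (algebraMap R₀ R)) V) ∨
      Dv V (qseq V (algebraMap R K).range)) :
    ∃ B : Subalgebra R K, B.FG ∧ (∀ b : B, (b : K) ∈ V) ∧
      ∃ P : Ideal B, ∃ (_ : P.IsPrime), (∀ b : B, b ∈ P ↔ V.valuation (b : K) < 1) ∧
        IsRegularLocalRing (Localization.AtPrime P) := by
  obtain ⟨T, hT, hTB, hBT⟩ := ess_closure (R₀ := R₀) (R := R) (K := K) hinj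
  have hBV : (algebraMap R K).range ≤ V.toSubring := by
    rintro _ ⟨r, rfl⟩
    exact hRV r
  obtain ⟨h1, -⟩ := main_sd h₀ _ hT hBV hTB hBT hV
  obtain ⟨T', hT', hT'V, hreg⟩ := lu_of_gp h1
  obtain ⟨h3, h4⟩ := regular_centre (R := R) (cl_le hBV hT'V) hreg
  refine ⟨Algebra.adjoin R T', ?_, h3, h4⟩
  exact ⟨hT'.toFinset, by rw [hT'.coe_toFinset]⟩

end Pool.Agent.TH188.QS
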