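import Pool.Agent.H59.L.S8.TH188.QS.LU

/-!
# Arbitrary regular base rings and separable fraction fields
-/

set_option autoImplicit false
set_option linter.unusedVariables false
set_option linter.unusedSectionVars false

universe u v

namespace Pool.Agent.TH188.QS

open IsLocalRing Pool.Agent.W418.LU2

/-- Uniformization over regular rings which are formally smooth over `k₀`, if the fraction field
has no first cotangent homology over `k₀`. -/
theorem gp_fs {k₀ : Type v} {R K : Type u} [CommRing k₀] [CommRing R] [IsDomain R]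
    [IsRegularRing R] [Algebra k₀ R] [Algebra.FormallySmooth k₀ R] [Field K] [Algebra k₀ K]
    (hK : Subsingleton (Algebra.H1Cotangent k₀ K)) (ρ : R →+* K)
    (hρ : ∀ a, ρ (algebraMap k₀ R a) = algebraMap k₀ K a) {T : Set K} (hT : T.Finite)
    (hfr : ∀ z : K, Fr (Subring.closure ((ρ.range : Set K) ∪ T)) z) {V : ValuationSubring K}
    (hAV : Subring.closure ((ρ.range : Set K) ∪ T) ≤ V.toSubring)
    (hdv : Dv V (qseq V (Subring.closure ((ρ.range : Set K) ∪ T)))) :
    GP V (Subring.closure ((ρ.range : Set K) ∪ T)) ∧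
      IsNoetherianRing (Subring.closure ((ρ.range : Set K) ∪ T)) := by
  obtain ⟨n, t, rfl⟩ := exists_fin_range hT
  have hwj := wj_poly hK ρ hρ t hfr
  have hr := range_eval ρ t
  set φ := MvPolynomial.eval₂Hom ρ t with hφ
  rw [← hr] at hAV hdv hfr ⊢
  have hnoe : IsNoetherianRing φ.range := isNoetherianRing_of_surjective _ _ φ.rangeRestrict
    φ.rangeRestrict_surjective
  refine ⟨?_, hnoe⟩
  by_cases hne0 : ∃ y ∈ φ.range, y ≠ 0 ∧ V.valuation y < 1
  · exact gp_wj hwj (fun s => hAV ⟨s, rfl⟩) hne0 hdv
  · push Not at hne0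
    refine gp_trivial hAV fun y hy hy0 => ?_
    have h1 := hne0 y hy hy0
    rw [← V.valuation_le_one_iff, map_inv₀]
    exact inv_le_one_of_one_le₀ h1

/-- The first cotangent homology over domains of characteristic zero. -/
theorem h1_charZero {R K : Type u} [CommRing R] [IsDomain R] [Field K] [CharZero K] [Algebra R K]
    (hinj : Function.Injective (algebraMap R K)) : Subsingleton (Algebra.H1Cotangent R K) := by
  let E := FractionRing R
  let ψ : E →+* K := IsLocalization.lift (M := nonZeroDivisors R) (g := algebraMap R K) (by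
    intro y
    exact isUnit_iff_ne_zero.2 fun h => nonZeroDivisors.ne_zero y.2
      (hinj (by rw [h, map_zero])))
  let _ : Algebra E K := ψ.toAlgebra
  have h1 : IsScalarTower R E K := IsScalarTower.of_algebraMap_eq fun a =>
    (IsLocalization.lift_eq _ a).symm
  have h2 : CharZero E := by
    constructor
    intro m n hmn
    have h3 := congrArg (algebraMap E K) hmn
    rw [map_natCast, map_natCast] at h3
    exact_mod_cast h3
  have h3 : Algebra.FormallySmooth E K := ⟨inferInstance, h1_perfect⟩
  have h4 : Algebra.FormallySmooth R E := Algebra.FormallySmooth.of_isLocalization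
    (nonZeroDivisors R)
  have h5 : Algebra.FormallySmooth R K := Algebra.FormallySmooth.comp R E K
  exact h5.subsingleton_h1Cotangent

/-- The theorem for regular base rings. -/
theorem main_reg {R K : Type u} [CommRing R] [IsDomain R] [IsRegularRing R] [Field K] [Algebra R K]
    (hK : Subsingleton (Algebra.H1Cotangent R K)) {T : Set K} (hT : T.Finite) {V : ValuationSubring K}
    {B : Subring K} (hBV : B ≤ V.toSubring)
    (hAB : Subring.closure (((algebraMap R K).range : Set K) ∪ T) ≤ B)
    (hBA : ∀ b ∈ B, ∃ a ∈ Subring.closure (((algebraMap R K).range : Set K) ∪ T),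
      ∃ s ∈ Subring.closure (((algebraMap R K).range : Set K) ∪ T), s ≠ 0 ∧ s⁻¹ ∈ B ∧ b = a * s⁻¹)
    (hfr : ∀ z : K, ∃ a ∈ B, ∃ b ∈ B, b ≠ 0 ∧ z = a * b⁻¹)
    (hV : IsDiscreteValuationRing V ∨ Dv V (qseq V B)) : LogUnif V B := by
  set A := Subring.closure (((algebraMap R K).range : Set K) ∪ T) with hA
  have hAV : A ≤ V.toSubring := hAB.trans hBV
  have hBA' : B ≤ lo V.toSubring A := by
    intro b hb
    obtain ⟨a, ha, s, hs, hs0, hsB, rfl⟩ := hBA b hb
    exact ⟨a, ha, s, hs, hs0, hBV hsB, rfl⟩
  have hlo : lo V.toSubring B = lo V.toSubring A := le_antisymm (lo_le_lo hAV hBA') (lo_mono hAB)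
  have hq : qseq V B = qseq V A := by
    funext n
    induction n with
    | zero => exact hlo
    | succ n ih => exact congrArg (qt V.toSubring) ih
  have hdv : Dv V (qseq V A) := by
    rcases hV with hV | hV
    · exact dv_of_dvr hV fun n => qseq_le hAV n
    · rwa [hq] at hV
  have hfrA : ∀ z : K, Fr A z := by
    intro z
    obtain ⟨b, hb, c, hc, hc0, rfl⟩ := hfr z
    obtain ⟨a, ha, s, hs, hs0, -, rfl⟩ := hBA b hb
    obtain ⟨a', ha', s', hs', hs'0, -, rfl⟩ := hBA c hc
    have ha'0 : a' ≠ 0 := left_ne_zero_of_mul hc0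
    refine ⟨a * s', A.mul_mem ha hs', s * a', A.mul_mem hs ha', mul_ne_zero hs0 ha'0, ?_⟩
    field_simp
  obtain ⟨h1, hnoe⟩ := gp_fs (k₀ := R) hK (algebraMap R K) (fun a => rfl) hT hfrA hAV hdv
  have hBlo : B = lo B A := by
    apply le_antisymm
    · intro b hb
      obtain ⟨a, ha, s, hs, hs0, hsB, rfl⟩ := hBA b hb
      exact ⟨a, ha, s, hs, hs0, hsB, rfl⟩
    · exact lo_le hAB
  have hnoeB : IsNoetherianRing B := by
    rw [hBlo]
    exact noeth_lo hAB
  exact (h1.loc hAV hAB hBA').logUnif hBV

end Pool.Agent.TH188.QS
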